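import Mathlib

/-!
Clause families for the finite instances of MP_92a29d_co (17 vertices, four classes), with their
meaning.  `Model` is the combinatorial structure, `Var.Val` the value of a variable in a model.
The families are those of the reference encoder of helper40 (order encoding of the levels), plus
one exceptional class (a class contained in a fixed graph on 17 labels, direct encoding).
-/

set_option autoImplicit false

namespace Pool.Agent.Work.MP_92a29d_co_h45

/-- the combinatorial structure: adjacency of four classes and labels of the coded classes -/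
structure Model where
  adj : ℕ → ℕ → ℕ → Prop
  lab : ℕ → ℕ → ℕ

/-- variables -/
inductive Var where
  /-- vertex `u` has label at least `a` in class `i` -/
  | X (i u a : ℕ)
  /-- the pair `u < v` lies in class `i` -/
  | E (i u v : ℕ)
  /-- there is a walk of length two from `u` to `v` in class `i` -/
  | W (i u v : ℕ)
  /-- vertex `u` has label `a` in class `i` -/
  | A (i u a : ℕ)
  /-- `v` has label at least `a` in class `i`, and `u` has not -/
  | D (i u v a : ℕ)
  /-- the labels of `u` and `v` agree in all classes `≤ i` -/
  | Q (i u v : ℕ)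
deriving DecidableEq, Repr

/-- value of a variable -/
def Var.Val (M : Model) : Var → Prop
  | .X i u a => a ≤ M.lab i u
  | .E i u v => M.adj i u v
  | .W i u v => ∃ w, w < 17 ∧ M.adj i u w ∧ M.adj i w v
  | .A i u a => M.lab i u = a
  | .D i u v a => a ≤ M.lab i v ∧ ¬ a ≤ M.lab i u
  | .Q i u v => ∀ j, j ≤ i → M.lab j u = M.lab j v

/-- extended literals -/
inductive XLit where
  | T
  | F
  | l (b : Bool) (v : Var)
deriving DecidableEq, Repr

/-- value of an extended literal -/
def XLit.Holds (M : Model) : XLit → Prop
  | .T => True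
  | .F => False
  | .l true v => v.Val M
  | .l false v => ¬ v.Val M

/-- negation -/
def XLit.neg : XLit → XLit
  | .T => .F
  | .F => .T
  | .l true v => .l false v
  | .l false v => .l true v

theorem XLit.holds_neg (M : Model) (x : XLit) : x.neg.Holds M ↔ ¬ x.Holds M := by
  rcases x with _ | _ | ⟨_ | _, v⟩ <;> simp [XLit.neg, XLit.Holds]

/-- a clause of extended literals holds -/
def CHolds (M : Model) (c : List XLit) : Prop := ∃ x ∈ c, x.Holds M

/-- remove the constants; `none` if the clause contains `T` -/
def norm : List XLit → Option (List (Bool × Var))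
  | [] => some []
  | .T :: _ => none
  | .F :: c => norm c
  | .l b v :: c => (norm c).map fun c' => (b, v) :: c'

/-- value of a literal -/
def LHolds (M : Model) (x : Bool × Var) : Prop := XLit.Holds M (.l x.1 x.2)

theorem norm_sound {M : Model} : ∀ {c : List XLit} {c' : List (Bool × Var)}, norm c = some c' →
    CHolds M c → ∃ x ∈ c', LHolds M x
  | [], _, _, h => by obtain ⟨x, hx, _⟩ := h; simp at hx
  | .T :: _, _, h, _ => by simp [norm] at h
  | .F :: c, c', h, h2 => by
    have h1 : norm c = some c' := h
    obtain ⟨x, hx, hx2⟩ := h2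
    rw [List.mem_cons] at hx
    rcases hx with rfl | hx
    · exact absurd hx2 (by simp [XLit.Holds])
    · exact norm_sound h1 ⟨x, hx, hx2⟩
  | .l b v :: c, c', h, h2 => by
    rw [norm, Option.map_eq_some_iff] at h
    obtain ⟨c1, h1, rfl⟩ := h
    obtain ⟨x, hx, hx2⟩ := h2
    rw [List.mem_cons] at hx
    rcases hx with rfl | hx
    · exact ⟨(b, v), List.mem_cons_self .., hx2⟩
    · obtain ⟨y, hy, hy2⟩ := norm_sound h1 ⟨x, hx, hx2⟩
      exact ⟨y, List.mem_cons_of_mem _ hy, hy2⟩

/-- kinds of classes -/
inductive Kind where
  /-- maps to the cycle of length `2 * m + 3` (labels = levels) -/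
  | lev (m : ℕ)
  /-- contained in the graph on 17 labels with the given adjacency masks -/
  | tgt (nb : List ℕ)
  /-- no odd closed walk of length `≤ 2 * m + 1` -/
  | expl (m : ℕ)
deriving DecidableEq, Repr

/-- an instance -/
structure Inst where
  /-- the kinds of the four classes, coded classes first -/
  kinds : List Kind
  /-- `lv[i][u]` = increasing list of the possible labels of `u` in the coded class `i` -/
  lv : List (List (List ℕ))
  /-- labels `(i, a)` that are taken by some vertex -/
  ne : List (ℕ × ℕ)
  /-- `(i, a, s)`: label `a` of class `i` is taken by at most `s` vertices -/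
  size : List (ℕ × ℕ × ℕ)
  /-- pairs of vertices in lexicographic order -/
  lex : List (ℕ × ℕ)
  /-- pairs of classes whose union has no independent set of five vertices -/
  five : List (ℕ × ℕ)
  /-- `(i, u, a)`: the label of `u` in class `i` is not `a` -/
  forbid : List (ℕ × ℕ × ℕ)

/-- possible labels -/
def Inst.levs (I : Inst) (i u : ℕ) : List ℕ := (I.lv.getD i []).getD u []

/-- kind of a class -/
def Inst.kind (I : Inst) (i : ℕ) : Kind := I.kinds.getD i (.expl 0)

/-- number of coded classes -/
def Inst.k (I : Inst) : ℕ := I.lv.length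

/-- neighbouring levels of the cycle of length `2 * m + 3` -/
def ladj (m a b : ℕ) : Bool :=
  a + 1 == b || b + 1 == a || (a == 0 && b == 2 * m + 2) || (b == 0 && a == 2 * m + 2)

/-- adjacency of labels -/
def kadj : Kind → ℕ → ℕ → Bool
  | .lev m, a, b => ladj m a b
  | .tgt nb, a, b => (nb.getD a 0).testBit b
  | .expl _, _, _ => true

/-- the meaning of an instance -/
structure IsModel (I : Inst) (M : Model) : Prop where
  symm : ∀ i u v, M.adj i u v → M.adj i v u
  cover : ∀ u v, u < v → v < 17 → ∃ i, i < 4 ∧ M.adj i u v
  mem : ∀ i u, i < I.k → u < 17 → M.lab i u ∈ I.levs i u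
  coded : ∀ i u v, i < I.k → u < 17 → v < 17 → M.adj i u v →
    kadj (I.kind i) (M.lab i u) (M.lab i v) = true
  three : ∀ i m, I.kind i = .expl m → 1 ≤ m → ∀ a b c, a < 17 → b < 17 → c < 17 →
    M.adj i a b → M.adj i b c → M.adj i c a → False
  penta : ∀ i m, I.kind i = .expl m → 2 ≤ m → ∀ a b c d e, a < 17 → b < 17 → c < 17 → d < 17 →
    e < 17 → M.adj i a b → M.adj i b c → M.adj i c d → M.adj i d e → M.adj i e a → False
  ne : ∀ i a, (i, a) ∈ I.ne → ∃ u, u < 17 ∧ M.lab i u = a
  size : ∀ i a s, (i, a, s) ∈ I.size → ∀ t : List ℕ, t.Nodup → t.length = s + 1 →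
    (∀ u ∈ t, u < 17) → ∃ u ∈ t, M.lab i u ≠ a
  lex : ∀ u v, (u, v) ∈ I.lex → ∀ i, i < I.k → (∀ j, j < i → M.lab j u = M.lab j v) →
    M.lab i u ≤ M.lab i v
  lex_lt : ∀ u v, (u, v) ∈ I.lex → u < 17 ∧ v < 17
  five : ∀ i j, (i, j) ∈ I.five → ∀ t : List ℕ, t.Nodup → t.length = 5 → (∀ u ∈ t, u < 17) →
    ∃ u ∈ t, ∃ v ∈ t, u < v ∧ (M.adj i u v ∨ M.adj j u v)
  forbid : ∀ i u a, (i, u, a) ∈ I.forbid → M.lab i u ≠ a

/-! ### literals -/

/-- the first element `≥ t` -/
def firstGe (t : ℕ) : List ℕ → Option ℕ
  | [] => none
  | b :: l => match Nat.ble t b with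
    | true => some b
    | false => firstGe t l

/-- the literal `label of u in class i ≥ t`, from the list of possible labels -/
def geL (i u t : ℕ) : List ℕ → XLit
  | [] => .F
  | a :: l => match Nat.ble t a with
    | true => .T
    | false => match firstGe t l with
      | none => .F
      | some b => .l true (.X i u b)

/-- the literal `label of u in class i ≥ t` -/
def Inst.ge (I : Inst) (i u t : ℕ) : XLit := geL i u t (I.levs i u)

theorem firstGe_spec {t : ℕ} : ∀ {l : List ℕ}, l.Pairwise (· < ·) → ∀ {y : ℕ}, y ∈ l →
    match firstGe t l with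
      | none => ¬ t ≤ y
      | some b => (b ≤ y ↔ t ≤ y)
  | [], _, y, hy => by simp at hy
  | a :: l, hl, y, hy => by
    rw [List.pairwise_cons] at hl
    rw [List.mem_cons] at hy
    rcases h : Nat.ble t a with _ | _
    · have h' : ¬ t ≤ a := by
        intro h2
        rw [Nat.ble_eq_true_of_le h2] at h
        exact Bool.noConfusion h
      have e : firstGe t (a :: l) = firstGe t l := by rw [firstGe, h]
      rw [e]
      rcases hy with rfl | hy
      · rcases hf : firstGe t l with _ | b
        · exact h'
        · have : ∀ {l : List ℕ} {b : ℕ}, firstGe t l = some b → b ∈ l ∧ t ≤ b := by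
            intro l
            induction l with
            | nil => intro b hb; simp [firstGe] at hb
            | cons c l ih =>
              intro b hb
              rw [firstGe] at hb
              rcases hc : Nat.ble t c with _ | _
              · rw [hc] at hb
                have := ih hb
                exact ⟨List.mem_cons_of_mem _ this.1, this.2⟩
              · rw [hc] at hb
                simp only [Option.some.injEq] at hb
                subst hb
                exact ⟨List.mem_cons_self .., Nat.le_of_ble_eq_true hc⟩
          obtain ⟨h1, h2⟩ := this hf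
          have := hl.1 b h1
          change b ≤ y ↔ t ≤ y
          omega
      · exact firstGe_spec hl.2 hy
    · have h' : t ≤ a := Nat.le_of_ble_eq_true h
      have e : firstGe t (a :: l) = some a := by rw [firstGe, h]
      rw [e]
      change a ≤ y ↔ t ≤ y
      rcases hy with rfl | hy
      · omega
      · have := hl.1 y hy
        omega

theorem firstGe_mem {t : ℕ} : ∀ {l : List ℕ} {b : ℕ}, firstGe t l = some b → b ∈ l ∧ t ≤ b
  | [], b, hb => by simp [firstGe] at hb
  | c :: l, b, hb => by
    rw [firstGe] at hb
    rcases hc : Nat.ble t c with _ | _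
    · rw [hc] at hb
      have := firstGe_mem (l := l) hb
      exact ⟨List.mem_cons_of_mem _ this.1, this.2⟩
    · rw [hc] at hb
      simp only [Option.some.injEq] at hb
      subst hb
      exact ⟨List.mem_cons_self .., Nat.le_of_ble_eq_true hc⟩

theorem geL_holds (M : Model) (i u t : ℕ) {l : List ℕ} (hl : l.Pairwise (· < ·))
    (h : M.lab i u ∈ l) : (geL i u t l).Holds M ↔ t ≤ M.lab i u := by
  cases l with
  | nil => simp at h
  | cons a l =>
    rw [List.pairwise_cons] at hl
    rw [List.mem_cons] at h
    rcases ht : Nat.ble t a with _ | _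
    · have h' : ¬ t ≤ a := by
        intro h2
        rw [Nat.ble_eq_true_of_le h2] at ht
        exact Bool.noConfusion ht
      rcases hf : firstGe t l with _ | b
      · have e : geL i u t (a :: l) = .F := by simp only [geL, ht, hf]
        rw [e]
        simp only [XLit.Holds, false_iff]
        rcases h with h | h
        · omega
        · have := firstGe_spec (t := t) hl.2 h
          rw [hf] at this
          exact this
      · have e : geL i u t (a :: l) = .l true (.X i u b) := by simp only [geL, ht, hf]
        rw [e]
        simp only [XLit.Holds, Var.Val]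
        rcases h with h | h
        · have h1 := firstGe_mem hf
          have := hl.1 b h1.1
          omega
        · have := firstGe_spec (t := t) hl.2 h
          rw [hf] at this
          exact this
    · have h' : t ≤ a := Nat.le_of_ble_eq_true ht
      have e : geL i u t (a :: l) = .T := by simp only [geL, ht]
      rw [e]
      simp only [XLit.Holds, true_iff]
      rcases h with h | h
      · omega
      · have := hl.1 _ h
        omega

/-- the instance is well formed: lists of labels increase, and pairs in lexicographic order have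
the same possible labels -/
def Inst.wf (I : Inst) : Bool :=
  (List.range I.k).all (fun i => (List.range 17).all fun u =>
    decide ((I.levs i u).Pairwise (· < ·))) &&
  I.lex.all (fun p => (List.range I.k).all fun i => decide (I.levs i p.1 = I.levs i p.2))

section sound

variable {I : Inst} {M : Model}

theorem wf_sorted (hw : I.wf = true) {i u : ℕ} (hi : i < I.k) (hu : u < 17) :
    (I.levs i u).Pairwise (· < ·) := by
  unfold Inst.wf at hw
  rw [Bool.and_eq_true, List.all_eq_true] at hw
  have := hw.1 i (List.mem_range.2 hi)
  rw [List.all_eq_true] at this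
  exact of_decide_eq_true (this u (List.mem_range.2 hu))

theorem wf_lex (hw : I.wf = true) {i u v : ℕ} (hi : i < I.k) (h : (u, v) ∈ I.lex) :
    I.levs i u = I.levs i v := by
  unfold Inst.wf at hw
  rw [Bool.and_eq_true, List.all_eq_true, List.all_eq_true] at hw
  have := hw.2 _ h
  rw [List.all_eq_true] at this
  exact of_decide_eq_true (this i (List.mem_range.2 hi))

theorem ge_holds (hw : I.wf = true) (h : IsModel I M) {i u : ℕ} (hi : i < I.k) (hu : u < 17)
    (t : ℕ) : (I.ge i u t).Holds M ↔ t ≤ M.lab i u :=
  geL_holds M i u t (wf_sorted hw hi hu) (h.mem i u hi hu)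

end sound

/-- can the pair be adjacent in a coded class? -/
def Inst.poss (I : Inst) (i u v : ℕ) : Bool :=
  (I.levs i u).any fun a => (I.levs i v).any fun b => kadj (I.kind i) a b

/-- the literal `uv lies in class i`, `u < v` -/
def Inst.e (I : Inst) (i u v : ℕ) : XLit :=
  match Nat.ble I.k i || I.poss i u v with
  | true => .l true (.E i u v)
  | false => .F

/-- the same for any order of `u` and `v` -/
def Inst.e' (I : Inst) (i u v : ℕ) : XLit :=
  match Nat.ble v u with
  | true => I.e i v u
  | false => I.e i u v

section sound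

variable {I : Inst} {M : Model}

theorem poss_of_adj (h : IsModel I M) {i u v : ℕ} (hi : i < I.k) (hu : u < 17) (hv : v < 17)
    (ha : M.adj i u v) : I.poss i u v = true := by
  unfold Inst.poss
  rw [List.any_eq_true]
  refine ⟨_, h.mem i u hi hu, ?_⟩
  rw [List.any_eq_true]
  exact ⟨_, h.mem i v hi hv, h.coded i u v hi hu hv ha⟩

theorem e_holds (h : IsModel I M) {i u v : ℕ} (hu : u < 17) (hv : v < 17) :
    (I.e i u v).Holds M ↔ M.adj i u v := by
  unfold Inst.e
  rcases hb : (Nat.ble I.k i || I.poss i u v) with _ | _
  · rw [Bool.or_eq_false_iff] at hb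
    simp only [XLit.Holds, false_iff]
    intro ha
    have hi : i < I.k := by
      by_contra hcon
      rw [Nat.ble_eq_true_of_le (by omega)] at hb
      exact Bool.noConfusion hb.1
    rw [poss_of_adj h hi hu hv ha] at hb
    exact Bool.noConfusion hb.2
  · simp only [XLit.Holds, Var.Val]

theorem e'_holds (h : IsModel I M) {i u v : ℕ} (hu : u < 17) (hv : v < 17) :
    (I.e' i u v).Holds M ↔ M.adj i u v := by
  unfold Inst.e'
  rcases Nat.ble v u with _ | _
  · exact e_holds h hu hv
  · rw [e_holds h hv hu]
    exact ⟨h.symm i v u, h.symm i u v⟩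

end sound

/-! ### families -/

/-- the vertices -/
def vs : List ℕ := [0, 1, 2, 3, 4, 5, 6, 7, 8, 9, 10, 11, 12, 13, 14, 15, 16]

theorem mem_vs {u : ℕ} : u ∈ vs ↔ u < 17 := by
  unfold vs
  simp only [List.mem_cons, List.not_mem_nil, or_false]
  omega

/-- all sublists of length `n` -/
def combos : ℕ → List ℕ → List (List ℕ)
  | 0, _ => [[]]
  | _ + 1, [] => []
  | n + 1, a :: l => (combos n l).map (a :: ·) ++ combos (n + 1) l

theorem combos_sub : ∀ {n : ℕ} {l c : List ℕ}, c ∈ combos n l → c.Sublist l ∧ c.length = n
  | 0, l, c, h => by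
    simp only [combos, List.mem_singleton] at h
    subst h
    exact ⟨List.nil_sublist _, rfl⟩
  | n + 1, [], c, h => by simp [combos] at h
  | n + 1, a :: l, c, h => by
    simp only [combos, List.mem_append, List.mem_map] at h
    rcases h with ⟨d, hd, rfl⟩ | h
    · obtain ⟨h1, h2⟩ := combos_sub hd
      exact ⟨h1.cons_cons a, by simp [h2]⟩
    · obtain ⟨h1, h2⟩ := combos_sub h
      exact ⟨h1.cons a, h2⟩

/-- the pairs `u < v` -/
def pairs : List (ℕ × ℕ) := (combos 2 vs).filterMap fun c => match c with
  | [a, b] => some (a, b)
  | _ => none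

theorem vs_sorted : vs.Pairwise (· < ·) := by decide

theorem combos_vs {n : ℕ} {c : List ℕ} (h : c ∈ combos n vs) :
    c.Pairwise (· < ·) ∧ c.length = n ∧ ∀ u ∈ c, u < 17 := by
  obtain ⟨h1, h2⟩ := combos_sub h
  exact ⟨vs_sorted.sublist h1, h2, fun u hu => mem_vs.1 (h1.subset hu)⟩

theorem mem_pairs {p : ℕ × ℕ} (h : p ∈ pairs) : p.1 < p.2 ∧ p.2 < 17 := by
  unfold pairs at h
  rw [List.mem_filterMap] at h
  obtain ⟨c, hc, h2⟩ := h
  obtain ⟨h3, h4, h5⟩ := combos_vs hc
  match c, h2 with
  | [a, b], h2 =>
    simp only [Option.some.injEq] at h2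
    subst h2
    simp only [List.pairwise_cons, List.mem_singleton, forall_eq] at h3
    exact ⟨h3.1, h5 b (by simp)⟩
  | [], h2 => simp at h2
  | [_], h2 => simp at h2
  | _ :: _ :: _ :: _, h2 => simp at h2

end Pool.Agent.Work.MP_92a29d_co_h45
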