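import Pool.Agent.Work.MP_92a29d_co_h45.OM

/-!
Instances with extra clauses and with explicit classes without closed walks of length seven.

The class `i + 4` of a model is the relation of being joined by a walk of length three in the class `i`, so
the variable `.E (i + 4) u v` says that there is a walk of length three from `u` to `v`.
-/

set_option autoImplicit false

namespace Pool.Agent.Work.MP_92a29d_co_h45

/-- there is a walk of length two -/
def walk2 (R : ℕ → ℕ → Prop) (u v : ℕ) : Prop := ∃ w, w < 17 ∧ R u w ∧ R w v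

/-- there is a walk of length three -/
def walk3 (R : ℕ → ℕ → Prop) (u v : ℕ) : Prop :=
  ∃ w x, w < 17 ∧ x < 17 ∧ R u w ∧ R w x ∧ R x v

/-- there is no closed walk of length seven -/
def NoHepta (R : ℕ → ℕ → Prop) : Prop := ∀ a b c d e f g, a < 17 → b < 17 → c < 17 → d < 17 →
  e < 17 → f < 17 → g < 17 → R a b → R b c → R c d → R d e → R e f → R f g → R g a → False

/-- an instance with extra literals and extra clauses -/
structure InstX where
  inst : Inst
  /-- literals that are true -/
  un : List (Bool × Var)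
  /-- clauses that are true -/
  ex : List (List (Bool × Var))

/-- the meaning of an instance with extra clauses -/
structure IsModelX (J : InstX) (M : Model) : Prop where
  base : IsModel J.inst M
  v : ∀ i, i < 4 → ∀ u v, M.adj (i + 4) u v ↔ walk3 (M.adj i) u v
  hepta : ∀ i m, J.inst.kind i = .expl m → 3 ≤ m → NoHepta (M.adj i)
  un : ∀ l ∈ J.un, LHolds M l
  ex : ∀ c ∈ J.ex, ∃ l ∈ c, LHolds M l

/-! ### construction of models -/

/-- the variable does not speak on walks of length three -/
def Var.low : Var → Bool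
  | .X _ _ _ => true
  | .E i _ _ => Nat.blt i 4
  | .W i _ _ => Nat.blt i 4
  | .A _ _ _ => true
  | .D _ _ _ _ => true
  | .Q _ _ _ => true

/-- all variables of the instance are low -/
def InstX.low (J : InstX) : Bool :=
  Nat.ble J.inst.kinds.length 4 && (J.un.all fun l => l.2.low) &&
    (J.ex.all fun c => c.all fun l => l.2.low) && Nat.ble J.inst.k 4 &&
    J.inst.five.all fun p => Nat.blt p.1 4 && Nat.blt p.2 4

/-- add the walks of length three -/
def Model.ext (M : Model) : Model where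
  adj i u v := (i < 4 ∧ M.adj i u v) ∨ (4 ≤ i ∧ i < 8 ∧ walk3 (M.adj (i - 4)) u v)
  lab := M.lab

theorem ext_adj {M : Model} {i u v : ℕ} (hi : i < 4) : M.ext.adj i u v ↔ M.adj i u v := by
  change (i < 4 ∧ M.adj i u v) ∨ (4 ≤ i ∧ i < 8 ∧ walk3 (M.adj (i - 4)) u v) ↔ _
  constructor
  · rintro (h | h)
    · exact h.2
    · omega
  · exact fun h => Or.inl ⟨hi, h⟩

theorem ext_val {M : Model} {v : Var} (hv : v.low = true) : v.Val M.ext ↔ v.Val M := by
  cases v with
  | X i u a => exact Iff.rfl
  | E i u v =>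
    have hi : i < 4 := Nat.le_of_ble_eq_true hv
    exact ext_adj hi
  | W i u v =>
    have hi : i < 4 := Nat.le_of_ble_eq_true hv
    change (∃ w, w < 17 ∧ M.ext.adj i u w ∧ M.ext.adj i w v) ↔
      ∃ w, w < 17 ∧ M.adj i u w ∧ M.adj i w v
    simp only [ext_adj hi]
  | A i u a => exact Iff.rfl
  | D i u v a => exact Iff.rfl
  | Q i u v => exact Iff.rfl

theorem ext_lit {M : Model} {l : Bool × Var} (hl : l.2.low = true) :
    LHolds M.ext l ↔ LHolds M l := by
  obtain ⟨b, v⟩ := l
  cases b
  · change ¬ v.Val M.ext ↔ ¬ v.Val M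
    rw [ext_val hl]
  · change v.Val M.ext ↔ v.Val M
    exact ext_val hl

theorem kind_big {I : Inst} (h : I.kinds.length ≤ 4) {i : ℕ} (hi : 4 ≤ i) :
    I.kind i = .expl 0 := by
  unfold Inst.kind
  rw [List.getD_eq_getElem?_getD, List.getElem?_eq_none (by omega)]
  rfl

/-- CONSTRUCTION: a model of the instance whose extra clauses hold gives a model with walks -/
theorem isModelX_ext {J : InstX} {M : Model} (hJ : J.low = true) (h : IsModel J.inst M)
    (hepta : ∀ i m, J.inst.kind i = .expl m → 3 ≤ m → NoHepta (M.adj i))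
    (un : ∀ l ∈ J.un, LHolds M l) (ex : ∀ c ∈ J.ex, ∃ l ∈ c, LHolds M l) :
    IsModelX J M.ext := by
  unfold InstX.low at hJ
  simp only [Bool.and_eq_true] at hJ
  obtain ⟨⟨⟨⟨h1, h2⟩, h3⟩, h4⟩, h5⟩ := hJ
  have h1 : J.inst.kinds.length ≤ 4 := Nat.le_of_ble_eq_true h1
  have h4 : J.inst.k ≤ 4 := Nat.le_of_ble_eq_true h4
  rw [List.all_eq_true] at h2 h3 h5
  have hlow : ∀ i m, J.inst.kind i = .expl m → 1 ≤ m → i < 4 := by
    intro i m hk hm
    by_contra hcon
    rw [kind_big h1 (by omega)] at hk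
    injection hk with hk
    omega
  refine ⟨?_, ?_, ?_, ?_, ?_⟩
  · refine ⟨?_, ?_, h.mem, ?_, ?_, ?_, h.ne, h.size, h.lex, h.lex_lt, ?_, h.forbid⟩
    · rintro i u v (⟨hi, h2⟩ | ⟨h1, h2, w, x, hw, hx, e1, e2, e3⟩)
      · exact Or.inl ⟨hi, h.symm i u v h2⟩
      · exact Or.inr ⟨h1, h2, x, w, hx, hw, h.symm _ _ _ e3, h.symm _ _ _ e2, h.symm _ _ _ e1⟩
    · intro u v huv hv
      obtain ⟨i, hi, h2⟩ := h.cover u v huv hv
      exact ⟨i, hi, Or.inl ⟨hi, h2⟩⟩
    · intro i u v hi hu hv h2
      rw [ext_adj (by omega)] at h2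
      exact h.coded i u v hi hu hv h2
    · intro i m hk hm a b c ha hb hc
      have hi := hlow i m hk hm
      rw [ext_adj hi, ext_adj hi, ext_adj hi]
      exact h.three i m hk hm a b c ha hb hc
    · intro i m hk hm a b c d e ha hb hc hd he
      have hi := hlow i m hk (by omega)
      rw [ext_adj hi, ext_adj hi, ext_adj hi, ext_adj hi, ext_adj hi]
      exact h.penta i m hk hm a b c d e ha hb hc hd he
    · intro i j hij t ht hl h17
      obtain ⟨u, hu, v, hv, huv, h6⟩ := h.five i j hij t ht hl h17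
      have h7 := h5 _ hij
      rw [Bool.and_eq_true] at h7
      have hi : i < 4 := Nat.le_of_ble_eq_true h7.1
      have hj : j < 4 := Nat.le_of_ble_eq_true h7.2
      refine ⟨u, hu, v, hv, huv, ?_⟩
      rw [ext_adj hi, ext_adj hj]
      exact h6
  · intro i hi u v
    have e : M.ext.adj i = M.adj i := by
      funext u v
      exact propext (ext_adj hi)
    rw [e]
    constructor
    · rintro (h | h)
      · omega
      · have := h.2.2
        rw [Nat.add_sub_cancel] at this
        exact this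
    · intro h
      refine Or.inr ⟨by omega, by omega, ?_⟩
      rw [Nat.add_sub_cancel]
      exact h
  · intro i m hk hm
    have hi := hlow i m hk (by omega)
    have e : M.ext.adj i = M.adj i := by
      funext u v
      exact propext (ext_adj hi)
    rw [e]
    exact hepta i m hk hm
  · intro l hl
    rw [ext_lit (h2 l hl)]
    exact un l hl
  · intro c hc
    obtain ⟨l, hl, h7⟩ := ex c hc
    refine ⟨l, hl, ?_⟩
    have := h3 c hc
    rw [List.all_eq_true] at this
    rw [ext_lit (this l hl)]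
    exact h7

/-! ### closed walks -/

section walks

variable {R : ℕ → ℕ → Prop}

theorem walk2_symm (s : ∀ u v, R u v → R v u) {u v : ℕ} (h : walk2 R u v) : walk2 R v u := by
  obtain ⟨w, hw, h1, h2⟩ := h
  exact ⟨w, hw, s _ _ h2, s _ _ h1⟩

theorem walk3_symm (s : ∀ u v, R u v → R v u) {u v : ℕ} (h : walk3 R u v) : walk3 R v u := by
  obtain ⟨w, x, hw, hx, h1, h2, h3⟩ := h
  exact ⟨x, w, hx, hw, s _ _ h3, s _ _ h2, s _ _ h1⟩

theorem no331 (H : NoHepta R) {p q r : ℕ} (hp : p < 17) (hq : q < 17) (hr : r < 17)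
    (h1 : walk3 R p q) (h2 : walk3 R q r) (h3 : R r p) : False := by
  obtain ⟨a, b, ha, hb, e1, e2, e3⟩ := h1
  obtain ⟨c, d, hc, hd, e4, e5, e6⟩ := h2
  exact H p a b q c d r hp ha hb hq hc hd hr e1 e2 e3 e4 e5 e6 h3

theorem no322 (H : NoHepta R) {p q r : ℕ} (hp : p < 17) (hq : q < 17) (hr : r < 17)
    (h1 : walk3 R p q) (h2 : walk2 R q r) (h3 : walk2 R r p) : False := by
  obtain ⟨a, b, ha, hb, e1, e2, e3⟩ := h1
  obtain ⟨c, hc, e4, e5⟩ := h2
  obtain ⟨d, hd, e6, e7⟩ := h3
  exact H p a b q c r d hp ha hb hq hc hr hd e1 e2 e3 e4 e5 e6 e7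

end walks

end Pool.Agent.Work.MP_92a29d_co_h45
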