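import Pool.Agent.Work.MP_92a29d_co_h45.Job

/-!
Checks of the data of an instance: base tables, information, aliases.
-/

set_option autoImplicit false

namespace Pool.Agent.Work.MP_92a29d_co_h45

/-- all numbers below `n` -/
def allB (n : ℕ) (f : ℕ → Bool) : Bool :=
  Nat.rec (motive := fun _ => Bool) true (fun m r => and (f m) r) n

theorem allB_spec {f : ℕ → Bool} : ∀ {n : ℕ}, allB n f = true → ∀ k, k < n → f k = true
  | 0, _, k, hk => absurd hk (Nat.not_lt_zero k)
  | n + 1, h, k, hk => by
    have h : (f n && allB n f) = true := h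
    rw [Bool.and_eq_true] at h
    rcases Nat.lt_succ_iff_lt_or_eq.1 hk with h1 | rfl
    · exact allB_spec h.2 k h1
    · exact h.1

/-! ### base tables -/

/-- known value of a variable -/
def fE (I : Inst) (i k : ℕ) : Option Bool :=
  match Nat.blt i I.k && !(I.poss i (k / 17) (k % 17)) with
  | true => some false
  | false => none

def fX (I : Inst) (i k : ℕ) : Option Bool :=
  match Nat.blt i I.k with
  | true => match (I.levs i (k / 32)).all fun y => Nat.ble (k % 32) y with
    | true => some true
    | false => match (I.levs i (k / 32)).all fun y => Nat.blt y (k % 32) with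
      | true => some false
      | false => none
  | false => none

def fA (I : Inst) (i k : ℕ) : Option Bool :=
  match Nat.blt i I.k with
  | true => match (I.levs i (k / 32)).all fun y => Nat.beq y (k % 32) with
    | true => some true
    | false => match (I.levs i (k / 32)).all (fun y => !Nat.beq y (k % 32)) ||
        I.forbid.any fun p => Nat.beq p.1 i && Nat.beq p.2.1 (k / 32) && Nat.beq p.2.2 (k % 32) with
      | true => some false
      | false => none
  | false => none

def fD (I : Inst) (i k : ℕ) : Option Bool :=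
  match Nat.blt i I.k && Nat.blt (k / 32 + 1) 17 with
  | true => match (I.levs i (k / 32 + 1)).all (fun y => Nat.blt y (k % 32)) ||
        (I.levs i (k / 32)).all fun y => Nat.ble (k % 32) y with
    | true => some false
    | false => match (I.levs i (k / 32 + 1)).all (fun y => Nat.ble (k % 32) y) &&
        (I.levs i (k / 32)).all fun y => Nat.blt y (k % 32) with
      | true => some true
      | false => none
  | false => none

def fN (_ _ : ℕ) : Option Bool := none

/-- the entry is trivial or agrees with the known value -/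
def chkE (B T k : ℕ) (v : Option Bool) : Bool :=
  match Nat.beq (F22 T k) 0 with
  | true => true
  | false => match v with
    | some b => Nat.beq (F22 T k) (kc B b)
    | none => false

/-- check of a table with `n` entries -/
def chkT (B n T : ℕ) (f : ℕ → Option Bool) : Bool :=
  Nat.beq (Nat.shiftRight T (Nat.mul 24 n)) 0 && allB n fun k => chkE B T k (f k)

/-- check of a list of tables -/
def chkTs (B n : ℕ) (f : ℕ → ℕ → Option Bool) : ℕ → List ℕ → Bool
  | _, [] => true
  | i, T :: Ts => chkT B n T (f i) && chkTs B n f (i + 1) Ts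

section

variable {I : Inst} {M : Model} {B K : ℕ} {τ : ℕ → Prop}

theorem chkT_sound {n T : ℕ} {f : ℕ → Option Bool} {val : ℕ → Prop} (hB : B < 4096) (h0 : Zer B K τ)
    (h : chkT B n T f = true) (hf : ∀ k, k < n → ∀ b, f k = some b → (val k ↔ b = true)) :
    TOK B K τ T val := by
  unfold chkT at h
  rw [Bool.and_eq_true] at h
  have h1 : T >>> (24 * n) = 0 := Nat.eq_of_beq_eq_true h.1
  intro k
  rw [cd_pos, cd_neg]
  have key : F22 T k = 0 ∨ ∃ b, (val k ↔ b = true) ∧ F22 T k = kc B b := by
    rcases Nat.lt_or_ge k n with hk | hk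
    · have h2 := allB_spec h.2 k hk
      unfold chkE at h2
      rcases hz : Nat.beq (F22 T k) 0 with _ | _
      · rw [hz] at h2
        rcases hv : f k with _ | b
        · rw [hv] at h2
          exact absurd h2 (by simp)
        · rw [hv] at h2
          exact Or.inr ⟨b, hf k hk b hv, Nat.eq_of_beq_eq_true h2⟩
      · exact Or.inl (Nat.eq_of_beq_eq_true hz)
    · left
      rw [F22_eq]
      have : T >>> (24 * k) = 0 := by
        have e : 24 * k = 24 * n + 24 * (k - n) := by omega
        rw [e, Nat.shiftRight_add, h1, Nat.zero_shiftRight]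
      rw [this, Nat.zero_mod]
  have e0 : kc B false = B := rfl
  have e1 : kc B true = B * 2 ^ 12 := Nat.shiftLeft_eq B 12
  rcases key with h2 | ⟨b, h2, h3⟩
  · rw [h2]
    simp only [Nat.zero_mod, Nat.zero_div, Nat.xor_zero]
    exact ⟨fun _ => ct_zero h0, fun _ => ct_zero h0⟩
  · cases b
    · rw [h3, e0]
      have e2 : B / 4096 = 0 := by omega
      rw [e2, Nat.xor_zero]
      exact ⟨fun hv => absurd (h2.1 hv) (by simp), fun _ => ct_zero h0⟩
    · rw [h3, e1]
      have e2 : B * 2 ^ 12 % 4096 = 0 := by omega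
      rw [e2, Nat.xor_zero]
      exact ⟨fun _ => ct_zero h0, fun hv => absurd (h2.2 rfl) hv⟩

theorem chkTs_sound {n : ℕ} {f : ℕ → ℕ → Option Bool} {V : ℕ → ℕ → Prop} (hB : B < 4096)
    (h0 : Zer B K τ) (hf : ∀ i k, k < n → ∀ b, f i k = some b → (V i k ↔ b = true)) :
    ∀ (Ts : List ℕ) (i : ℕ), chkTs B n f i Ts = true →
      ∀ j, TOK B K τ (Ts.getD j 0) (V (i + j))
  | [], _, _, _ => tok_zero h0
  | T :: Ts, i, h, j => by
    have h : (chkT B n T (f i) && chkTs B n f (i + 1) Ts) = true := h
    rw [Bool.and_eq_true] at h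
    cases j with
    | zero => exact chkT_sound hB h0 h.1 (hf i)
    | succ j =>
      have := chkTs_sound hB h0 hf Ts (i + 1) h.2 j
      have e : i + 1 + j = i + (j + 1) := by ring
      rw [e] at this
      exact this

theorem fE_spec (hM : IsModel I M) {i k : ℕ} (hk : k < 289) {b : Bool} (h : fE I i k = some b) :
    vE M i k ↔ b = true := by
  unfold fE at h
  rcases hc : (Nat.blt i I.k && !(I.poss i (k / 17) (k % 17))) with _ | _
  · rw [hc] at h
    exact absurd h (by simp)
  · rw [hc] at h
    simp only [Option.some.injEq] at h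
    subst h
    rw [Bool.and_eq_true] at hc
    have hi : i < I.k := Nat.le_of_ble_eq_true hc.1
    constructor
    · intro ha
      have := poss_of_adj hM hi (u := k / 17) (v := k % 17) (by omega) (by omega) ha
      rw [this] at hc
      exact absurd hc.2 (by simp)
    · intro h
      exact absurd h (by simp)

theorem all_ble {l : List ℕ} {a y : ℕ} (h : (l.all fun y => Nat.ble a y) = true) (hy : y ∈ l) :
    a ≤ y := Nat.le_of_ble_eq_true (List.all_eq_true.1 h y hy)

theorem all_blt {l : List ℕ} {a y : ℕ} (h : (l.all fun y => Nat.blt y a) = true) (hy : y ∈ l) :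
    y < a := Nat.le_of_ble_eq_true (List.all_eq_true.1 h y hy)

theorem fX_spec (hM : IsModel I M) {i k : ℕ} (hk : k < 544) {b : Bool} (h : fX I i k = some b) :
    vX M i k ↔ b = true := by
  unfold fX at h
  rcases hi : Nat.blt i I.k with _ | _
  · rw [hi] at h
    exact absurd h (by simp)
  · rw [hi] at h
    have hi : i < I.k := Nat.le_of_ble_eq_true hi
    have hm := hM.mem i (k / 32) hi (by omega)
    rcases h1 : (I.levs i (k / 32)).all fun y => Nat.ble (k % 32) y with _ | _
    · rw [h1] at h
      rcases h2 : (I.levs i (k / 32)).all fun y => Nat.blt y (k % 32) with _ | _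
      · rw [h2] at h
        exact absurd h (by simp)
      · rw [h2] at h
        simp only [Option.some.injEq] at h
        subst h
        have := all_blt h2 hm
        constructor
        · intro h
          have h : k % 32 ≤ M.lab i (k / 32) := h
          omega
        · intro h
          exact absurd h (by simp)
    · rw [h1] at h
      simp only [Option.some.injEq] at h
      subst h
      exact ⟨fun _ => rfl, fun _ => all_ble h1 hm⟩

theorem fA_spec (hM : IsModel I M) {i k : ℕ} (hk : k < 544) {b : Bool} (h : fA I i k = some b) :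
    vA M i k ↔ b = true := by
  unfold fA at h
  rcases hi : Nat.blt i I.k with _ | _
  · rw [hi] at h
    exact absurd h (by simp)
  · rw [hi] at h
    have hi : i < I.k := Nat.le_of_ble_eq_true hi
    have hm := hM.mem i (k / 32) hi (by omega)
    rcases h1 : (I.levs i (k / 32)).all fun y => Nat.beq y (k % 32) with _ | _
    · rw [h1] at h
      rcases h2 : ((I.levs i (k / 32)).all (fun y => !Nat.beq y (k % 32)) ||
        I.forbid.any fun p => Nat.beq p.1 i && Nat.beq p.2.1 (k / 32) &&
          Nat.beq p.2.2 (k % 32)) with _ | _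
      · simp only [h2] at h
        exact absurd h (by simp)
      · simp only [h2] at h
        simp only [Option.some.injEq] at h
        subst h
        refine ⟨fun h => ?_, fun h => absurd h (by simp)⟩
        have h : M.lab i (k / 32) = k % 32 := h
        rw [Bool.or_eq_true] at h2
        rcases h2 with h2 | h2
        · have := List.all_eq_true.1 h2 _ hm
          exact absurd h (not_beq this)
        · rw [List.any_eq_true] at h2
          obtain ⟨⟨p, q, r⟩, h3, h4⟩ := h2
          rw [Bool.and_eq_true, Bool.and_eq_true] at h4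
          have e1 : p = i := Nat.eq_of_beq_eq_true h4.1.1
          have e2 : q = k / 32 := Nat.eq_of_beq_eq_true h4.1.2
          have e3 : r = k % 32 := Nat.eq_of_beq_eq_true h4.2
          subst e1 e2 e3
          exact absurd h (hM.forbid _ _ _ h3)
    · rw [h1] at h
      simp only [Option.some.injEq] at h
      subst h
      exact ⟨fun _ => rfl, fun _ => Nat.eq_of_beq_eq_true (List.all_eq_true.1 h1 _ hm)⟩

theorem fD_spec (hM : IsModel I M) {i k : ℕ} {b : Bool} (h : fD I i k = some b) :
    vD M i k ↔ b = true := by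
  unfold fD at h
  rcases hi : (Nat.blt i I.k && Nat.blt (k / 32 + 1) 17) with _ | _
  · simp only [hi] at h
    exact absurd h (by simp)
  · simp only [hi] at h
    rw [Bool.and_eq_true] at hi
    have hi1 : i < I.k := Nat.le_of_ble_eq_true hi.1
    have hu : k / 32 + 1 < 17 := Nat.le_of_ble_eq_true hi.2
    have hm1 := hM.mem i (k / 32) hi1 (by omega)
    have hm2 := hM.mem i (k / 32 + 1) hi1 hu
    rcases h1 : ((I.levs i (k / 32 + 1)).all (fun y => Nat.blt y (k % 32)) ||
        (I.levs i (k / 32)).all fun y => Nat.ble (k % 32) y) with _ | _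
    · simp only [h1] at h
      rcases h2 : ((I.levs i (k / 32 + 1)).all (fun y => Nat.ble (k % 32) y) &&
        (I.levs i (k / 32)).all fun y => Nat.blt y (k % 32)) with _ | _
      · simp only [h2] at h
        exact absurd h (by simp)
      · simp only [h2, Option.some.injEq] at h
        subst h
        rw [Bool.and_eq_true] at h2
        have h3 := all_ble h2.1 hm2
        have h4 := all_blt h2.2 hm1
        exact ⟨fun _ => rfl, fun _ => ⟨h3, by omega⟩⟩
    · simp only [h1, Option.some.injEq] at h
      subst h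
      refine ⟨fun h => ?_, fun h => absurd h (by simp)⟩
      obtain ⟨h3, h4⟩ := h
      rw [Bool.or_eq_true] at h1
      rcases h1 with h1 | h1
      · have := all_blt h1 hm2
        omega
      · exact absurd (all_ble h1 hm1) h4

/-- check of the base tables -/
def chkBase (I : Inst) (B : ℕ) (t : Tab) : Bool :=
  Nat.blt B 4096 && chkTs B 289 (fE I) 0 t.e && chkTs B 289 (fun _ _ => none) 0 t.w &&
  chkTs B 544 (fX I) 0 t.x && chkTs B 544 (fA I) 0 t.a && chkTs B 544 (fD I) 0 t.d &&
  chkTs B 17 (fun _ _ => none) 0 t.q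

theorem chkBase_sound (hM : IsModel I M) {t : Tab} (h : chkBase I B t = true) :
    BaseOK M B t := by
  intro K τ h0
  unfold chkBase at h
  simp only [Bool.and_eq_true] at h
  obtain ⟨⟨⟨⟨⟨⟨hB, h1⟩, h2⟩, h3⟩, h4⟩, h5⟩, h6⟩ := h
  have hB : B < 4096 := Nat.le_of_ble_eq_true hB
  refine ⟨?_, ?_, ?_, ?_, ?_, ?_⟩
  · intro i
    have := chkTs_sound (K := K) (V := vE M) hB h0 (fun i k hk b hb => fE_spec hM hk hb) t.e 0 h1 i
    rw [Nat.zero_add] at this
    exact this
  · intro i
    have := chkTs_sound (K := K) (V := vW M) hB h0 (fun i k hk b hb => absurd hb (by simp)) t.w 0 h2 i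
    rw [Nat.zero_add] at this
    exact this
  · intro i
    have := chkTs_sound (K := K) (V := vX M) hB h0 (fun i k hk b hb => fX_spec hM hk hb) t.x 0 h3 i
    rw [Nat.zero_add] at this
    exact this
  · intro i
    have := chkTs_sound (K := K) (V := vA M) hB h0 (fun i k hk b hb => fA_spec hM hk hb) t.a 0 h4 i
    rw [Nat.zero_add] at this
    exact this
  · intro i
    have := chkTs_sound (K := K) (V := vD M) hB h0 (fun i k hk b hb => fD_spec hM hb) t.d 0 h5 i
    rw [Nat.zero_add] at this
    exact this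
  · intro i
    have := chkTs_sound (K := K) (V := vQ M) hB h0 (fun i k hk b hb => absurd hb (by simp)) t.q 0 h6 i
    rw [Nat.zero_add] at this
    exact this

/-! ### aliases -/

/-- check of an alias -/
def chkAl1 (I : Inst) (i : ℕ) (p : Bool × ℕ × ℕ × ℕ) : Bool :=
  Nat.blt i I.k && Nat.blt p.2.1 17 && Nat.blt p.2.2.1 32 && Nat.blt p.2.2.2 32 &&
    (I.levs i p.2.1).all fun y => Nat.beq y p.2.2.1 == (Nat.ble p.2.2.2 y == p.1)

def chkAls (I : Inst) : ℕ → List (List (Bool × ℕ × ℕ × ℕ)) → Bool
  | _, [] => true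
  | i, L :: Ls => (L.all fun p => chkAl1 I i p) && chkAls I (i + 1) Ls

theorem chkAl1_sound (hM : IsModel I M) {i : ℕ} {p : Bool × ℕ × ℕ × ℕ}
    (h : chkAl1 I i p = true) : AlOK M i p := by
  obtain ⟨s, u, a, b⟩ := p
  unfold chkAl1 at h
  simp only [Bool.and_eq_true] at h
  obtain ⟨⟨⟨⟨hi, hu⟩, ha⟩, hb⟩, hl⟩ := h
  have hi : i < I.k := Nat.le_of_ble_eq_true hi
  have hu : u < 17 := Nat.le_of_ble_eq_true hu
  have ha : a < 32 := Nat.le_of_ble_eq_true ha
  have hb : b < 32 := Nat.le_of_ble_eq_true hb
  have hm := hM.mem i u hi hu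
  have h := List.all_eq_true.1 hl _ hm
  have e2 : Nat.ble b (M.lab i u) = decide (b ≤ M.lab i u) := by
    rw [Bool.eq_iff_iff, Nat.ble_eq, decide_eq_true_iff]
  refine ⟨ha, hb, ?_⟩
  simp only [beq_iff_eq] at h
  rw [e2] at h
  change M.lab i u = a ↔ if s = true then b ≤ M.lab i u else ¬ b ≤ M.lab i u
  have h' : (M.lab i u = a) ↔ ((decide (b ≤ M.lab i u) == s) = true) := by
    rw [← h]
    exact ⟨fun e => by rw [e]; exact Nat.beq_refl a, Nat.eq_of_beq_eq_true⟩
  rw [h']
  cases s <;> simp

theorem chkAls_sound (hM : IsModel I M) : ∀ (Ls : List (List (Bool × ℕ × ℕ × ℕ))) (i : ℕ),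
    chkAls I i Ls = true → ∀ j, ∀ p ∈ Ls.getD j [], AlOK M (i + j) p
  | [], _, _, _, p, hp => absurd hp (by simp)
  | L :: Ls, i, h, j, p, hp => by
    have h : ((L.all fun p => chkAl1 I i p) && chkAls I (i + 1) Ls) = true := h
    rw [Bool.and_eq_true] at h
    cases j with
    | zero => exact chkAl1_sound hM (List.all_eq_true.1 h.1 p hp)
    | succ j =>
      have := chkAls_sound hM Ls (i + 1) h.2 j p hp
      have e : i + 1 + j = i + (j + 1) := by ring
      rw [e] at this
      exact this

/-! ### information -/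

/-- every set bit below `n` satisfies `f`, and there are no other bits -/
def chkM (n m : ℕ) (f : ℕ → Bool) : Bool :=
  Nat.beq (Nat.shiftRight m n) 0 && allB n fun k => !(tb m k) || f k

theorem tb_eq (m k : ℕ) : tb m k = m.testBit k := by
  unfold tb
  have e : Nat.land (Nat.shiftRight m k) 1 = (m >>> k) % 2 := by
    change (m >>> k) &&& 1 = _
    rw [Nat.and_one_is_mod]
  rw [e, Nat.testBit_eq_decide_div_mod_eq, Nat.shiftRight_eq_div_pow, Bool.eq_iff_iff,
    decide_eq_true_iff]
  exact ⟨Nat.eq_of_beq_eq_true, fun h => by rw [h]; rfl⟩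

theorem chkM_sound {n m : ℕ} {f : ℕ → Bool} (h : chkM n m f = true) {k : ℕ}
    (hk : tb m k = true) : k < n ∧ f k = true := by
  unfold chkM at h
  rw [Bool.and_eq_true] at h
  have h1 : m >>> n = 0 := Nat.eq_of_beq_eq_true h.1
  have hlt : k < n := by
    by_contra hcon
    have e : k = n + (k - n) := by omega
    rw [tb_eq, e, ← Nat.testBit_shiftRight, h1, Nat.zero_testBit] at hk
    exact Bool.noConfusion hk
  have h2 := allB_spec h.2 k hlt
  rw [Bool.or_eq_true] at h2
  rcases h2 with h2 | h2
  · rw [hk] at h2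
    exact absurd h2 (by simp)
  · exact ⟨hlt, h2⟩

/-- largest label -/
def chkTop (k : Kind) (top : ℕ) : Bool :=
  match k with
  | .lev m => Nat.beq top (2 * m + 2)
  | _ => true

/-- check of the information on a coded class -/
def chkC (I : Inst) (i : ℕ) (c : CInfo) : Bool :=
  chkM 17 c.nz (fun u => (I.levs i u).all fun y => !Nat.beq y 0) &&
  chkM 17 c.sp (fun u => (I.levs i u).all fun y => Nat.beq y 0) &&
  chkM 17 c.od (fun u => (I.levs i u).all fun y => Nat.beq (y % 2) 1 && Nat.ble y 16) &&
  chkM 17 c.ev (fun u => (I.levs i u).all fun y => Nat.beq (y % 2) 0 && !Nat.beq y 0 &&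
    Nat.ble y 16) &&
  chkM 32 c.s1 (fun a => I.size.any fun p => Nat.beq p.1 i && Nat.beq p.2.1 a && Nat.beq p.2.2 1) &&
  chkM 32 c.s2 (fun a => I.size.any fun p => Nat.beq p.1 i && Nat.beq p.2.1 a && Nat.beq p.2.2 2) &&
  chkM 32 c.ne (fun a => I.ne.any fun p => Nat.beq p.1 i && Nat.beq p.2 a) &&
  chkTop (I.kind i) c.top

theorem chkC_sound (hM : IsModel I M) {i : ℕ} (hi : i < I.k) {c : CInfo}
    (h : chkC I i c = true) : CInfoOK I M i c := by
  unfold chkC at h
  simp only [Bool.and_eq_true] at h
  obtain ⟨⟨⟨⟨⟨⟨⟨h1, h2⟩, h3⟩, h4⟩, h5⟩, h6⟩, h7⟩, h8⟩ := h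
  refine ⟨?_, ?_, ?_, ?_, ?_, ?_, ?_, ?_⟩
  · intro u hu h
    have := List.all_eq_true.1 (chkM_sound h1 h).2 _ (hM.mem i u hi hu)
    exact not_beq this
  · intro u hu h
    exact Nat.eq_of_beq_eq_true (List.all_eq_true.1 (chkM_sound h2 h).2 _ (hM.mem i u hi hu))
  · intro u hu h
    have := List.all_eq_true.1 (chkM_sound h3 h).2 _ (hM.mem i u hi hu)
    rw [Bool.and_eq_true] at this
    exact ⟨Nat.eq_of_beq_eq_true this.1, Nat.le_of_ble_eq_true this.2⟩
  · intro u hu h
    have := List.all_eq_true.1 (chkM_sound h4 h).2 _ (hM.mem i u hi hu)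
    rw [Bool.and_eq_true, Bool.and_eq_true] at this
    exact ⟨Nat.eq_of_beq_eq_true this.1.1, not_beq this.1.2, Nat.le_of_ble_eq_true this.2⟩
  · intro a h u v hu hv huv
    obtain ⟨⟨p, q, r⟩, h3, h4⟩ := List.any_eq_true.1 (chkM_sound h5 h).2
    simp only [Bool.and_eq_true] at h4
    have e1 : p = i := Nat.eq_of_beq_eq_true h4.1.1
    have e2 : q = a := Nat.eq_of_beq_eq_true h4.1.2
    have e3 : r = 1 := Nat.eq_of_beq_eq_true h4.2
    subst e1 e2 e3
    obtain ⟨w, hw, h⟩ := hM.size _ _ _ h3 [u, v] (by simp [huv]) rfl (by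
      intro w hw
      simp only [List.mem_cons, List.not_mem_nil, or_false] at hw
      omega)
    simp only [List.mem_cons, List.not_mem_nil, or_false] at hw
    rcases hw with rfl | rfl
    · exact Or.inl h
    · exact Or.inr h
  · intro a h u v w hu hv hw huv huw hvw
    obtain ⟨⟨p, q, r⟩, h3, h4⟩ := List.any_eq_true.1 (chkM_sound h6 h).2
    simp only [Bool.and_eq_true] at h4
    have e1 : p = i := Nat.eq_of_beq_eq_true h4.1.1
    have e2 : q = a := Nat.eq_of_beq_eq_true h4.1.2
    have e3 : r = 2 := Nat.eq_of_beq_eq_true h4.2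
    subst e1 e2 e3
    obtain ⟨x, hx, h⟩ := hM.size _ _ _ h3 [u, v, w] (by simp [huv, huw, hvw]) rfl (by
      intro x hx
      simp only [List.mem_cons, List.not_mem_nil, or_false] at hx
      omega)
    simp only [List.mem_cons, List.not_mem_nil, or_false] at hx
    rcases hx with rfl | rfl | rfl
    · exact Or.inl h
    · exact Or.inr (Or.inl h)
    · exact Or.inr (Or.inr h)
  · intro a h
    obtain ⟨⟨p, q⟩, h9, h10⟩ := List.any_eq_true.1 (chkM_sound h7 h).2
    rw [Bool.and_eq_true] at h10
    have e1 : p = i := Nat.eq_of_beq_eq_true h10.1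
    have e2 : q = a := Nat.eq_of_beq_eq_true h10.2
    rw [e1, e2] at h9
    exact hM.ne _ _ h9
  · intro m hm
    unfold chkTop at h8
    rw [hm] at h8
    exact Nat.eq_of_beq_eq_true h8

/-- check of the lists of neighbours -/
def chkNB (k : Kind) (NB : ℕ) : Bool :=
  match k with
  | .tgt _ => allB 17 fun a => allB 17 fun b => !(kadj k a b) || Nat.beq b (nbr NB a 0) ||
      Nat.beq b (nbr NB a 1) || Nat.beq b (nbr NB a 2) || Nat.beq b (nbr NB a 3)
  | _ => true

theorem chkNB_sound {k : Kind} {NB : ℕ} (h : chkNB k NB = true) (hk : ∃ nb, k = .tgt nb) :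
    NBOK k NB := by
  obtain ⟨nb, hk⟩ := hk
  subst hk
  intro a b ha hb hab
  have h : (allB 17 fun a => allB 17 fun b => !(kadj (.tgt nb) a b) || Nat.beq b (nbr NB a 0) ||
      Nat.beq b (nbr NB a 1) || Nat.beq b (nbr NB a 2) || Nat.beq b (nbr NB a 3)) = true := h
  have h1 := allB_spec (allB_spec (f := fun a => allB 17 fun b => !(kadj (.tgt nb) a b) ||
      Nat.beq b (nbr NB a 0) || Nat.beq b (nbr NB a 1) || Nat.beq b (nbr NB a 2) ||
      Nat.beq b (nbr NB a 3)) h a ha) b hb
  simp only [hab, Bool.not_true, Bool.false_or, Bool.or_eq_true] at h1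
  rcases h1 with ((h1 | h1) | h1) | h1
  · exact Or.inl (Nat.eq_of_beq_eq_true h1)
  · exact Or.inr (Or.inl (Nat.eq_of_beq_eq_true h1))
  · exact Or.inr (Or.inr (Or.inl (Nat.eq_of_beq_eq_true h1)))
  · exact Or.inr (Or.inr (Or.inr (Nat.eq_of_beq_eq_true h1)))

/-- check of the masks of forbidden labels -/
def chkFb (I : Inst) : ℕ → List ℕ → Bool
  | _, [] => true
  | i, m :: ms => Nat.blt i I.k && chkM 544 m (fun w => Nat.blt (w % 32) 30 &&
      (((I.levs i (w / 32)).all fun y => !Nat.beq y (w % 32)) ||
        I.forbid.any fun p => Nat.beq p.1 i && Nat.beq p.2.1 (w / 32) && Nat.beq p.2.2 (w % 32)) &&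
      (I.levs i (w / 32)).all fun y => !Nat.beq y (w % 32 + 1)) && chkFb I (i + 1) ms

theorem chkFb_sound (hM : IsModel I M) : ∀ (ms : List ℕ) (i : ℕ), chkFb I i ms = true →
    ∀ j, FbOK M (i + j) (ms.getD j 0)
  | [], _, _, _, w, hw => by
    rw [tb_eq] at hw
    change Nat.testBit 0 w = true at hw
    rw [Nat.zero_testBit] at hw
    exact Bool.noConfusion hw
  | m :: ms, i, h, j, w, hw => by
    unfold chkFb at h
    rw [Bool.and_eq_true, Bool.and_eq_true] at h
    cases j with
    | zero =>
      have hi : i < I.k := Nat.le_of_ble_eq_true h.1.1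
      obtain ⟨hlt, h2⟩ := chkM_sound h.1.2 hw
      simp only [Bool.and_eq_true, Bool.or_eq_true] at h2
      obtain ⟨⟨h3, h4⟩, h5⟩ := h2
      have hm := hM.mem i (w / 32) hi (by omega)
      refine ⟨Nat.le_of_ble_eq_true h3, ?_, ?_⟩
      · rcases h4 with h4 | h4
        · exact not_beq (List.all_eq_true.1 h4 _ hm)
        · obtain ⟨⟨p, q, r⟩, h6, h7⟩ := List.any_eq_true.1 h4
          simp only [Bool.and_eq_true] at h7
          have e1 : p = i := Nat.eq_of_beq_eq_true h7.1.1
          have e2 : q = w / 32 := Nat.eq_of_beq_eq_true h7.1.2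
          have e3 : r = w % 32 := Nat.eq_of_beq_eq_true h7.2
          subst e1 e2 e3
          exact hM.forbid _ _ _ h6
      · exact not_beq (List.all_eq_true.1 h5 _ hm)
    | succ j =>
      have := chkFb_sound hM ms (i + 1) h.2 j w hw
      have e : i + 1 + j = i + (j + 1) := by ring
      rw [e] at this
      exact this

/-- check of the information on an instance -/
def chkInfo (I : Inst) (F : Info) : Bool :=
  allB I.k (fun i => chkC I i (F.C i)) &&
  allB I.k (fun i => allB 17 fun u => (I.levs i u).all fun y => Nat.ble y 16) &&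
  chkM 16 F.lexm (fun u => I.lex.any fun p => Nat.beq p.1 u && Nat.beq p.2 (u + 1)) &&
  allB I.k (fun i => chkNB (I.kind i) (F.NB i)) &&
  chkFb I 0 F.fb

theorem chkInfo_sound (hM : IsModel I M) {F : Info} (h : chkInfo I F = true) :
    InfoOK I M F := by
  unfold chkInfo at h
  simp only [Bool.and_eq_true] at h
  obtain ⟨⟨⟨⟨h1, h2⟩, h3⟩, h4⟩, h5⟩ := h
  refine ⟨?_, ?_, ?_, ?_, ?_⟩
  · intro i hi
    exact chkC_sound hM hi (allB_spec h1 i hi)
  · intro i u hi hu
    have := List.all_eq_true.1 (allB_spec (allB_spec h2 i hi) u hu) _ (hM.mem i u hi hu)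
    exact Nat.le_of_ble_eq_true this
  · intro u hu
    obtain ⟨hlt, h6⟩ := chkM_sound h3 hu
    obtain ⟨⟨p, q⟩, h7, h8⟩ := List.any_eq_true.1 h6
    rw [Bool.and_eq_true] at h8
    have e1 : p = u := Nat.eq_of_beq_eq_true h8.1
    have e2 : q = u + 1 := Nat.eq_of_beq_eq_true h8.2
    subst e1 e2
    exact ⟨by omega, h7⟩
  · intro i hi hk
    exact chkNB_sound (allB_spec h4 i hi) hk
  · intro i
    have := chkFb_sound hM F.fb 0 h5 i
    rw [Nat.zero_add] at this
    exact this

end

end Pool.Agent.Work.MP_92a29d_co_h45
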