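import Pool.Agent.Work.MP_92a29d_co_h45.Sem

/-!
The clause families and their soundness.
-/

set_option autoImplicit false

namespace Pool.Agent.Work.MP_92a29d_co_h45

variable {I : Inst} {M : Model}

theorem cHolds_cons {x : XLit} {c : List XLit} : CHolds M (x :: c) ↔ x.Holds M ∨ CHolds M c := by
  unfold CHolds
  simp

theorem cHolds_nil : ¬ CHolds M [] := by
  unfold CHolds
  simp

theorem cHolds_append {c d : List XLit} : CHolds M (c ++ d) ↔ CHolds M c ∨ CHolds M d := by
  unfold CHolds
  simp only [List.mem_append]
  constructor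
  · rintro ⟨x, hx | hx, h⟩
    · exact Or.inl ⟨x, hx, h⟩
    · exact Or.inr ⟨x, hx, h⟩
  · rintro (⟨x, hx, h⟩ | ⟨x, hx, h⟩)
    · exact ⟨x, Or.inl hx, h⟩
    · exact ⟨x, Or.inr hx, h⟩

/-- every clause of the list holds -/
def AllHold (M : Model) (l : List (List XLit)) : Prop := ∀ c ∈ l, CHolds M c

theorem allHold_nil : AllHold M [] := fun c hc => by simp at hc

theorem allHold_append {l l' : List (List XLit)} (h : AllHold M l) (h' : AllHold M l') :
    AllHold M (l ++ l') := by
  intro c hc
  rw [List.mem_append] at hc
  exact hc.elim (h c) (h' c)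

theorem allHold_cons {c : List XLit} {l : List (List XLit)} (h : CHolds M c) (h' : AllHold M l) :
    AllHold M (c :: l) := by
  intro d hd
  rw [List.mem_cons] at hd
  rcases hd with rfl | hd
  · exact h
  · exact h' d hd

theorem allHold_flatMap {α : Type*} {s : List α} {f : α → List (List XLit)}
    (h : ∀ a ∈ s, AllHold M (f a)) : AllHold M (s.flatMap f) := by
  intro c hc
  rw [List.mem_flatMap] at hc
  obtain ⟨a, ha, hc⟩ := hc
  exact h a ha c hc

theorem allHold_map {α : Type*} {s : List α} {f : α → List XLit}
    (h : ∀ a ∈ s, CHolds M (f a)) : AllHold M (s.map f) := by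
  intro c hc
  rw [List.mem_map] at hc
  obtain ⟨a, ha, rfl⟩ := hc
  exact h a ha

/-! ### order -/

/-- `label ≥ b` implies `label ≥ a` for neighbours `a < b` -/
def ordL (i u : ℕ) : List ℕ → List (List XLit)
  | a :: b :: l => [.l false (.X i u b), .l true (.X i u a)] :: ordL i u (b :: l)
  | _ => []

theorem ordL_sound (i u : ℕ) : ∀ {l : List ℕ}, l.Pairwise (· < ·) → AllHold M (ordL i u l)
  | [], _ => allHold_nil
  | [_], _ => allHold_nil
  | a :: b :: l, h => by
    rw [List.pairwise_cons] at h
    refine allHold_cons ?_ (ordL_sound i u h.2)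
    rw [cHolds_cons, cHolds_cons]
    simp only [XLit.Holds, Var.Val]
    have := h.1 b (List.mem_cons_self ..)
    omega

/-- family `ord` of a class -/
def famOrd (I : Inst) (i : ℕ) : List (List XLit) :=
  vs.flatMap fun u => ordL i u (I.levs i u).tail

theorem famOrd_sound (hw : I.wf = true) {i : ℕ} (hi : i < I.k) : AllHold M (famOrd I i) :=
  allHold_flatMap fun _ hu => ordL_sound i _ (wf_sorted hw hi (mem_vs.1 hu)).tail

/-! ### adjacency of level classes -/

/-- edge to the special vertex -/
def adj0 (I : Inst) (c : XLit) (i m w : ℕ) : List (List XLit) :=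
  match (I.levs i w).all (fun a => Nat.beq (a % 2) 1) with
  | true => [[c, (I.ge i w 3).neg]]
  | false => match (I.levs i w).all (fun a => Nat.beq (a % 2) 0) with
    | true => [[c, I.ge i w (2 * m + 2)]]
    | false => []

/-- one direction for two vertices which are not special -/
def adj1 (I : Inst) (c : XLit) (i u v : ℕ) : List (List XLit) :=
  (I.levs i u).map fun a => [c, (I.ge i v (a + 2)).neg, I.ge i u (a + 1)]

/-- the list contains `0` -/
def has0 (l : List ℕ) : Bool := l.any fun a => Nat.beq a 0

/-- adjacency clauses of a pair in a level class -/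
def adjP (I : Inst) (i m u v : ℕ) : List (List XLit) :=
  match I.e i u v with
  | .l _ _ =>
    match has0 (I.levs i u), has0 (I.levs i v) with
    | false, false => adj1 I (I.e i u v).neg i u v ++ adj1 I (I.e i u v).neg i v u
    | true, false => match (I.levs i u).all fun a => Nat.beq a 0 with
      | true => adj0 I (I.e i u v).neg i m v
      | false => []
    | false, true => match (I.levs i v).all fun a => Nat.beq a 0 with
      | true => adj0 I (I.e i u v).neg i m u
      | false => []
    | true, true => []
  | _ => []

theorem ladj_iff {m a b : ℕ} : ladj m a b = true ↔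
    (a + 1 = b ∨ b + 1 = a ∨ (a = 0 ∧ b = 2 * m + 2) ∨ (b = 0 ∧ a = 2 * m + 2)) := by
  unfold ladj
  simp only [Bool.or_eq_true, Bool.and_eq_true, beq_iff_eq]
  tauto

theorem not_has0 {l : List ℕ} (h : has0 l = false) {a : ℕ} (ha : a ∈ l) : a ≠ 0 := by
  intro h0
  unfold has0 at h
  rw [List.any_eq_false] at h
  have := h a ha
  subst h0
  exact this rfl

theorem all_zero {l : List ℕ} (h : l.all (fun a => Nat.beq a 0) = true) {a : ℕ} (ha : a ∈ l) :
    a = 0 := by
  rw [List.all_eq_true] at h
  exact Nat.eq_of_beq_eq_true (h a ha)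

theorem adj1_sound (hw : I.wf = true) (h : IsModel I M) {i m u v : ℕ} (hi : i < I.k)
    (hu : u < 17) (hv : v < 17) (c : XLit)
    (hc : ¬ c.Holds M → ladj m (M.lab i u) (M.lab i v) = true)
    (h0 : M.lab i u ≠ 0) (h1 : M.lab i v ≠ 0) : AllHold M (adj1 I c i u v) := by
  refine allHold_map fun a _ => ?_
  rw [cHolds_cons, cHolds_cons, cHolds_cons, XLit.holds_neg, ge_holds hw h hi hv,
    ge_holds hw h hi hu]
  by_cases hc' : c.Holds M
  · exact Or.inl hc'
  · have := hc hc'
    rw [ladj_iff] at this
    omega

theorem adj0_sound (hw : I.wf = true) (h : IsModel I M) {i m w : ℕ} (hi : i < I.k)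
    (hwv : w < 17) (c : XLit)
    (hc : ¬ c.Holds M → ladj m 0 (M.lab i w) = true) : AllHold M (adj0 I c i m w) := by
  unfold adj0
  rcases h1 : (I.levs i w).all (fun a => Nat.beq (a % 2) 1) with _ | _
  · rcases h2 : (I.levs i w).all (fun a => Nat.beq (a % 2) 0) with _ | _
    · exact allHold_nil
    · refine allHold_cons ?_ allHold_nil
      rw [cHolds_cons, cHolds_cons, ge_holds hw h hi hwv]
      by_cases hc' : c.Holds M
      · exact Or.inl hc'
      · have h3 := hc hc'
        rw [ladj_iff] at h3
        rw [List.all_eq_true] at h2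
        have h4 := Nat.eq_of_beq_eq_true (h2 _ (h.mem i w hi hwv))
        omega
  · refine allHold_cons ?_ allHold_nil
    rw [cHolds_cons, cHolds_cons, XLit.holds_neg, ge_holds hw h hi hwv]
    by_cases hc' : c.Holds M
    · exact Or.inl hc'
    · have h3 := hc hc'
      rw [ladj_iff] at h3
      rw [List.all_eq_true] at h1
      have h4 := Nat.eq_of_beq_eq_true (h1 _ (h.mem i w hi hwv))
      omega

theorem ladj_symm {m a b : ℕ} (h : ladj m a b = true) : ladj m b a = true := by
  rw [ladj_iff] at h ⊢
  omega

theorem adjP_sound (hw : I.wf = true) (h : IsModel I M) {i m u v : ℕ} (hi : i < I.k)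
    (hk : I.kind i = .lev m) (hu : u < 17) (hv : v < 17) : AllHold M (adjP I i m u v) := by
  have hc : ¬ ((I.e i u v).neg).Holds M → ladj m (M.lab i u) (M.lab i v) = true := by
    intro hc
    rw [XLit.holds_neg, not_not, e_holds h hu hv] at hc
    have := h.coded i u v hi hu hv hc
    rw [hk] at this
    exact this
  have hmu := h.mem i u hi hu
  have hmv := h.mem i v hi hv
  unfold adjP
  rcases h0 : I.e i u v with _ | _ | ⟨b, x⟩
  · exact allHold_nil
  · exact allHold_nil
  · rw [h0] at hc
    rcases h1 : has0 (I.levs i u) with _ | _ <;> rcases h2 : has0 (I.levs i v) with _ | _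
    · refine allHold_append ?_ ?_
      · exact adj1_sound hw h hi hu hv _ hc (not_has0 h1 hmu) (not_has0 h2 hmv)
      · exact adj1_sound hw h hi hv hu _ (fun hx => ladj_symm (hc hx)) (not_has0 h2 hmv)
          (not_has0 h1 hmu)
    · simp only
      rcases h3 : (I.levs i v).all (fun a => Nat.beq a 0) with _ | _
      · exact allHold_nil
      · have h4 := all_zero h3 hmv
        refine adj0_sound hw h hi hu _ (fun hx => ?_)
        have := hc hx
        rw [h4] at this
        exact ladj_symm this
    · simp only
      rcases h3 : (I.levs i u).all (fun a => Nat.beq a 0) with _ | _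
      · exact allHold_nil
      · have h4 := all_zero h3 hmu
        refine adj0_sound hw h hi hv _ (fun hx => ?_)
        have := hc hx
        rw [h4] at this
        exact this
    · exact allHold_nil

/-- family `adj` of a level class -/
def famAdj (I : Inst) (i m : ℕ) : List (List XLit) :=
  pairs.flatMap fun p => adjP I i m p.1 p.2

theorem famAdj_sound (hw : I.wf = true) (h : IsModel I M) {i m : ℕ} (hi : i < I.k)
    (hk : I.kind i = .lev m) : AllHold M (famAdj I i m) :=
  allHold_flatMap fun p hp => by
    have := mem_pairs hp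
    exact adjP_sound hw h hi hk (by omega) (by omega)

/-! ### covering -/

/-- every pair lies in a class -/
def famCov (I : Inst) : List (List XLit) :=
  pairs.map fun p => [I.e 0 p.1 p.2, I.e 1 p.1 p.2, I.e 2 p.1 p.2, I.e 3 p.1 p.2]

theorem famCov_sound (h : IsModel I M) : AllHold M (famCov I) :=
  allHold_map fun p hp => by
    have hp := mem_pairs hp
    have h1 : p.1 < 17 := by omega
    obtain ⟨i, hi, ha⟩ := h.cover p.1 p.2 hp.1 hp.2
    rw [cHolds_cons, cHolds_cons, cHolds_cons, cHolds_cons, e_holds h h1 hp.2, e_holds h h1 hp.2,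
      e_holds h h1 hp.2, e_holds h h1 hp.2]
    have : i = 0 ∨ i = 1 ∨ i = 2 ∨ i = 3 := by omega
    rcases this with rfl | rfl | rfl | rfl
    · exact Or.inl ha
    · exact Or.inr (Or.inl ha)
    · exact Or.inr (Or.inr (Or.inl ha))
    · exact Or.inr (Or.inr (Or.inr (Or.inl ha)))

/-! ### explicit classes -/

/-- no triangle -/
def triC (I : Inst) (i : ℕ) : List ℕ → List (List XLit)
  | [a, b, c] => [[(I.e i a b).neg, (I.e i b c).neg, (I.e i a c).neg]]
  | _ => []

/-- family `tri` -/
def famTri (I : Inst) (i : ℕ) : List (List XLit) := (combos 3 vs).flatMap (triC I i)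

theorem famTri_sound (h : IsModel I M) {i m : ℕ} (hk : I.kind i = .expl m) (hm : 1 ≤ m) :
    AllHold M (famTri I i) :=
  allHold_flatMap fun t ht => by
    obtain ⟨_, _, h3⟩ := combos_vs ht
    match t, h3 with
    | [a, b, c], h3 =>
      have ha := h3 a (by simp)
      have hb := h3 b (by simp)
      have hc := h3 c (by simp)
      refine allHold_cons ?_ allHold_nil
      rw [cHolds_cons, cHolds_cons, cHolds_cons, XLit.holds_neg, XLit.holds_neg, XLit.holds_neg,
        e_holds h ha hb, e_holds h hb hc, e_holds h ha hc]
      by_contra hcon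
      push Not at hcon
      obtain ⟨h4, h5, h6, _⟩ := hcon
      exact h.three i m hk hm a b c ha hb hc h4 h5 (h.symm i a c h6)
    | [], _ => exact allHold_nil
    | [_], _ => exact allHold_nil
    | [_, _], _ => exact allHold_nil
    | _ :: _ :: _ :: _ :: _, _ => exact allHold_nil

/-- walk variable, for any order -/
def wl (i u v : ℕ) : XLit :=
  match Nat.ble v u with
  | true => .l true (.W i v u)
  | false => .l true (.W i u v)

theorem wl_holds (h : IsModel I M) {i u v : ℕ} :
    (wl i u v).Holds M ↔ ∃ w, w < 17 ∧ M.adj i u w ∧ M.adj i w v := by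
  unfold wl
  rcases Nat.ble v u with _ | _
  · rfl
  · simp only [XLit.Holds, Var.Val]
    constructor
    · rintro ⟨w, hw, h1, h2⟩
      exact ⟨w, hw, h.symm i _ _ h2, h.symm i _ _ h1⟩
    · rintro ⟨w, hw, h1, h2⟩
      exact ⟨w, hw, h.symm i _ _ h2, h.symm i _ _ h1⟩

/-- clauses of the walk variables -/
def famWalk2 (I : Inst) (i : ℕ) : List (List XLit) :=
  pairs.flatMap fun p => (vs.flatMap fun w =>
    match Nat.beq w p.1 || Nat.beq w p.2 with
    | true => []
    | false => [[(I.e' i p.1 w).neg, (I.e' i w p.2).neg, .l true (.W i p.1 p.2)]]) ++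
      [[(I.e i p.1 p.2).neg, .l false (.W i p.1 p.2)]]

theorem famWalk2_sound (h : IsModel I M) {i m : ℕ} (hk : I.kind i = .expl m) (hm : 1 ≤ m) :
    AllHold M (famWalk2 I i) :=
  allHold_flatMap fun p hp => by
    have hp := mem_pairs hp
    have h1 : p.1 < 17 := by omega
    refine allHold_append (allHold_flatMap fun w hw => ?_) (allHold_cons ?_ allHold_nil)
    · have hw := mem_vs.1 hw
      rcases Nat.beq w p.1 || Nat.beq w p.2 with _ | _
      · refine allHold_cons ?_ allHold_nil
        rw [cHolds_cons, cHolds_cons, cHolds_cons, XLit.holds_neg, XLit.holds_neg,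
          e'_holds h h1 hw, e'_holds h hw hp.2]
        by_contra hcon
        push Not at hcon
        obtain ⟨h4, h5, h6, _⟩ := hcon
        exact h6 ⟨w, hw, h4, h5⟩
      · exact allHold_nil
    · rw [cHolds_cons, cHolds_cons, XLit.holds_neg, e_holds h h1 hp.2]
      by_contra hcon
      push Not at hcon
      obtain ⟨h4, h5, _⟩ := hcon
      simp only [XLit.Holds, not_not] at h5
      obtain ⟨w, hw, h5, h6⟩ := h5
      exact h.three i m hk hm p.1 w p.2 h1 hw hp.2 h5 h6 (h.symm i _ _ h4)

/-- pentagon clauses in terms of the walk variables -/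
def famWalk5 (I : Inst) (i : ℕ) : List (List XLit) :=
  vs.flatMap fun u => pairs.flatMap fun p =>
    match Nat.beq u p.1 || Nat.beq u p.2 with
    | true => []
    | false => [[(wl i u p.1).neg, (wl i u p.2).neg, (I.e i p.1 p.2).neg]]

theorem famWalk5_sound (h : IsModel I M) {i m : ℕ} (hk : I.kind i = .expl m) (hm : 2 ≤ m) :
    AllHold M (famWalk5 I i) :=
  allHold_flatMap fun u hu => allHold_flatMap fun p hp => by
    have hu := mem_vs.1 hu
    have hp := mem_pairs hp
    have h1 : p.1 < 17 := by omega
    rcases Nat.beq u p.1 || Nat.beq u p.2 with _ | _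
    · refine allHold_cons ?_ allHold_nil
      rw [cHolds_cons, cHolds_cons, cHolds_cons, XLit.holds_neg, XLit.holds_neg, XLit.holds_neg,
        wl_holds h, wl_holds h, e_holds h h1 hp.2]
      by_contra hcon
      push Not at hcon
      obtain ⟨⟨w, hw, h4, h5⟩, ⟨z, hz, h6, h7⟩, h8, _⟩ := hcon
      exact h.penta i m hk hm u w p.1 p.2 z hu hw h1 hp.2 hz h4 h5 h8 (h.symm i _ _ h7)
        (h.symm i _ _ h6)
    · exact allHold_nil

/-! ### exact labels -/

/-- membership -/
def memb (a : ℕ) (l : List ℕ) : Bool := l.any fun b => Nat.beq a b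

theorem memb_iff {a : ℕ} {l : List ℕ} : memb a l = true ↔ a ∈ l := by
  unfold memb
  rw [List.any_eq_true]
  constructor
  · rintro ⟨b, hb, h⟩
    rw [Nat.eq_of_beq_eq_true h]; exact hb
  · intro h
    exact ⟨a, h, Nat.beq_refl a⟩

/-- the literal `label of u in class i = a` -/
def Inst.ex (I : Inst) (i u a : ℕ) : XLit :=
  match memb a (I.levs i u) with
  | false => .F
  | true => match I.kind i with
    | .lev _ => match I.ge i u (a + 1) with
      | .F => I.ge i u a
      | .T => .F
      | .l b x => match I.ge i u a with
        | .T => (XLit.l b x).neg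
        | _ => .l true (.A i u a)
    | _ => match I.levs i u with
      | [_] => .T
      | _ => .l true (.A i u a)

theorem ex_holds (hw : I.wf = true) (h : IsModel I M) {i u : ℕ} (hi : i < I.k) (hu : u < 17)
    (a : ℕ) : (I.ex i u a).Holds M ↔ M.lab i u = a := by
  have hm := h.mem i u hi hu
  have hA := ge_holds hw h hi hu a
  have hB := ge_holds hw h hi hu (a + 1)
  have hX : (XLit.l true (.A i u a)).Holds M ↔ M.lab i u = a := Iff.rfl
  unfold Inst.ex
  rcases h1 : memb a (I.levs i u) with _ | _
  · simp only [XLit.Holds, false_iff]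
    intro h2
    rw [← h2] at h1
    rw [memb_iff.2 hm] at h1
    exact Bool.noConfusion h1
  · simp only
    have aux : (match I.levs i u with
      | [_] => XLit.T
      | _ => .l true (.A i u a)).Holds M ↔ M.lab i u = a := by
      rcases h2 : I.levs i u with _ | ⟨b, _ | ⟨c, l⟩⟩
      · exact hX
      · simp only [XLit.Holds, true_iff]
        rw [h2] at hm h1
        rw [memb_iff] at h1
        simp only [List.mem_singleton] at hm h1
        rw [hm, h1]
      · exact hX
    rcases I.kind i with m | nb | m
    · simp only
      rcases h3 : I.ge i u (a + 1) with _ | _ | ⟨b, x⟩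
      · rw [h3] at hB
        simp only [XLit.Holds, true_iff] at hB
        simp only [XLit.Holds, false_iff]
        omega
      · simp only
        rw [h3] at hB
        simp only [XLit.Holds, false_iff] at hB
        rw [hA]
        omega
      · simp only
        rw [h3] at hB
        rcases h4 : I.ge i u a with _ | _ | ⟨b', x'⟩
        · simp only
          rw [h4] at hA
          simp only [XLit.Holds, true_iff] at hA
          rw [XLit.holds_neg, hB]
          omega
        · exact hX
        · exact hX
    · exact aux
    · exact aux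

/-- definition of the variables `A` of the level classes -/
def exDef (I : Inst) (i u a : ℕ) : List (List XLit) :=
  match I.ex i u a with
  | .l true (.A _ _ _) => match I.kind i with
    | .lev _ => [[(I.ex i u a).neg, I.ge i u a], [(I.ex i u a).neg, (I.ge i u (a + 1)).neg]]
    | _ => []
  | _ => []

theorem exDef_sound (hw : I.wf = true) (h : IsModel I M) {i u : ℕ} (hi : i < I.k) (hu : u < 17)
    (a : ℕ) : AllHold M (exDef I i u a) := by
  have hA := ge_holds hw h hi hu a
  have hB := ge_holds hw h hi hu (a + 1)
  have hX := ex_holds hw h hi hu a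
  unfold exDef
  split
  · split
    · refine allHold_cons ?_ (allHold_cons ?_ allHold_nil)
      · rw [cHolds_cons, cHolds_cons, XLit.holds_neg, hA, hX]
        omega
      · rw [cHolds_cons, cHolds_cons, XLit.holds_neg, XLit.holds_neg, hB, hX]
        omega
    · exact allHold_nil
  · exact allHold_nil

/-- family `ne`: the label is taken -/
def famNe (I : Inst) (q : ℕ × ℕ) : List (List XLit) :=
  (vs.flatMap fun u => exDef I q.1 u q.2) ++ [vs.map fun u => I.ex q.1 u q.2]

theorem famNe_sound (hw : I.wf = true) (h : IsModel I M) {q : ℕ × ℕ} (hq : q ∈ I.ne)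
    (hi : q.1 < I.k) : AllHold M (famNe I q) := by
  refine allHold_append (allHold_flatMap fun u hu => exDef_sound hw h hi (mem_vs.1 hu) _)
    (allHold_cons ?_ allHold_nil)
  obtain ⟨u, hu, h1⟩ := h.ne q.1 q.2 hq
  exact ⟨_, List.mem_map.2 ⟨u, mem_vs.2 hu, rfl⟩, (ex_holds hw h hi hu _).2 h1⟩

/-- the label is not `a` -/
def notEx (I : Inst) (i u a : ℕ) : List XLit :=
  match I.kind i with
  | .lev _ => [(I.ge i u a).neg, I.ge i u (a + 1)]
  | _ => [(I.ex i u a).neg]

theorem notEx_holds (hw : I.wf = true) (h : IsModel I M) {i u : ℕ} (hi : i < I.k) (hu : u < 17)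
    (a : ℕ) : CHolds M (notEx I i u a) ↔ M.lab i u ≠ a := by
  unfold notEx
  split
  · rw [cHolds_cons, cHolds_cons, XLit.holds_neg, ge_holds hw h hi hu, ge_holds hw h hi hu]
    constructor
    · rintro (h1 | h1 | h1)
      · omega
      · omega
      · exact absurd h1 cHolds_nil
    · intro h1
      omega
  · rw [cHolds_cons, XLit.holds_neg, ex_holds hw h hi hu]
    constructor
    · rintro (h1 | h1)
      · exact h1
      · exact absurd h1 cHolds_nil
    · exact fun h1 => Or.inl h1

theorem cHolds_flatMap {α : Type*} {s : List α} {f : α → List XLit} :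
    CHolds M (s.flatMap f) ↔ ∃ a ∈ s, CHolds M (f a) := by
  unfold CHolds
  constructor
  · rintro ⟨x, hx, h⟩
    rw [List.mem_flatMap] at hx
    obtain ⟨a, ha, hx⟩ := hx
    exact ⟨a, ha, x, hx, h⟩
  · rintro ⟨a, ha, x, hx, h⟩
    exact ⟨x, List.mem_flatMap.2 ⟨a, ha, hx⟩, h⟩

/-- family `size` -/
def famSize (I : Inst) (q : ℕ × ℕ × ℕ) : List (List XLit) :=
  (combos (q.2.2 + 1) (vs.filter fun u => memb q.2.1 (I.levs q.1 u))).map fun t =>
    t.flatMap fun u => notEx I q.1 u q.2.1

theorem famSize_sound (hw : I.wf = true) (h : IsModel I M) {q : ℕ × ℕ × ℕ} (hq : q ∈ I.size)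
    (hi : q.1 < I.k) : AllHold M (famSize I q) :=
  allHold_map fun t ht => by
    obtain ⟨h1, h2⟩ := combos_sub ht
    have h3 : t.Nodup := ((vs_sorted.sublist List.filter_sublist).sublist h1).imp (fun h => h.ne)
    have h4 : ∀ u ∈ t, u < 17 := fun u hu => mem_vs.1 (List.mem_filter.1 (h1.subset hu)).1
    obtain ⟨u, hu, h5⟩ := h.size q.1 q.2.1 q.2.2 hq t h3 h2 h4
    rw [cHolds_flatMap]
    exact ⟨u, hu, (notEx_holds hw h hi (h4 u hu) _).2 h5⟩

/-! ### lexicographic order -/

/-- lexicographic clauses of a pair -/
def lexAux (I : Inst) (u v : ℕ) : List ℕ → List XLit → List (List XLit)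
  | [], _ => []
  | i :: is, pre => match I.kind i with
    | .lev _ =>
      ((I.levs i u).tail.map fun a => pre ++ [(I.ge i u a).neg, I.ge i v a]) ++
      match is with
      | [] => []
      | _ :: _ =>
        ((I.levs i u).tail.flatMap fun a =>
          [[.l false (.D i u v a), I.ge i v a], [.l false (.D i u v a), (I.ge i u a).neg]]) ++
        (pre ++ .l true (.Q i u v) :: ((I.levs i u).tail.map fun a => .l true (.D i u v a))) ::
        lexAux I u v is [.l false (.Q i u v)]
    | .tgt _ => (combos 2 (I.levs i u)).flatMap fun t => match t with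
      | [b, a] => [pre ++ [(I.ex i u a).neg, (I.ex i v b).neg]]
      | _ => []
    | .expl _ => []

theorem lexAux_sound (hw : I.wf = true) (h : IsModel I M) {u v : ℕ} (hl : (u, v) ∈ I.lex) :
    ∀ (n i : ℕ) (pre : List XLit), i + n = I.k →
      (¬ CHolds M pre → ∀ j, j < i → M.lab j u = M.lab j v) →
      AllHold M (lexAux I u v (List.range' i n) pre) := by
  intro n
  induction n with
  | zero => intro i pre _ _; exact allHold_nil
  | succ n ih =>
    intro i pre hin hpre
    obtain ⟨hu, hv⟩ := h.lex_lt u v hl
    have hi : i < I.k := by omega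
    have hle : ¬ CHolds M pre → M.lab i u ≤ M.lab i v := fun hp => h.lex u v hl i hi (hpre hp)
    rw [List.range'_succ]
    unfold lexAux
    have hlev := wf_lex hw hi hl
    have hs := wf_sorted hw hi hu
    have hmu := h.mem i u hi hu
    have hmv := h.mem i v hi hv
    rcases I.kind i with m | nb | m
    · simp only
      refine allHold_append (allHold_map fun a _ => ?_) ?_
      · rw [cHolds_append]
        by_cases hp : CHolds M pre
        · exact Or.inl hp
        · right
          rw [cHolds_cons, cHolds_cons, XLit.holds_neg, ge_holds hw h hi hu, ge_holds hw h hi hv]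
          have := hle hp
          omega
      · have ih' := ih (i + 1) [.l false (.Q i u v)] (by omega)
        rcases h0 : List.range' (i + 1) n with _ | ⟨x, is⟩
        · exact allHold_nil
        · rw [h0] at ih'
          refine allHold_append (allHold_flatMap fun a _ => ?_) (allHold_cons ?_ ?_)
          · refine allHold_cons ?_ (allHold_cons ?_ allHold_nil)
            · rw [cHolds_cons, cHolds_cons, ge_holds hw h hi hv]
              simp only [XLit.Holds, Var.Val]
              tauto
            · rw [cHolds_cons, cHolds_cons, XLit.holds_neg, ge_holds hw h hi hu]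
              simp only [XLit.Holds, Var.Val]
              tauto
          · rw [cHolds_append]
            by_cases hp : CHolds M pre
            · exact Or.inl hp
            · right
              rw [cHolds_cons]
              by_cases he : M.lab i u = M.lab i v
              · left
                intro j hj
                rcases Nat.lt_or_ge j i with h1 | h1
                · exact hpre hp j h1
                · rw [Nat.le_antisymm hj h1]; exact he
              · right
                have h1 := hle hp
                have h2 : M.lab i u < M.lab i v := by omega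
                refine ⟨.l true (.D i u v (M.lab i v)), List.mem_map.2 ⟨M.lab i v, ?_, rfl⟩, ?_⟩
                · rw [← hlev] at hmv
                  rcases h3 : I.levs i u with _ | ⟨b, l⟩
                  · rw [h3] at hmv; simp at hmv
                  · rw [h3, List.pairwise_cons] at hs
                    rw [h3, List.mem_cons] at hmv hmu
                    rcases hmv with h4 | h4
                    · exfalso
                      rcases hmu with h5 | h5
                      · omega
                      · have := hs.1 _ h5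
                        omega
                    · exact h4
                · simp only [XLit.Holds, Var.Val]
                  omega
          · refine ih' (fun hq j hj => ?_)
            rw [cHolds_cons] at hq
            push Not at hq
            have h1 := hq.1
            simp only [XLit.Holds, Var.Val, not_not] at h1
            exact h1 j (by omega)
    · simp only
      refine allHold_flatMap fun t ht => ?_
      obtain ⟨h1, h2⟩ := combos_sub ht
      match t, h1, h2 with
      | [b, a], h1, _ =>
        have h3 := hs.sublist h1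
        rw [List.pairwise_cons] at h3
        have h4 : b < a := h3.1 a (List.mem_singleton.2 rfl)
        refine allHold_cons ?_ allHold_nil
        rw [cHolds_append]
        by_cases hp : CHolds M pre
        · exact Or.inl hp
        · right
          rw [cHolds_cons, cHolds_cons, XLit.holds_neg, XLit.holds_neg, ex_holds hw h hi hu,
            ex_holds hw h hi hv]
          have := hle hp
          omega
      | [], _, h2 => simp at h2
      | [_], _, h2 => simp at h2
      | _ :: _ :: _ :: _, _, h2 => simp at h2
    · exact allHold_nil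

/-- family `lex` -/
def famLex (I : Inst) : List (List XLit) :=
  I.lex.flatMap fun p => lexAux I p.1 p.2 (List.range' 0 I.k) []

theorem famLex_sound (hw : I.wf = true) (h : IsModel I M) : AllHold M (famLex I) :=
  allHold_flatMap fun _ hp => lexAux_sound hw h hp I.k 0 [] (by omega)
    (fun _ j hj => absurd hj (Nat.not_lt_zero j))

/-! ### five-sets -/

/-- the pairs inside a list, in order -/
def pairsIn : List ℕ → List (ℕ × ℕ)
  | [] => []
  | a :: l => l.map (fun b => (a, b)) ++ pairsIn l

theorem mem_pairsIn : ∀ {t : List ℕ}, t.Pairwise (· < ·) → ∀ {u v : ℕ}, u ∈ t → v ∈ t → u < v →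
    (u, v) ∈ pairsIn t
  | [], _, u, v, hu, _, _ => by simp at hu
  | a :: l, ht, u, v, hu, hv, huv => by
    rw [List.pairwise_cons] at ht
    rw [List.mem_cons] at hu hv
    rw [pairsIn, List.mem_append]
    rcases hu with rfl | hu
    · left
      rw [List.mem_map]
      rcases hv with rfl | hv
      · omega
      · exact ⟨v, hv, rfl⟩
    · right
      rcases hv with rfl | hv
      · have := ht.1 u hu
        omega
      · exact mem_pairsIn ht.2 hu hv huv

/-- family `five` -/
def famFive (I : Inst) (q : ℕ × ℕ) : List (List XLit) :=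
  (combos 5 vs).map fun t => ((pairsIn t).map fun p => I.e q.1 p.1 p.2) ++
    (pairsIn t).map fun p => I.e q.2 p.1 p.2

theorem famFive_sound (h : IsModel I M) {q : ℕ × ℕ} (hq : q ∈ I.five) :
    AllHold M (famFive I q) :=
  allHold_map fun t ht => by
    obtain ⟨h1, h2, h3⟩ := combos_vs ht
    obtain ⟨u, hu, v, hv, huv, h4⟩ := h.five q.1 q.2 hq t (h1.imp (fun h => h.ne)) h2 h3
    have h5 := mem_pairsIn h1 hu hv huv
    rw [cHolds_append]
    rcases h4 with h4 | h4
    · left
      exact ⟨_, List.mem_map.2 ⟨_, h5, rfl⟩, (e_holds h (h3 u hu) (h3 v hv)).2 h4⟩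
    · right
      exact ⟨_, List.mem_map.2 ⟨_, h5, rfl⟩, (e_holds h (h3 u hu) (h3 v hv)).2 h4⟩

/-! ### forbidden labels -/

/-- family `forbid` -/
def famForbid (I : Inst) : List (List XLit) :=
  I.forbid.map fun q => notEx I q.1 q.2.1 q.2.2

/-! ### classes contained in a fixed graph -/

/-- at least and at most one label -/
def famLab (I : Inst) (i : ℕ) : List (List XLit) :=
  vs.flatMap fun u => ((I.levs i u).map fun a => I.ex i u a) ::
    (combos 2 (I.levs i u)).flatMap fun t => match t with
      | [a, b] => [[(I.ex i u a).neg, (I.ex i u b).neg]]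
      | _ => []

theorem famLab_sound (hw : I.wf = true) (h : IsModel I M) {i : ℕ} (hi : i < I.k) :
    AllHold M (famLab I i) :=
  allHold_flatMap fun u hu => by
    have hu := mem_vs.1 hu
    refine allHold_cons ⟨_, List.mem_map.2 ⟨_, h.mem i u hi hu, rfl⟩,
      (ex_holds hw h hi hu _).2 rfl⟩ (allHold_flatMap fun t ht => ?_)
    obtain ⟨h1, h2⟩ := combos_sub ht
    match t, h1, h2 with
    | [b, a], h1, _ =>
      have h3 := (wf_sorted hw hi hu).sublist h1
      rw [List.pairwise_cons] at h3
      have h4 : b < a := h3.1 a (List.mem_singleton.2 rfl)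
      refine allHold_cons ?_ allHold_nil
      rw [cHolds_cons, cHolds_cons, XLit.holds_neg, XLit.holds_neg, ex_holds hw h hi hu,
        ex_holds hw h hi hu]
      omega
    | [], _, h2 => simp at h2
    | [_], _, h2 => simp at h2
    | _ :: _ :: _ :: _, _, h2 => simp at h2

/-- one direction of an edge -/
def adjT1 (I : Inst) (c : XLit) (i u v : ℕ) : List (List XLit) :=
  (I.levs i u).map fun a => c :: (I.ex i u a).neg ::
    ((I.levs i v).flatMap fun b => match kadj (I.kind i) a b with
      | true => [I.ex i v b]
      | false => [])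

theorem adjT1_sound (hw : I.wf = true) (h : IsModel I M) {i u v : ℕ} (hi : i < I.k)
    (hu : u < 17) (hv : v < 17) (c : XLit) (hc : ¬ c.Holds M → M.adj i u v) :
    AllHold M (adjT1 I c i u v) :=
  allHold_map fun a _ => by
    rw [cHolds_cons, cHolds_cons, XLit.holds_neg, ex_holds hw h hi hu]
    by_cases hc' : c.Holds M
    · exact Or.inl hc'
    right
    by_cases h1 : M.lab i u = a
    · right
      rw [cHolds_flatMap]
      have h2 := h.coded i u v hi hu hv (hc hc')
      rw [h1] at h2
      refine ⟨M.lab i v, h.mem i v hi hv, ?_⟩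
      rw [h2]
      rw [cHolds_cons]
      exact Or.inl ((ex_holds hw h hi hv _).2 rfl)
    · exact Or.inl h1

/-- family `adj` of a class contained in a fixed graph -/
def famAdjT (I : Inst) (i : ℕ) : List (List XLit) :=
  pairs.flatMap fun p => match I.e i p.1 p.2 with
    | .l _ _ => adjT1 I (I.e i p.1 p.2).neg i p.1 p.2 ++ adjT1 I (I.e i p.1 p.2).neg i p.2 p.1
    | _ => []

theorem famAdjT_sound (hw : I.wf = true) (h : IsModel I M) {i : ℕ} (hi : i < I.k) :
    AllHold M (famAdjT I i) :=
  allHold_flatMap fun p hp => by
    have hp := mem_pairs hp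
    have h1 : p.1 < 17 := by omega
    have hc : ¬ ((I.e i p.1 p.2).neg).Holds M → M.adj i p.1 p.2 := by
      intro hc
      rwa [XLit.holds_neg, not_not, e_holds h h1 hp.2] at hc
    rcases h0 : I.e i p.1 p.2 with _ | _ | ⟨b, x⟩
    · exact allHold_nil
    · exact allHold_nil
    · rw [h0] at hc
      exact allHold_append (adjT1_sound hw h hi h1 hp.2 _ hc)
        (adjT1_sound hw h hi hp.2 h1 _ (fun hx => h.symm i _ _ (hc hx)))

/-! ### all clauses -/

/-- the clauses of one class -/
def famClass (I : Inst) (i : ℕ) : List (List XLit) :=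
  match I.kind i with
  | .lev m => match Nat.ble I.k i with
    | true => []
    | false => famOrd I i ++ famAdj I i m
  | .tgt _ => match Nat.ble I.k i with
    | true => []
    | false => famLab I i ++ famAdjT I i
  | .expl 0 => []
  | .expl 1 => famTri I i
  | .expl (_ + 2) => famWalk2 I i ++ famWalk5 I i

theorem famClass_sound (hw : I.wf = true) (h : IsModel I M) (i : ℕ) :
    AllHold M (famClass I i) := by
  have aux : Nat.ble I.k i = false → i < I.k := by
    intro hb
    by_contra hcon
    rw [Nat.ble_eq_true_of_le (by omega)] at hb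
    exact Bool.noConfusion hb
  unfold famClass
  rcases hk : I.kind i with m | nb | m
  · rcases hb : Nat.ble I.k i with _ | _
    · exact allHold_append (famOrd_sound hw (aux hb)) (famAdj_sound hw h (aux hb) hk)
    · exact allHold_nil
  · rcases hb : Nat.ble I.k i with _ | _
    · exact allHold_append (famLab_sound hw h (aux hb)) (famAdjT_sound hw h (aux hb))
    · exact allHold_nil
  · rcases m with _ | _ | m
    · exact allHold_nil
    · exact famTri_sound h hk le_rfl
    · exact allHold_append (famWalk2_sound h hk (by omega)) (famWalk5_sound h hk (by omega))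

/-- the indices in `ne`, `size`, `forbid` belong to coded classes -/
def Inst.wf2 (I : Inst) : Bool :=
  I.ne.all (fun q => decide (q.1 < I.k)) && I.size.all (fun q => decide (q.1 < I.k)) &&
    I.forbid.all (fun q => decide (q.1 < I.k ∧ q.2.1 < 17))

/-- all clauses with constants -/
def rawGen (I : Inst) : List (List XLit) :=
  famClass I 0 ++ (famClass I 1 ++ (famClass I 2 ++ (famClass I 3 ++ (famCov I ++
    (I.ne.flatMap (famNe I) ++ (I.size.flatMap (famSize I) ++ (famLex I ++
      (I.five.flatMap (famFive I) ++ famForbid I))))))))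

theorem rawGen_sound (hw : I.wf = true) (hw2 : I.wf2 = true) (h : IsModel I M) :
    AllHold M (rawGen I) := by
  unfold Inst.wf2 at hw2
  rw [Bool.and_eq_true, Bool.and_eq_true, List.all_eq_true, List.all_eq_true,
    List.all_eq_true] at hw2
  unfold rawGen
  refine allHold_append (famClass_sound hw h 0) (allHold_append (famClass_sound hw h 1)
    (allHold_append (famClass_sound hw h 2) (allHold_append (famClass_sound hw h 3)
    (allHold_append (famCov_sound h) (allHold_append ?_ (allHold_append ?_
    (allHold_append (famLex_sound hw h) (allHold_append ?_ ?_))))))))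
  · exact allHold_flatMap fun q hq => famNe_sound hw h hq (of_decide_eq_true (hw2.1.1 q hq))
  · exact allHold_flatMap fun q hq => famSize_sound hw h hq (of_decide_eq_true (hw2.1.2 q hq))
  · exact allHold_flatMap fun q hq => famFive_sound h hq
  · exact allHold_map fun q hq => by
      have h1 := of_decide_eq_true (hw2.2 q hq)
      exact (notEx_holds hw h h1.1 h1.2 _).2 (h.forbid _ _ _ hq)

/-- the clauses of an instance -/
def gen (I : Inst) : List (List (Bool × Var)) := (rawGen I).filterMap norm

/-- SOUNDNESS: every clause of the instance is true in every model. -/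
theorem gen_sound (hw : I.wf = true) (hw2 : I.wf2 = true) (h : IsModel I M) :
    ∀ c ∈ gen I, ∃ x ∈ c, LHolds M x := by
  intro c hc
  unfold gen at hc
  rw [List.mem_filterMap] at hc
  obtain ⟨d, hd, hdc⟩ := hc
  exact norm_sound hdc (rawGen_sound hw hw2 h d hd)

end Pool.Agent.Work.MP_92a29d_co_h45
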