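import Pool.Agent.Work.MP_92a29d_co_h45.Words3

/-!
Building the tables of a job: constants of the instance, cube literals, local variables, aliases.
-/

set_option autoImplicit false

namespace Pool.Agent.Work.MP_92a29d_co_h45

/-- force the evaluation of a number -/
def frc {α : Type} (n : ℕ) (k : ℕ → α) : α :=
  Nat.rec (motive := fun _ => α) (k 0) (fun m _ => k (Nat.succ m)) n

theorem frc_eq {α : Type} (n : ℕ) (k : ℕ → α) : frc n k = k n := by
  cases n <;> rfl

/-- insert `len` local variables with numbers `n, n + 1, …`; `S` lists the indices (10 bits) -/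
def insL (B K len : ℕ) : ℕ → ℕ → ℕ → ℕ :=
  Nat.rec (motive := fun _ => ℕ → ℕ → ℕ → ℕ) (fun _ _ T => T)
    (fun _ ih n S T => frc (set22 T (Nat.mod S 1024) (locC B K n)) fun T' =>
      frc (Nat.succ n) fun n' => frc (Nat.shiftRight S 10) fun S' => ih n' S' T') len

theorem insL_succ (B K len n S T : ℕ) : insL B K (len + 1) n S T =
    insL B K len (n + 1) (S >>> 10) (set22 T (S % 1024) (locC B K n)) := by
  have h : insL B K (len + 1) n S T = frc (set22 T (Nat.mod S 1024) (locC B K n)) (fun T' =>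
      frc (Nat.succ n) fun n' => frc (Nat.shiftRight S 10) fun S' => insL B K len n' S' T') := rfl
  rw [h, frc_eq, frc_eq, frc_eq]
  rfl

/-- the `j`-th index of a list -/
def sidx (S j : ℕ) : ℕ := (S >>> (10 * j)) % 1024

variable {I : Inst} {M : Model} {B K : ℕ} {τ : ℕ → Prop}

theorem insL_sound {val : ℕ → Prop} (hK : K < 4096) : ∀ (len n S T : ℕ),
    2 * (B + (n + len)) ≤ K + 1 → TOK B K τ T val →
    (∀ j, j < len → (τ (n + j) ↔ val (sidx S j))) → TOK B K τ (insL B K len n S T) val := by
  intro len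
  induction len with
  | zero => intro n S T _ h _; exact h
  | succ len ih =>
    intro n S T hb h hτ
    rw [insL_succ]
    refine ih (n + 1) (S >>> 10) _ (by omega) (h.setLoc hK (by omega) ?_) (fun j hj => ?_)
    · have := hτ 0 (by omega)
      rw [Nat.add_zero] at this
      rw [this]
      unfold sidx
      simp
    · have := hτ (j + 1) (by omega)
      have e1 : n + 1 + j = n + (j + 1) := by ring
      have e2 : sidx (S >>> 10) j = sidx S (j + 1) := by
        unfold sidx
        rw [← Nat.shiftRight_add]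
        congr 2
        ring
      rw [e1, e2]
      exact this

/-- insert local variables in a list of tables -/
def insTs (B K : ℕ) : List ℕ → List (ℕ × ℕ) → ℕ → (List ℕ → ℕ → Bool) → Bool
  | [], _, n, k => k [] n
  | T :: Ts, [], n, k => k (T :: Ts) n
  | T :: Ts, l :: L, n, k => frc (insL B K l.1 n l.2 T) fun T' =>
      frc (Nat.add n l.1) fun n' => insTs B K Ts L n' fun Ts' m => k (T' :: Ts') m

/-- number of inserted variables -/
def cnt : List ℕ → List (ℕ × ℕ) → ℕ
  | [], _ => 0
  | _ :: _, [] => 0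
  | _ :: Ts, l :: L => l.1 + cnt Ts L

/-- value of the inserted variables; `V i` is the value function of the `i`-th table -/
def lval (V : ℕ → ℕ → Prop) : List ℕ → List (ℕ × ℕ) → ℕ → ℕ → Prop
  | [], _, _, _ => True
  | _ :: _, [], _, _ => True
  | _ :: Ts, l :: L, i, j => if j < l.1 then V i (sidx l.2 j) else lval V Ts L (i + 1) (j - l.1)

theorem insTs_sound (hK : K < 4096) {V : ℕ → ℕ → Prop} : ∀ (Ts : List ℕ) (L : List (ℕ × ℕ))
    (i n : ℕ) (k : List ℕ → ℕ → Bool), 2 * (B + (n + cnt Ts L)) ≤ K + 1 →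
    (∀ j, TOK B K τ (Ts.getD j 0) (V (i + j))) →
    (∀ j, j < cnt Ts L → (τ (n + j) ↔ lval V Ts L i j)) →
    insTs B K Ts L n k = true →
    ∃ Ts', (∀ j, TOK B K τ (Ts'.getD j 0) (V (i + j))) ∧ k Ts' (n + cnt Ts L) = true := by
  intro Ts
  induction Ts with
  | nil =>
    intro L i n k _ h _ hk
    exact ⟨[], h, hk⟩
  | cons T Ts ih =>
    intro L i n k hb h hτ hk
    cases L with
    | nil => exact ⟨T :: Ts, h, hk⟩
    | cons l L =>
      have hk : frc (insL B K l.1 n l.2 T) (fun T' =>
        frc (Nat.add n l.1) fun n' => insTs B K Ts L n' fun Ts' m => k (T' :: Ts') m) = true := hk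
      rw [frc_eq, frc_eq] at hk
      have hc : cnt (T :: Ts) (l :: L) = l.1 + cnt Ts L := rfl
      rw [hc] at hb hτ
      have hT : TOK B K τ (insL B K l.1 n l.2 T) (V i) := by
        refine insL_sound hK l.1 n l.2 T (by omega) (h 0) (fun j hj => ?_)
        have := hτ j (by omega)
        rw [this]
        change (if j < l.1 then V i (sidx l.2 j) else lval V Ts L (i + 1) (j - l.1)) ↔ _
        rw [if_pos hj]
      obtain ⟨Ts', h1, h2⟩ := ih L (i + 1) (n + l.1) (fun Ts' m => k (insL B K l.1 n l.2 T :: Ts') m)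
        (by omega) (fun j => by
          have := h (j + 1)
          have e : i + 1 + j = i + (j + 1) := by ring
          rw [e]
          exact this) (fun j hj => by
          have := hτ (l.1 + j) (by omega)
          have e : n + l.1 + j = n + (l.1 + j) := by ring
          rw [e, this]
          change (if l.1 + j < l.1 then V i (sidx l.2 (l.1 + j)) else
            lval V Ts L (i + 1) (l.1 + j - l.1)) ↔ _
          rw [if_neg (by omega), Nat.add_sub_cancel_left]) hk
      refine ⟨insL B K l.1 n l.2 T :: Ts', ?_, ?_⟩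
      · intro j
        cases j with
        | zero => exact hT
        | succ j =>
          have := h1 j
          have e : i + 1 + j = i + (j + 1) := by ring
          rw [e] at this
          exact this
      · rw [hc, ← Nat.add_assoc]
        exact h2

/-! ### cube literals -/

/-- index of a variable in its table -/
def vidx : Var → ℕ
  | .X _ u a => ix u a
  | .E _ u v => Nat.add (Nat.mul 17 v) u
  | .W _ u v => Nat.add (Nat.mul 17 v) u
  | .A _ u a => ix u a
  | .D _ u _ a => ix u a
  | .Q _ u _ => u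

/-- stored value of a known variable -/
def kc (B : ℕ) (b : Bool) : ℕ := Bool.rec (motive := fun _ => ℕ) B (Nat.shiftLeft B 12) b

/-- replace the `i`-th table -/
def upd (Ts : List ℕ) (i k c : ℕ) : List ℕ := Ts.set i (set22 (Ts.getD i 0) k c)

/-- the literal is well formed -/
def litOK : Var → Bool
  | .X _ _ a => Nat.blt a 32
  | .E _ u v => Nat.blt u 17 && Nat.blt v 17
  | .W _ u v => Nat.blt u 17 && Nat.blt v 17
  | .A _ _ a => Nat.blt a 32
  | .D _ u v a => Nat.blt a 32 && Nat.beq v (Nat.succ u)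
  | .Q _ u v => Nat.beq v (Nat.succ u)

/-- insert a literal which is known to be true -/
def insA (B : ℕ) (t : Tab) (l : Bool × Var) : Tab :=
  match litOK l.2 with
  | false => t
  | true => match l.2 with
    | .X i _ _ => { t with x := upd t.x i (vidx l.2) (kc B l.1) }
    | .E i _ _ => { t with e := upd t.e i (vidx l.2) (kc B l.1) }
    | .W i _ _ => { t with w := upd t.w i (vidx l.2) (kc B l.1) }
    | .A i _ _ => { t with a := upd t.a i (vidx l.2) (kc B l.1) }
    | .D i _ _ _ => { t with d := upd t.d i (vidx l.2) (kc B l.1) }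
    | .Q i _ _ => { t with q := upd t.q i (vidx l.2) (kc B l.1) }

theorem upd_sound {Ts : List ℕ} {V : ℕ → ℕ → Prop} (hB : B < 4096) (h0 : Zer B K τ)
    (h : ∀ i, TOK B K τ (Ts.getD i 0) (V i)) {i k : ℕ} {b : Bool}
    (hv : if b then V i k else ¬ V i k) :
    ∀ j, TOK B K τ ((upd Ts i k (kc B b)).getD j 0) (V j) := by
  intro j
  unfold upd
  by_cases hi : i < Ts.length
  · by_cases hj : j = i
    · subst hj
      have : (Ts.set j (set22 (Ts.getD j 0) k (kc B b))).getD j 0 =
          set22 (Ts.getD j 0) k (kc B b) := by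
        rw [List.getD_eq_getElem?_getD, List.getElem?_set_self hi]
        rfl
      rw [this]
      cases b
      · exact (h j).setFalse hB h0 (by simpa using hv)
      · exact (h j).setTrue hB h0 (by simpa using hv)
    · have : (Ts.set i (set22 (Ts.getD i 0) k (kc B b))).getD j 0 = Ts.getD j 0 := by
        rw [List.getD_eq_getElem?_getD, List.getElem?_set_ne (fun h => hj h.symm),
          ← List.getD_eq_getElem?_getD]
      rw [this]
      exact h j
  · rw [List.set_eq_of_length_le (by omega)]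
    exact h j

theorem insA_sound (hM : IsModel I M) (hB : B < 4096) (h0 : Zer B K τ) {t : Tab}
    (ht : TabOK M B K τ t) {l : Bool × Var} (hl : LHolds M l) : TabOK M B K τ (insA B t l) := by
  obtain ⟨b, v⟩ := l
  have hl' : if b then v.Val M else ¬ v.Val M := by
    cases b
    · simpa [LHolds, XLit.Holds] using hl
    · simpa [LHolds, XLit.Holds] using hl
  unfold insA
  rcases hok : litOK v with _ | _
  · exact ht
  · cases v with
    | X i u a =>
      have ha : a < 32 := Nat.le_of_ble_eq_true hok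
      refine ⟨ht.e, ht.w, upd_sound hB h0 ht.x ?_, ht.a, ht.d, ht.q⟩
      have : vX M i (32 * u + a) ↔ a ≤ M.lab i u := vX_mk ha
      change if b then vX M i (32 * u + a) else ¬ vX M i (32 * u + a)
      rw [this]
      exact hl'
    | E i u v =>
      have hok : (Nat.blt u 17 && Nat.blt v 17) = true := hok
      rw [Bool.and_eq_true] at hok
      have hu : u < 17 := Nat.le_of_ble_eq_true hok.1
      refine ⟨upd_sound hB h0 ht.e ?_, ht.w, ht.x, ht.a, ht.d, ht.q⟩
      have : vE M i (17 * v + u) ↔ M.adj i u v :=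
        (vE_mk hu).trans ⟨hM.symm _ _ _, hM.symm _ _ _⟩
      change if b then vE M i (17 * v + u) else ¬ vE M i (17 * v + u)
      rw [this]
      exact hl'
    | W i u v =>
      have hok : (Nat.blt u 17 && Nat.blt v 17) = true := hok
      rw [Bool.and_eq_true] at hok
      have hu : u < 17 := Nat.le_of_ble_eq_true hok.1
      refine ⟨ht.e, upd_sound hB h0 ht.w ?_, ht.x, ht.a, ht.d, ht.q⟩
      have : vW M i (17 * v + u) ↔ ∃ w, w < 17 ∧ M.adj i u w ∧ M.adj i w v := by
        rw [vW_mk hu]
        constructor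
        · rintro ⟨w, hw, h1, h2⟩
          exact ⟨w, hw, hM.symm _ _ _ h2, hM.symm _ _ _ h1⟩
        · rintro ⟨w, hw, h1, h2⟩
          exact ⟨w, hw, hM.symm _ _ _ h2, hM.symm _ _ _ h1⟩
      change if b then vW M i (17 * v + u) else ¬ vW M i (17 * v + u)
      rw [this]
      exact hl'
    | A i u a =>
      have ha : a < 32 := Nat.le_of_ble_eq_true hok
      refine ⟨ht.e, ht.w, ht.x, upd_sound hB h0 ht.a ?_, ht.d, ht.q⟩
      have : vA M i (32 * u + a) ↔ M.lab i u = a := vA_mk ha
      change if b then vA M i (32 * u + a) else ¬ vA M i (32 * u + a)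
      rw [this]
      exact hl'
    | D i u v a =>
      have hok : (Nat.blt a 32 && Nat.beq v (Nat.succ u)) = true := hok
      rw [Bool.and_eq_true] at hok
      have ha : a < 32 := Nat.le_of_ble_eq_true hok.1
      have hv : v = u + 1 := Nat.eq_of_beq_eq_true hok.2
      subst hv
      refine ⟨ht.e, ht.w, ht.x, ht.a, upd_sound hB h0 ht.d ?_, ht.q⟩
      have : vD M i (32 * u + a) ↔ a ≤ M.lab i (u + 1) ∧ ¬ a ≤ M.lab i u := vD_mk ha
      change if b then vD M i (32 * u + a) else ¬ vD M i (32 * u + a)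
      rw [this]
      exact hl'
    | Q i u v =>
      have hv : v = u + 1 := Nat.eq_of_beq_eq_true hok
      subst hv
      exact ⟨ht.e, ht.w, ht.x, ht.a, ht.d, upd_sound hB h0 ht.q hl'⟩

/-- insert a literal, forcing the evaluation of the table -/
def insAk (B : ℕ) (t : Tab) (l : Bool × Var) (k : Tab → Bool) : Bool :=
  match litOK l.2 with
  | false => k t
  | true => match l.2 with
    | .X i _ _ => frc (set22 (t.x.getD i 0) (vidx l.2) (kc B l.1)) fun T =>
        k { t with x := t.x.set i T }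
    | .E i _ _ => frc (set22 (t.e.getD i 0) (vidx l.2) (kc B l.1)) fun T =>
        k { t with e := t.e.set i T }
    | .W i _ _ => frc (set22 (t.w.getD i 0) (vidx l.2) (kc B l.1)) fun T =>
        k { t with w := t.w.set i T }
    | .A i _ _ => frc (set22 (t.a.getD i 0) (vidx l.2) (kc B l.1)) fun T =>
        k { t with a := t.a.set i T }
    | .D i _ _ _ => frc (set22 (t.d.getD i 0) (vidx l.2) (kc B l.1)) fun T =>
        k { t with d := t.d.set i T }
    | .Q i _ _ => frc (set22 (t.q.getD i 0) (vidx l.2) (kc B l.1)) fun T =>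
        k { t with q := t.q.set i T }

theorem insAk_eq (B : ℕ) (t : Tab) (l : Bool × Var) (k : Tab → Bool) :
    insAk B t l k = k (insA B t l) := by
  unfold insAk insA
  rcases litOK l.2 with _ | _
  · rfl
  · rcases l with ⟨b, v⟩
    cases v <;> (simp only [frc_eq]; rfl)

/-- insert literals -/
def insAs (B : ℕ) : List (Bool × Var) → Tab → (Tab → Bool) → Bool
  | [], t, k => k t
  | l :: L, t, k => insAk B t l fun t' => insAs B L t' k

theorem insAs_sound (hM : IsModel I M) (hB : B < 4096) (h0 : Zer B K τ) :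
    ∀ (L : List (Bool × Var)) (t : Tab) (k : Tab → Bool), TabOK M B K τ t →
      (∀ l ∈ L, LHolds M l) → insAs B L t k = true → ∃ t', TabOK M B K τ t' ∧ k t' = true
  | [], t, _, ht, _, h => ⟨t, ht, h⟩
  | l :: L, t, k, ht, hL, h => by
    have h : insAk B t l (fun t' => insAs B L t' k) = true := h
    rw [insAk_eq] at h
    exact insAs_sound hM hB h0 L _ k (insA_sound hM hB h0 ht (hL l (List.mem_cons_self ..)))
      (fun l' hl' => hL l' (List.mem_cons_of_mem _ hl')) h

/-! ### aliases -/

/-- exchange the two fields of a variable -/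
def swp (e : ℕ) : ℕ := Nat.add (Nat.shiftRight e 12) (Nat.shiftLeft (Nat.land e 4095) 12)

theorem swp_eq (e : ℕ) : swp e = e / 4096 + (e % 4096) * 4096 := by
  change (e >>> 12) + (e &&& (2 ^ 12 - 1)) <<< 12 = _
  rw [Nat.and_two_pow_sub_one_eq_mod, Nat.shiftLeft_eq, Nat.shiftRight_eq_div_pow]

theorem F22_lt (T i : ℕ) : F22 T i < 2 ^ 24 := by
  rw [F22_eq]
  exact Nat.mod_lt _ (by norm_num)

theorem TOK.alias {T T' : ℕ} {val val' : ℕ → Prop} (h : TOK B K τ T val)
    (h' : TOK B K τ T' val') {i j : ℕ} (hij : val i ↔ val' j) :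
    TOK B K τ (set22 T i (F22 T' j)) val := by
  have := h' j
  rw [cd_pos, cd_neg] at this
  exact h.set (F22_lt T' j) (fun hv => this.1 (hij.1 hv)) (fun hv => this.2 (fun h => hv (hij.2 h)))

theorem TOK.aliasN {T T' : ℕ} {val val' : ℕ → Prop} (h : TOK B K τ T val)
    (h' : TOK B K τ T' val') {i j : ℕ} (hij : val i ↔ ¬ val' j) :
    TOK B K τ (set22 T i (swp (F22 T' j))) val := by
  have h2 := h' j
  rw [cd_pos, cd_neg] at h2
  have hlt := F22_lt T' j
  have e := swp_eq (F22 T' j)
  have e1 : swp (F22 T' j) % 4096 = F22 T' j / 4096 := by omega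
  have e2 : swp (F22 T' j) / 4096 = F22 T' j % 4096 := by omega
  refine h.set (by omega) (fun hv => ?_) (fun hv => ?_)
  · rw [e1]
    exact h2.2 (hij.1 hv)
  · rw [e2]
    refine h2.1 ?_
    by_contra hcon
    exact hv (hij.2 hcon)

/-- copy the entry `32u + a` (`a` = smallest label, negative) or `32u + a` (largest label); a list
of `(s, u, a, b)`: `label = a` iff `label ≥ b` (`s = true`), `label = a` iff not `label ≥ b` -/
def doAl (TX : ℕ) : List (Bool × ℕ × ℕ × ℕ) → ℕ → (ℕ → Bool) → Bool
  | [], T, k => k T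
  | (true, u, a, b) :: L, T, k => frc (set22 T (ix u a) (F22 TX (ix u b))) fun T' => doAl TX L T' k
  | (false, u, a, b) :: L, T, k =>
      frc (set22 T (ix u a) (swp (F22 TX (ix u b)))) fun T' => doAl TX L T' k

/-- meaning of an alias -/
def AlOK (M : Model) (i : ℕ) (p : Bool × ℕ × ℕ × ℕ) : Prop :=
  p.2.2.1 < 32 ∧ p.2.2.2 < 32 ∧
    (M.lab i p.2.1 = p.2.2.1 ↔ (if p.1 then p.2.2.2 ≤ M.lab i p.2.1 else
      ¬ p.2.2.2 ≤ M.lab i p.2.1))

theorem doAl_sound {i TX : ℕ} (hX : TOK B K τ TX (vX M i)) :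
    ∀ (L : List (Bool × ℕ × ℕ × ℕ)) (T : ℕ) (k : ℕ → Bool), TOK B K τ T (vA M i) →
      (∀ p ∈ L, AlOK M i p) → doAl TX L T k = true → ∃ T', TOK B K τ T' (vA M i) ∧ k T' = true
  | [], T, _, hT, _, h => ⟨T, hT, h⟩
  | (true, u, a, b) :: L, T, k, hT, hL, h => by
    have h : frc (set22 T (ix u a) (F22 TX (ix u b))) (fun T' => doAl TX L T' k) = true := h
    rw [frc_eq] at h
    obtain ⟨h1, h2, h3⟩ := hL _ (List.mem_cons_self ..)
    refine doAl_sound hX L _ k (hT.alias hX ?_) (fun p hp => hL p (List.mem_cons_of_mem _ hp)) h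
    change vA M i (32 * u + a) ↔ vX M i (32 * u + b)
    rw [vA_mk h1, vX_mk h2]
    exact h3
  | (false, u, a, b) :: L, T, k, hT, hL, h => by
    have h : frc (set22 T (ix u a) (swp (F22 TX (ix u b)))) (fun T' => doAl TX L T' k) = true := h
    rw [frc_eq] at h
    obtain ⟨h1, h2, h3⟩ := hL _ (List.mem_cons_self ..)
    refine doAl_sound hX L _ k (hT.aliasN hX ?_) (fun p hp => hL p (List.mem_cons_of_mem _ hp)) h
    change vA M i (32 * u + a) ↔ ¬ vX M i (32 * u + b)
    rw [vA_mk h1, vX_mk h2]
    exact h3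

/-- aliases of all classes -/
def doAls : List (List (Bool × ℕ × ℕ × ℕ)) → List ℕ → List ℕ → (List ℕ → Bool) → Bool
  | L :: Ls, TX :: TXs, T :: Ts, k => doAl TX L T fun T' => doAls Ls TXs Ts fun Ts' => k (T' :: Ts')
  | _, _, Ts, k => k Ts

theorem doAls_sound : ∀ (Ls : List (List (Bool × ℕ × ℕ × ℕ))) (TXs Ts : List ℕ) (i : ℕ)
    (k : List ℕ → Bool), (∀ j, TOK B K τ (TXs.getD j 0) (vX M (i + j))) →
    (∀ j, TOK B K τ (Ts.getD j 0) (vA M (i + j))) →
    (∀ j, ∀ p ∈ Ls.getD j [], AlOK M (i + j) p) → doAls Ls TXs Ts k = true →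
    ∃ Ts', (∀ j, TOK B K τ (Ts'.getD j 0) (vA M (i + j))) ∧ k Ts' = true := by
  intro Ls
  induction Ls with
  | nil =>
    intro TXs Ts i k _ hA _ h
    have h : k Ts = true := by
      cases TXs <;> cases Ts <;> exact h
    exact ⟨Ts, hA, h⟩
  | cons L Ls ih =>
    intro TXs Ts i k hX hA hL h
    cases TXs with
    | nil =>
      have h : k Ts = true := by
        cases Ts <;> exact h
      exact ⟨Ts, hA, h⟩
    | cons TX TXs =>
      cases Ts with
      | nil => exact ⟨[], hA, h⟩
      | cons T Ts =>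
        have h : doAl TX L T (fun T' => doAls Ls TXs Ts fun Ts' => k (T' :: Ts')) = true := h
        obtain ⟨T', hT', h'⟩ := doAl_sound (i := i) (hX 0) L T _ (hA 0) (hL 0) h
        obtain ⟨Ts', hTs', h''⟩ := ih TXs Ts (i + 1) _ (fun j => by
            have := hX (j + 1)
            have e : i + 1 + j = i + (j + 1) := by ring
            rw [e]
            exact this) (fun j => by
            have := hA (j + 1)
            have e : i + 1 + j = i + (j + 1) := by ring
            rw [e]
            exact this) (fun j p hp => by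
            have e : i + 1 + j = i + (j + 1) := by ring
            rw [e]
            exact hL (j + 1) p hp) h'
        refine ⟨T' :: Ts', ?_, h''⟩
        intro j
        cases j with
        | zero => exact hT'
        | succ j =>
          have := hTs' j
          have e : i + 1 + j = i + (j + 1) := by ring
          rw [e] at this
          exact this

/-! ### the whole construction -/

/-- local variables: for every table the number of inserted variables and their indices -/
structure Locs where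
  e : List (ℕ × ℕ)
  w : List (ℕ × ℕ)
  x : List (ℕ × ℕ)
  a : List (ℕ × ℕ)
  d : List (ℕ × ℕ)
  q : List (ℕ × ℕ)

/-- number of local variables, with the constant one -/
def Locs.n (L : Locs) (t : Tab) : ℕ :=
  1 + cnt t.e L.e + cnt t.w L.w + cnt t.x L.x + cnt t.a L.a + cnt t.d L.d + cnt t.q L.q

/-- the valuation of the local variables -/
def Locs.val (M : Model) (L : Locs) (t : Tab) (j : ℕ) : Prop :=
  if j < 1 then True else
  if j < 1 + cnt t.e L.e then lval (vE M) t.e L.e 0 (j - 1) else
  if j < 1 + cnt t.e L.e + cnt t.w L.w then lval (vW M) t.w L.w 0 (j - (1 + cnt t.e L.e)) else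
  if j < 1 + cnt t.e L.e + cnt t.w L.w + cnt t.x L.x then
    lval (vX M) t.x L.x 0 (j - (1 + cnt t.e L.e + cnt t.w L.w)) else
  if j < 1 + cnt t.e L.e + cnt t.w L.w + cnt t.x L.x + cnt t.a L.a then
    lval (vA M) t.a L.a 0 (j - (1 + cnt t.e L.e + cnt t.w L.w + cnt t.x L.x)) else
  if j < 1 + cnt t.e L.e + cnt t.w L.w + cnt t.x L.x + cnt t.a L.a + cnt t.d L.d then
    lval (vD M) t.d L.d 0 (j - (1 + cnt t.e L.e + cnt t.w L.w + cnt t.x L.x + cnt t.a L.a)) else
  lval (vQ M) t.q L.q 0
    (j - (1 + cnt t.e L.e + cnt t.w L.w + cnt t.x L.x + cnt t.a L.a + cnt t.d L.d))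

/-- insert all local variables -/
def insLocs (B K : ℕ) (L : Locs) (t : Tab) (k : Tab → ℕ → Bool) : Bool :=
  insTs B K t.e L.e 1 fun e n => insTs B K t.w L.w n fun w n => insTs B K t.x L.x n fun x n =>
    insTs B K t.a L.a n fun a n => insTs B K t.d L.d n fun d n => insTs B K t.q L.q n fun q n =>
      k ⟨e, w, x, a, d, q⟩ n

theorem insLocs_sound (hK : K < 4096) {L : Locs} {t : Tab} (hn : 2 * (B + L.n t) ≤ K + 1)
    (ht : TabOK M B K (L.val M t) t) (k : Tab → ℕ → Bool) (h : insLocs B K L t k = true) :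
    ∃ t', TabOK M B K (L.val M t) t' ∧ k t' (L.n t) = true := by
  unfold Locs.n at hn ⊢
  unfold insLocs at h
  obtain ⟨e, he, h⟩ := insTs_sound hK (V := vE M) t.e L.e 0 1 _ (by omega)
    (fun j => by rw [Nat.zero_add]; exact ht.e j) (fun j hj => by
      unfold Locs.val
      rw [if_neg (by omega), if_pos (by omega), Nat.add_sub_cancel_left]) h
  obtain ⟨w, hw, h⟩ := insTs_sound hK (V := vW M) t.w L.w 0 _ _ (by omega)
    (fun j => by rw [Nat.zero_add]; exact ht.w j) (fun j hj => by
      unfold Locs.val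
      rw [if_neg (by omega), if_neg (by omega), if_pos (by omega), Nat.add_sub_cancel_left]) h
  obtain ⟨x, hx, h⟩ := insTs_sound hK (V := vX M) t.x L.x 0 _ _ (by omega)
    (fun j => by rw [Nat.zero_add]; exact ht.x j) (fun j hj => by
      unfold Locs.val
      rw [if_neg (by omega), if_neg (by omega), if_neg (by omega), if_pos (by omega),
        Nat.add_sub_cancel_left]) h
  obtain ⟨a, ha, h⟩ := insTs_sound hK (V := vA M) t.a L.a 0 _ _ (by omega)
    (fun j => by rw [Nat.zero_add]; exact ht.a j) (fun j hj => by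
      unfold Locs.val
      rw [if_neg (by omega), if_neg (by omega), if_neg (by omega), if_neg (by omega),
        if_pos (by omega), Nat.add_sub_cancel_left]) h
  obtain ⟨d, hd, h⟩ := insTs_sound hK (V := vD M) t.d L.d 0 _ _ (by omega)
    (fun j => by rw [Nat.zero_add]; exact ht.d j) (fun j hj => by
      unfold Locs.val
      rw [if_neg (by omega), if_neg (by omega), if_neg (by omega), if_neg (by omega),
        if_neg (by omega), if_pos (by omega), Nat.add_sub_cancel_left]) h
  obtain ⟨q, hq, h⟩ := insTs_sound hK (V := vQ M) t.q L.q 0 _ _ (by omega)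
    (fun j => by rw [Nat.zero_add]; exact ht.q j) (fun j hj => by
      unfold Locs.val
      rw [if_neg (by omega), if_neg (by omega), if_neg (by omega), if_neg (by omega),
        if_neg (by omega), if_neg (by omega), Nat.add_sub_cancel_left]) h
  refine ⟨⟨e, w, x, a, d, q⟩, ⟨?_, ?_, ?_, ?_, ?_, ?_⟩, h⟩
  · intro i; have := he i; rw [Nat.zero_add] at this; exact this
  · intro i; have := hw i; rw [Nat.zero_add] at this; exact this
  · intro i; have := hx i; rw [Nat.zero_add] at this; exact this
  · intro i; have := ha i; rw [Nat.zero_add] at this; exact this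
  · intro i; have := hd i; rw [Nat.zero_add] at this; exact this
  · intro i; have := hq i; rw [Nat.zero_add] at this; exact this

/-- the tables of a job: base tables, local variables, literals of the cube, aliases -/
def withTab (B K : ℕ) (base : Tab) (L : Locs) (al : List (List (Bool × ℕ × ℕ × ℕ)))
    (alpha : List (Bool × Var)) (k : Tab → Bool) : Bool :=
  insLocs B K L base fun t n => and (Nat.ble (Nat.mul 2 (Nat.add B n)) (Nat.succ K))
    (and (Nat.blt K 4096) (insAs B alpha t fun t => doAls al t.x t.a fun a => k { t with a := a }))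

/-- the base tables are correct for every valuation -/
def BaseOK (M : Model) (B : ℕ) (base : Tab) : Prop :=
  ∀ (K : ℕ) (τ : ℕ → Prop), Zer B K τ → TabOK M B K τ base

/-- the number of variables found by `insLocs` is `L.n` -/
theorem insTs_cnt : ∀ (Ts : List ℕ) (L : List (ℕ × ℕ)) (n : ℕ) (k : List ℕ → ℕ → Bool),
    ∃ Ts', insTs B K Ts L n k = k Ts' (n + cnt Ts L)
  | [], L, n, k => ⟨[], by cases L <;> rfl⟩
  | T :: Ts, [], n, k => ⟨T :: Ts, rfl⟩
  | T :: Ts, l :: L, n, k => by
    obtain ⟨Ts', h⟩ := insTs_cnt Ts L (n + l.1) (fun Ts' m => k (insL B K l.1 n l.2 T :: Ts') m)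
    refine ⟨insL B K l.1 n l.2 T :: Ts', ?_⟩
    have e : insTs B K (T :: Ts) (l :: L) n k = frc (insL B K l.1 n l.2 T) (fun T' =>
      frc (Nat.add n l.1) fun n' => insTs B K Ts L n' fun Ts' m => k (T' :: Ts') m) := rfl
    have e2 : cnt (T :: Ts) (l :: L) = l.1 + cnt Ts L := rfl
    rw [e, frc_eq, frc_eq, e2, ← Nat.add_assoc]
    exact h

theorem insLocs_cnt (L : Locs) (t : Tab) (k : Tab → ℕ → Bool) :
    ∃ t', insLocs B K L t k = k t' (L.n t) := by
  unfold insLocs Locs.n
  obtain ⟨e, he⟩ := insTs_cnt (B := B) (K := K) t.e L.e 1 (fun e n =>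
    insTs B K t.w L.w n fun w n => insTs B K t.x L.x n fun x n =>
    insTs B K t.a L.a n fun a n => insTs B K t.d L.d n fun d n => insTs B K t.q L.q n fun q n =>
      k ⟨e, w, x, a, d, q⟩ n)
  obtain ⟨w, hw⟩ := insTs_cnt (B := B) (K := K) t.w L.w (1 + cnt t.e L.e) (fun w n =>
    insTs B K t.x L.x n fun x n =>
    insTs B K t.a L.a n fun a n => insTs B K t.d L.d n fun d n => insTs B K t.q L.q n fun q n =>
      k ⟨e, w, x, a, d, q⟩ n)
  obtain ⟨x, hx⟩ := insTs_cnt (B := B) (K := K) t.x L.x (1 + cnt t.e L.e + cnt t.w L.w)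
    (fun x n => insTs B K t.a L.a n fun a n => insTs B K t.d L.d n fun d n =>
      insTs B K t.q L.q n fun q n => k ⟨e, w, x, a, d, q⟩ n)
  obtain ⟨a, ha⟩ := insTs_cnt (B := B) (K := K) t.a L.a
    (1 + cnt t.e L.e + cnt t.w L.w + cnt t.x L.x) (fun a n => insTs B K t.d L.d n fun d n =>
      insTs B K t.q L.q n fun q n => k ⟨e, w, x, a, d, q⟩ n)
  obtain ⟨d, hd⟩ := insTs_cnt (B := B) (K := K) t.d L.d
    (1 + cnt t.e L.e + cnt t.w L.w + cnt t.x L.x + cnt t.a L.a) (fun d n =>
      insTs B K t.q L.q n fun q n => k ⟨e, w, x, a, d, q⟩ n)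
  obtain ⟨q, hq⟩ := insTs_cnt (B := B) (K := K) t.q L.q
    (1 + cnt t.e L.e + cnt t.w L.w + cnt t.x L.x + cnt t.a L.a + cnt t.d L.d) (fun q n =>
      k ⟨e, w, x, a, d, q⟩ n)
  refine ⟨⟨e, w, x, a, d, q⟩, ?_⟩
  rw [he, hw, hx, ha, hd, hq]

/-- MAIN THEOREM on the tables of a job. -/
theorem withTab_sound (hM : IsModel I M) {base : Tab} (hb : BaseOK M B base)
    {L : Locs} {al : List (List (Bool × ℕ × ℕ × ℕ))} (hal : ∀ i, ∀ p ∈ al.getD i [], AlOK M i p)
    {alpha : List (Bool × Var)} (hα : ∀ l ∈ alpha, LHolds M l) {k : Tab → Bool}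
    (h : withTab B K base L al alpha k = true) :
    ∃ (τ : ℕ → Prop) (t : Tab), Zer B K τ ∧ TabOK M B K τ t ∧ k t = true := by
  have h00 : L.val M base 0 := by
    unfold Locs.val
    rw [if_pos (by norm_num)]
    trivial
  obtain ⟨t1, h1⟩ := insLocs_cnt (B := B) (K := K) L base (fun t n =>
    and (Nat.ble (Nat.mul 2 (Nat.add B n)) (Nat.succ K))
    (and (Nat.blt K 4096) (insAs B alpha t fun t => doAls al t.x t.a fun a => k { t with a := a })))
  have h' := h
  unfold withTab at h'
  rw [h1, Bool.and_eq_true, Bool.and_eq_true] at h'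
  obtain ⟨h2, h3, _⟩ := h'
  have hn : 2 * (B + L.n base) ≤ K + 1 := Nat.le_of_ble_eq_true h2
  have hK : K < 4096 := Nat.le_of_ble_eq_true h3
  have hn1 : 1 ≤ L.n base := by unfold Locs.n; omega
  have h0 : Zer B K (L.val M base) := ⟨h00, by omega⟩
  obtain ⟨t2, ht2, h4⟩ := insLocs_sound hK (by omega) (hb K _ h0) _ h
  rw [Bool.and_eq_true, Bool.and_eq_true] at h4
  obtain ⟨t3, ht3, h5⟩ := insAs_sound hM (B := B) (K := K) (by omega) h0 alpha t2 _ ht2 hα h4.2.2
  obtain ⟨a, ha, h6⟩ := doAls_sound al t3.x t3.a 0 _ (fun j => by rw [Nat.zero_add]; exact ht3.x j)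
    (fun j => by rw [Nat.zero_add]; exact ht3.a j) (fun j => by rw [Nat.zero_add]; exact hal j) h5
  refine ⟨L.val M base, { t3 with a := a }, h0, ⟨ht3.e, ht3.w, ht3.x, fun i => ?_, ht3.d, ht3.q⟩, h6⟩
  have := ha i
  rw [Nat.zero_add] at this
  exact this

end Pool.Agent.Work.MP_92a29d_co_h45
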