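import Pool.Agent.Work.MP_92a29d_co_h45.Run

/-!
The numbering of an instance: from a model to a valuation that satisfies every word.
-/

set_option autoImplicit false

namespace Pool.Agent.Work.MP_92a29d_co_h45

/-- all words are satisfied -/
structure Orig (I : Inst) (B K : ℕ) (t : Tab) (F : Info) (τ : ℕ → Prop) : Prop where
  zero : Zer B K τ
  mt : ∀ f : Fam, f.ok I = true → ∀ w, MT B K τ (f.fn B t F w)

/-- data of an instance -/
structure Data where
  base : Tab
  info : Info
  al : List (List (Bool × ℕ × ℕ × ℕ))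

/-- check of the data of an instance -/
def chkData (I : Inst) (B : ℕ) (D : Data) : Bool :=
  chkBase I B D.base && chkInfo I D.info && chkAls I 0 D.al

section

variable {I : Inst} {M : Model} {B K : ℕ}

theorem orig_exists_of (hM : IsModel I M) {D : Data} (hD : chkData I B D = true)
    {L : Locs} {alpha : List (Bool × Var)} (hα : ∀ l ∈ alpha, LHolds M l) {k : Tab → Bool}
    (h : withTab B K D.base L D.al alpha k = true) :
    ∃ (τ : ℕ → Prop) (t : Tab), Orig I B K t D.info τ ∧ k t = true := by
  unfold chkData at hD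
  rw [Bool.and_eq_true, Bool.and_eq_true] at hD
  obtain ⟨⟨h1, h2⟩, h3⟩ := hD
  obtain ⟨τ, t, h0, ht, hk⟩ := withTab_sound hM (chkBase_sound hM h1) (fun i p hp => by
    have := chkAls_sound hM D.al 0 h3 i p hp
    rw [Nat.zero_add] at this
    exact this) hα h
  exact ⟨τ, t, ⟨h0, fun f hf w => fn_sound hM h0 (chkInfo_sound hM h2) ht f hf w⟩, hk⟩

end

/-- equality of lists of numbers -/
def leq : List ℕ → List ℕ → Bool
  | [], [] => true
  | a :: l, b :: m => Nat.beq a b && leq l m
  | _, _ => false

theorem leq_spec : ∀ {l m : List ℕ}, leq l m = true → l = m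
  | [], [], _ => rfl
  | a :: l, b :: m, h => by
    have h : (Nat.beq a b && leq l m) = true := h
    rw [Bool.and_eq_true] at h
    rw [Nat.eq_of_beq_eq_true h.1, leq_spec h.2]
  | [], _ :: _, h => by simp [leq] at h
  | _ :: _, [], h => by simp [leq] at h

/-- equality of tables -/
def tabEq (s t : Tab) : Bool :=
  leq s.e t.e && leq s.w t.w && leq s.x t.x && leq s.a t.a && leq s.d t.d && leq s.q t.q

theorem tabEq_spec {s t : Tab} (h : tabEq s t = true) : s = t := by
  unfold tabEq at h
  simp only [Bool.and_eq_true] at h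
  obtain ⟨⟨⟨⟨⟨h1, h2⟩, h3⟩, h4⟩, h5⟩, h6⟩ := h
  cases s
  cases t
  simp only [Tab.mk.injEq]
  exact ⟨leq_spec h1, leq_spec h2, leq_spec h3, leq_spec h4, leq_spec h5, leq_spec h6⟩

/-- GLOBAL NUMBERING of an instance: the table `t` is a literal -/
theorem orig_exists {I : Inst} {M : Model} {B K : ℕ} (hM : IsModel I M) {D : Data}
    (hD : chkData I B D = true) {L : Locs} {t : Tab}
    (h : withTab B K D.base L D.al [] (fun t' => tabEq t' t) = true) :
    ∃ τ : ℕ → Prop, Orig I B K t D.info τ := by
  obtain ⟨τ, t', h1, h2⟩ := orig_exists_of hM hD (fun l hl => absurd hl (by simp)) h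
  rw [tabEq_spec h2] at h1
  exact ⟨τ, h1⟩

end Pool.Agent.Work.MP_92a29d_co_h45
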