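import Pool.Agent.Work.MP_92a29d_co_h45.Num

/-!
The original clauses of an instance as one function from codes to masks.
-/

set_option autoImplicit false

namespace Pool.Agent.Work.MP_92a29d_co_h45

/-- decision tree from codes to families; a leaf has the first code of its family -/
inductive FT where
  | leaf (lo : ℕ) (f : Fam)
  | node (m : ℕ) (l r : FT)

/-- all families make sense -/
def FT.ok (I : Inst) : FT → Bool
  | .leaf _ f => f.ok I
  | .node _ l r => l.ok I && r.ok I

/-- mask of a code -/
def FT.eval (B : ℕ) (t : Tab) (F : Info) : FT → ℕ → ℕ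
  | .leaf lo f, c => f.fn B t F (Nat.sub c lo)
  | .node m l r, c => Bool.rec (motive := fun _ => ℕ) (l.eval B t F c) (r.eval B t F c)
      (Nat.ble m c)

theorem FT.sound {I : Inst} {B K : ℕ} {t : Tab} {F : Info} {τ : ℕ → Prop}
    (h : Orig I B K t F τ) : ∀ (T : FT), T.ok I = true → ∀ c, MT B K τ (T.eval B t F c)
  | .leaf lo f, hf, c => h.mt f hf _
  | .node m l r, hf, c => by
    have hf : (l.ok I && r.ok I) = true := hf
    rw [Bool.and_eq_true] at hf
    change MT B K τ (Bool.rec (l.eval B t F c) (r.eval B t F c) (Nat.ble m c))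
    rcases Nat.ble m c with _ | _
    · exact FT.sound h l hf.1 c
    · exact FT.sound h r hf.2 c

/-- soundness of the masks of an instance -/
theorem om_sound_of {I : Inst} {M : Model} {B K : ℕ} (hM : IsModel I M) {D : Data}
    (hD : chkData I B D = true) {L : Locs} {t : Tab}
    (h : withTab B K D.base L D.al [] (fun t' => tabEq t' t) = true) {T : FT}
    (hT : T.ok I = true) {OM : ℕ → ℕ} (hOM : ∀ c, OM c = T.eval B t D.info c) :
    ∃ τ : ℕ → Prop, Zer B K τ ∧ ∀ c, MT B K τ (OM c) := by
  obtain ⟨τ, hτ⟩ := orig_exists hM hD h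
  refine ⟨τ, hτ.zero, fun c => ?_⟩
  rw [hOM c]
  exact FT.sound hτ T hT c

end Pool.Agent.Work.MP_92a29d_co_h45
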