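import Pool.Agent.Work.MP_92a29d_co_h45.Base

/-!
Evaluation of a family: one dispatch, tables forced.
-/

set_option autoImplicit false

namespace Pool.Agent.Work.MP_92a29d_co_h45

/-- force two numbers -/
def frc2 {α : Type} (a b : ℕ) (k : ℕ → ℕ → α) : α := frc a fun a => frc b fun b => k a b

theorem frc2_eq {α : Type} (a b : ℕ) (k : ℕ → ℕ → α) : frc2 a b k = k a b := by
  unfold frc2
  rw [frc_eq, frc_eq]

/-- the mask function of a family, given to `k` -/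
def Fam.run {α : Type} (B : ℕ) (t : Tab) (F : Info) (k : (ℕ → ℕ) → α) : Fam → α
  | .tri i => frc (t.E i) fun E => k (f3 B E E E)
  | .w2R i => frc2 (t.E i) (t.W i) fun E W => k (Pool.Agent.Work.MP_92a29d_co_h45.w2R B E W)
  | .w2P i => frc2 (t.E i) (t.W i) fun E W => k (Pool.Agent.Work.MP_92a29d_co_h45.w2P B E W)
  | .w2Q i => frc2 (t.E i) (t.W i) fun E W => k (Pool.Agent.Work.MP_92a29d_co_h45.w2Q B E W)
  | .w5P i => frc2 (t.E i) (t.W i) fun E W => k (f3 B E W W)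
  | .w5Q i => frc2 (t.E i) (t.W i) fun E W => k (f3 B W E W)
  | .w5R i => frc2 (t.E i) (t.W i) fun E W => k (f3 B W W E)
  | .w3 i => frc2 (t.E i) (t.W i) fun E W => k (Pool.Agent.Work.MP_92a29d_co_h45.w3 B E W)
  | .cov => frc2 (t.E 0) (t.E 1) fun E0 E1 => frc2 (t.E 2) (t.E 3) fun E2 E3 =>
      k (Pool.Agent.Work.MP_92a29d_co_h45.cov B E0 E1 E2 E3)
  | .five i j => frc2 (t.E i) (t.E j) fun E E' =>
      k (Pool.Agent.Work.MP_92a29d_co_h45.five B E E')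
  | .ord i => frc (t.X i) fun X => k (ordW B X)
  | .adjA i => frc2 (t.E i) (t.X i) fun E X => frc (F.C i).nz fun n =>
      k (Pool.Agent.Work.MP_92a29d_co_h45.adjA B E X n)
  | .adjB i => frc2 (t.E i) (t.X i) fun E X => frc (F.C i).nz fun n =>
      k (Pool.Agent.Work.MP_92a29d_co_h45.adjB B E X n)
  | .zoA i => frc2 (t.E i) (t.X i) fun E X => frc2 (F.C i).sp (F.C i).od fun s o =>
      k (Pool.Agent.Work.MP_92a29d_co_h45.zoA B E X s o)
  | .zoB i => frc2 (t.E i) (t.X i) fun E X => frc2 (F.C i).sp (F.C i).od fun s o =>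
      k (Pool.Agent.Work.MP_92a29d_co_h45.zoB B E X s o)
  | .zeA i => frc2 (t.E i) (t.X i) fun E X => frc2 (F.C i).sp (F.C i).ev fun s o =>
      frc (F.C i).top fun p => k (Pool.Agent.Work.MP_92a29d_co_h45.zeA B E X s o p)
  | .zeB i => frc2 (t.E i) (t.X i) fun E X => frc2 (F.C i).sp (F.C i).ev fun s o =>
      frc (F.C i).top fun p => k (Pool.Agent.Work.MP_92a29d_co_h45.zeB B E X s o p)
  | .sz1o i => frc (t.X i) fun X => frc2 (F.C i).od (F.C i).s1 fun p s => k (sz1 B X 1 p s)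
  | .sz1e i => frc (t.X i) fun X => frc2 (F.C i).ev (F.C i).s1 fun p s => k (sz1 B X 2 p s)
  | .sz2o i => frc (t.X i) fun X => frc2 (F.C i).od (F.C i).s2 fun p s => k (sz2 B X 1 p s)
  | .sz2e i => frc (t.X i) fun X => frc2 (F.C i).ev (F.C i).s2 fun p s => k (sz2 B X 2 p s)
  | .ne i => frc2 (t.A i) (F.C i).ne fun A n => k (neW B A n)
  | .exd1 i => frc2 (t.A i) (t.X i) fun A X =>
      k (Pool.Agent.Work.MP_92a29d_co_h45.exd1 B A X)
  | .exd2 i => frc2 (t.A i) (t.X i) fun A X =>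
      k (Pool.Agent.Work.MP_92a29d_co_h45.exd2 B A X)
  | .lex0 => frc2 (t.X 0) F.lexm fun X l => k (Pool.Agent.Work.MP_92a29d_co_h45.lex0 B X l)
  | .lexi i => frc2 (t.Q i) (t.X (i + 1)) fun Q X => frc F.lexm fun l =>
      k (Pool.Agent.Work.MP_92a29d_co_h45.lexi B Q X l)
  | .lexD1 i => frc2 (t.D i) (t.X i) fun D X =>
      k (Pool.Agent.Work.MP_92a29d_co_h45.lexD1 B D X)
  | .lexD2 i => frc2 (t.D i) (t.X i) fun D X =>
      k (Pool.Agent.Work.MP_92a29d_co_h45.lexD2 B D X)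
  | .lexQ0o => frc2 (t.Q 0) (t.D 0) fun Q D => frc2 (F.C 0).od F.lexm fun p l =>
      k (lexQ0 B Q D 1 p l)
  | .lexQ0e => frc2 (t.Q 0) (t.D 0) fun Q D => frc2 (F.C 0).ev F.lexm fun p l =>
      k (lexQ0 B Q D 2 p l)
  | .lexQio i => frc2 (t.Q i) (t.Q (i + 1)) fun P Q => frc2 (t.D (i + 1)) (F.C (i + 1)).od
      fun D p => frc F.lexm fun l => k (lexQi B P Q D 1 p l)
  | .lexQie i => frc2 (t.Q i) (t.Q (i + 1)) fun P Q => frc2 (t.D (i + 1)) (F.C (i + 1)).ev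
      fun D p => frc F.lexm fun l => k (lexQi B P Q D 2 p l)
  | .aloT i => frc (t.A i) fun A => k (Pool.Agent.Work.MP_92a29d_co_h45.aloT B A)
  | .amoT i => frc (t.A i) fun A => k (Pool.Agent.Work.MP_92a29d_co_h45.amoT B A)
  | .bijT i => frc2 (t.A i) (F.C i).s1 fun A s =>
      k (Pool.Agent.Work.MP_92a29d_co_h45.bijT B A s)
  | .adjTA i => frc2 (t.E i) (t.A i) fun E A => frc (F.NB i) fun n =>
      k (Pool.Agent.Work.MP_92a29d_co_h45.adjTA B E A n)
  | .adjTB i => frc2 (t.E i) (t.A i) fun E A => frc (F.NB i) fun n =>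
      k (Pool.Agent.Work.MP_92a29d_co_h45.adjTB B E A n)
  | .lexT => frc2 (t.A 0) F.lexm fun A l => k (Pool.Agent.Work.MP_92a29d_co_h45.lexT B A l)
  | .forb i => frc2 (t.X i) (F.FB i) fun X f =>
      k (Pool.Agent.Work.MP_92a29d_co_h45.forb B X f)

theorem Fam.run_eq {α : Type} (B : ℕ) (t : Tab) (F : Info) (k : (ℕ → ℕ) → α) (f : Fam) :
    f.run B t F k = k (f.fn B t F) := by
  cases f <;> simp only [Fam.run, Fam.fn, frc_eq, frc2_eq]

end Pool.Agent.Work.MP_92a29d_co_h45
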