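import Pool.Agent.Work.MP_92a29d_co_h45.Fam

/-!
Tables of literal codes, packed in natural numbers.

The code of a literal is the position of its bit in the clause masks: the positive literal of the
local variable `v` has the position `B + v`, the negative one the position `K - B - v`.  The local
variable `0` is true.  Tables have 12-bit fields which store `code xor B`: the default code is `B`
(trivially true); the code `0` means that the literal is false.
-/

set_option autoImplicit false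

namespace Pool.Agent.Work.MP_92a29d_co_h45

/-- the bit `b` is a true literal -/
def CT (B K : ℕ) (τ : ℕ → Prop) (b : ℕ) : Prop :=
  (∃ v, b = B + v ∧ 2 * b < K ∧ τ v) ∨ (∃ v, b + B + v = K ∧ K < 2 * b ∧ ¬ τ v)

/-- a literal and its negation are not both true -/
theorem ct_excl {B K : ℕ} {τ : ℕ → Prop} {b : ℕ} (h : CT B K τ b) (h' : CT B K τ (K - b)) :
    False := by
  rcases h with ⟨v, h1, h2, h3⟩ | ⟨v, h1, h2, h3⟩ <;>
    rcases h' with ⟨v', h1', h2', h3'⟩ | ⟨v', h1', h2', h3'⟩
  · omega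
  · have : v' = v := by omega
    subst this
    exact h3' h3
  · have : v' = v := by omega
    subst this
    exact h3 h3'
  · omega

/-- the positions of the literals -/
theorem ct_range {B K : ℕ} {τ : ℕ → Prop} {b : ℕ} (h : CT B K τ b) : B ≤ b ∧ b + B ≤ K := by
  rcases h with ⟨v, h1, h2, h3⟩ | ⟨v, h1, h2, h3⟩ <;> omega

/-- the local variable `0` is true, and its positive literal is in the lower half -/
structure Zer (B K : ℕ) (τ : ℕ → Prop) : Prop where
  t0 : τ 0
  lt : 2 * B < K

/-- the mask contains a true literal -/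
def MT (B K : ℕ) (τ : ℕ → Prop) (m : ℕ) : Prop := ∃ b, m.testBit b = true ∧ CT B K τ b

/-- code of a literal -/
def cd (B T off : ℕ) : ℕ := Nat.xor B (Nat.land (Nat.shiftRight T off) 4095)

/-- mask of a literal -/
def lk (B T off : ℕ) : ℕ := Nat.shiftLeft 1 (Nat.xor B (Nat.land (Nat.shiftRight T off) 4095))

/-- meaning of a table: `val i` is the value of the variable with index `i` -/
def TOK (B K : ℕ) (τ : ℕ → Prop) (T : ℕ) (val : ℕ → Prop) : Prop :=
  ∀ i, (val i → CT B K τ (cd B T (24 * i))) ∧ (¬ val i → CT B K τ (cd B T (24 * i + 12)))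

section basics

variable {B K : ℕ} {τ : ℕ → Prop}

theorem mt_lk {T off : ℕ} (h : CT B K τ (cd B T off)) : MT B K τ (lk B T off) := by
  refine ⟨cd B T off, ?_, h⟩
  change (1 <<< cd B T off).testBit (cd B T off) = true
  rw [Nat.testBit_shiftLeft]
  simp

theorem mt_l {a b : ℕ} (h : MT B K τ a) : MT B K τ (Nat.lor a b) := by
  obtain ⟨c, h1, h2⟩ := h
  refine ⟨c, ?_, h2⟩
  change (a ||| b).testBit c = true
  rw [Nat.testBit_or, h1, Bool.true_or]

theorem mt_r {a b : ℕ} (h : MT B K τ b) : MT B K τ (Nat.lor a b) := by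
  obtain ⟨c, h1, h2⟩ := h
  refine ⟨c, ?_, h2⟩
  change (a ||| b).testBit c = true
  rw [Nat.testBit_or, h1, Bool.or_true]

theorem TOK.pos {T : ℕ} {val : ℕ → Prop} (h : TOK B K τ T val) {i : ℕ} (hv : val i) :
    MT B K τ (lk B T (Nat.mul 24 i)) := mt_lk ((h i).1 hv)

theorem TOK.neg {T : ℕ} {val : ℕ → Prop} (h : TOK B K τ T val) {i : ℕ} (hv : ¬ val i) :
    MT B K τ (lk B T (Nat.add (Nat.mul 24 i) 12)) := mt_lk ((h i).2 hv)

/-- the trivial mask -/
def tm (B : ℕ) : ℕ := Nat.shiftLeft 1 B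

theorem ct_zero (h0 : Zer B K τ) : CT B K τ B := Or.inl ⟨0, rfl, h0.lt, h0.t0⟩

theorem mt_tm (h0 : Zer B K τ) : MT B K τ (tm B) := by
  refine ⟨B, ?_, ct_zero h0⟩
  change (1 <<< B).testBit B = true
  rw [Nat.testBit_shiftLeft]
  simp

end basics

/-! ### fields -/

/-- the two fields of a variable -/
def F22 (T i : ℕ) : ℕ := Nat.land (Nat.shiftRight T (Nat.mul 24 i)) 16777215

theorem F22_eq (T i : ℕ) : F22 T i = (T >>> (24 * i)) % 2 ^ 24 := by
  change (T >>> (24 * i)) &&& (2 ^ 24 - 1) = _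
  rw [Nat.and_two_pow_sub_one_eq_mod]

theorem land4095 (a : ℕ) : Nat.land a 4095 = a % 2 ^ 12 := by
  change a &&& (2 ^ 12 - 1) = _
  rw [Nat.and_two_pow_sub_one_eq_mod]

theorem cd_pos (B T i : ℕ) : cd B T (24 * i) = B ^^^ (F22 T i % 4096) := by
  unfold cd
  rw [land4095, F22_eq]
  change B ^^^ ((T >>> (24 * i)) % 2 ^ 12) = _
  congr 1
  omega

theorem cd_neg (B T i : ℕ) : cd B T (24 * i + 12) = B ^^^ (F22 T i / 4096) := by
  unfold cd
  rw [land4095, F22_eq]
  change B ^^^ ((T >>> (24 * i + 12)) % 2 ^ 12) = _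
  congr 1
  rw [Nat.shiftRight_add, Nat.shiftRight_eq_div_pow _ 12]
  generalize T >>> (24 * i) = a
  omega

theorem F22_xor {T x i j : ℕ} (hx : x < 2 ^ 24) :
    F22 (Nat.xor T (Nat.shiftLeft x (Nat.mul 24 i))) j =
      if j = i then F22 T i ^^^ x else F22 T j := by
  rw [F22_eq]
  change ((T ^^^ (x <<< (24 * i))) >>> (24 * j)) % 2 ^ 24 = _
  apply Nat.eq_of_testBit_eq
  intro b
  rw [Nat.testBit_mod_two_pow, Nat.testBit_shiftRight, Nat.testBit_xor, Nat.testBit_shiftLeft]
  by_cases hb : b < 24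
  · split_ifs with hij
    · subst hij
      rw [Nat.testBit_xor, F22_eq, Nat.testBit_mod_two_pow, Nat.testBit_shiftRight]
      simp only [hb, decide_true, Bool.true_and]
      have : decide (24 * j + b ≥ 24 * j) = true := by simp
      rw [this, Bool.true_and, Nat.add_sub_cancel_left]
    · rw [F22_eq, Nat.testBit_mod_two_pow, Nat.testBit_shiftRight]
      simp only [hb, decide_true, Bool.true_and]
      rcases Nat.lt_or_ge j i with h | h
      · have : decide (24 * j + b ≥ 24 * i) = false := by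
          rw [decide_eq_false_iff_not]; omega
        rw [this, Bool.false_and, Bool.xor_false]
      · have h2 : x.testBit (24 * j + b - 24 * i) = false := by
          apply Nat.testBit_lt_two_pow
          refine lt_of_lt_of_le hx (Nat.pow_le_pow_right (by norm_num) (by omega))
        rw [h2, Bool.and_false, Bool.xor_false]
  · have h1 : decide (b < 24) = false := by rw [decide_eq_false_iff_not]; exact hb
    rw [h1, Bool.false_and]
    split_ifs with hij
    · subst hij
      have h2 : (F22 T j ^^^ x) < 2 ^ 24 := by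
        apply Nat.xor_lt_two_pow _ hx
        rw [F22_eq]
        exact Nat.mod_lt _ (by norm_num)
      rw [Nat.testBit_lt_two_pow (lt_of_lt_of_le h2 (Nat.pow_le_pow_right (by norm_num) (by omega)))]
    · have h2 : F22 T j < 2 ^ 24 := by
        rw [F22_eq]
        exact Nat.mod_lt _ (by norm_num)
      rw [Nat.testBit_lt_two_pow (lt_of_lt_of_le h2 (Nat.pow_le_pow_right (by norm_num) (by omega)))]

/-- store `c` in the fields of the variable `i` -/
def set22 (T i c : ℕ) : ℕ :=
  Nat.xor T (Nat.shiftLeft (Nat.xor (Nat.land (Nat.shiftRight T (Nat.mul 24 i)) 16777215) c)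
    (Nat.mul 24 i))

theorem F22_set22 {T i j c : ℕ} (hc : c < 2 ^ 24) :
    F22 (set22 T i c) j = if j = i then c else F22 T j := by
  have h1 : F22 T i < 2 ^ 24 := by rw [F22_eq]; exact Nat.mod_lt _ (by norm_num)
  have h2 : (F22 T i ^^^ c) < 2 ^ 24 := Nat.xor_lt_two_pow h1 hc
  unfold set22
  have := F22_xor (T := T) (x := F22 T i ^^^ c) (i := i) (j := j) h2
  refine this.trans ?_
  split_ifs
  · rw [← Nat.xor_assoc, Nat.xor_self, Nat.zero_xor]
  · rfl

/-- the stored value of a local variable -/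
def locC (B K n : ℕ) : ℕ :=
  Nat.add (Nat.xor B (Nat.add B n)) (Nat.shiftLeft (Nat.xor B (Nat.sub (Nat.sub K B) n)) 12)

section set

variable {B K : ℕ} {τ : ℕ → Prop}

theorem TOK.set {T : ℕ} {val : ℕ → Prop} (h : TOK B K τ T val) {i c : ℕ} (hc : c < 2 ^ 24)
    (h1 : val i → CT B K τ (B ^^^ (c % 4096))) (h2 : ¬ val i → CT B K τ (B ^^^ (c / 4096))) :
    TOK B K τ (set22 T i c) val := by
  intro j
  rw [cd_pos, cd_neg, F22_set22 hc]
  by_cases hj : j = i
  · rw [if_pos hj, hj]
    exact ⟨h1, h2⟩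
  · rw [if_neg hj]
    have := h j
    rw [cd_pos, cd_neg] at this
    exact this

theorem xor_xor_self (a b : ℕ) : a ^^^ (a ^^^ b) = b := by
  rw [← Nat.xor_assoc, Nat.xor_self, Nat.zero_xor]

theorem locC_spec {n : ℕ} (hK : K < 4096) (hn : 2 * B + n ≤ K) :
    locC B K n < 2 ^ 24 ∧ B ^^^ (locC B K n % 4096) = B + n ∧
      B ^^^ (locC B K n / 4096) = K - B - n := by
  have h1 : B ^^^ (B + n) < 2 ^ 12 := Nat.xor_lt_two_pow (by omega) (by omega)
  have h2 : B ^^^ (K - B - n) < 2 ^ 12 := Nat.xor_lt_two_pow (by omega) (by omega)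
  have e : locC B K n = (B ^^^ (B + n)) + (B ^^^ (K - B - n)) * 2 ^ 12 := by
    change (B ^^^ (B + n)) + (B ^^^ (K - B - n)) <<< 12 = _
    rw [Nat.shiftLeft_eq]
  have e1 : locC B K n % 4096 = B ^^^ (B + n) := by rw [e]; omega
  have e2 : locC B K n / 4096 = B ^^^ (K - B - n) := by rw [e]; omega
  refine ⟨by rw [e]; omega, ?_, ?_⟩
  · rw [e1, xor_xor_self]
  · rw [e2, xor_xor_self]

theorem TOK.setLoc {T : ℕ} {val : ℕ → Prop} (h : TOK B K τ T val) {i n : ℕ} (hK : K < 4096)
    (hn : 2 * (B + n) < K) (hτ : τ n ↔ val i) : TOK B K τ (set22 T i (locC B K n)) val := by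
  obtain ⟨h1, h2, h3⟩ := locC_spec (B := B) (n := n) hK (by omega)
  refine h.set h1 (fun hv => ?_) (fun hv => ?_)
  · rw [h2]
    exact Or.inl ⟨n, rfl, hn, hτ.2 hv⟩
  · rw [h3]
    exact Or.inr ⟨n, by omega, by omega, fun h => hv (hτ.1 h)⟩

/-- store a variable that is known to be true -/
theorem TOK.setTrue {T : ℕ} {val : ℕ → Prop} (h : TOK B K τ T val) {i : ℕ} (hB : B < 4096)
    (h0 : Zer B K τ) (hv : val i) : TOK B K τ (set22 T i (Nat.shiftLeft B 12)) val := by
  have e : Nat.shiftLeft B 12 = B * 2 ^ 12 := Nat.shiftLeft_eq B 12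
  refine h.set (by rw [e]; omega) (fun _ => ?_) (fun h => absurd hv h)
  have : Nat.shiftLeft B 12 % 4096 = 0 := by rw [e]; omega
  rw [this, Nat.xor_zero]
  exact ct_zero h0

/-- store a variable that is known to be false -/
theorem TOK.setFalse {T : ℕ} {val : ℕ → Prop} (h : TOK B K τ T val) {i : ℕ} (hB : B < 4096)
    (h0 : Zer B K τ) (hv : ¬ val i) : TOK B K τ (set22 T i B) val := by
  refine h.set (by omega) (fun h => absurd h hv) (fun _ => ?_)
  have : B / 4096 = 0 := by omega
  rw [this, Nat.xor_zero]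
  exact ct_zero h0

theorem tok_zero {val : ℕ → Prop} (h0 : Zer B K τ) : TOK B K τ 0 val := by
  intro i
  have : F22 0 i = 0 := by rw [F22_eq]; simp
  rw [cd_pos, cd_neg, this]
  simp only [Nat.zero_mod, Nat.zero_div, Nat.xor_zero]
  exact ⟨fun _ => ct_zero h0, fun _ => ct_zero h0⟩

end set

end Pool.Agent.Work.MP_92a29d_co_h45
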