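import Pool.Agent.Work.MP_92a29d_co_h45.Tab

/-!
Words: compact names of the clauses, their masks and the soundness of the masks.
-/

set_option autoImplicit false

namespace Pool.Agent.Work.MP_92a29d_co_h45

/-- positive literal of the variable with index `k` -/
def pl (B T k : ℕ) : ℕ := lk B T (Nat.mul 24 k)

/-- negative literal of the variable with index `k` -/
def nl (B T k : ℕ) : ℕ := lk B T (Nat.add (Nat.mul 24 k) 12)

/-- bit test -/
def tb (m k : ℕ) : Bool := Nat.beq (Nat.land (Nat.shiftRight m k) 1) 1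

/-- conditional -/
def ite' (c : Bool) (a b : ℕ) : ℕ := Bool.rec (motive := fun _ => ℕ) b a c

/-- info of a coded class (bit masks of vertices / labels) -/
structure CInfo where
  /-- vertices whose label is not `0` -/
  nz : ℕ
  /-- vertices whose label is `0` -/
  sp : ℕ
  /-- vertices with an odd label -/
  od : ℕ
  /-- vertices with an even positive label -/
  ev : ℕ
  /-- labels taken at most once -/
  s1 : ℕ
  /-- labels taken at most twice -/
  s2 : ℕ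
  /-- labels taken by some vertex -/
  ne : ℕ
  /-- largest label -/
  top : ℕ

/-- all tables and infos -/
structure Tab where
  e : List ℕ
  w : List ℕ
  x : List ℕ
  a : List ℕ
  d : List ℕ
  q : List ℕ

def Tab.E (t : Tab) (i : ℕ) : ℕ := t.e.getD i 0
def Tab.W (t : Tab) (i : ℕ) : ℕ := t.w.getD i 0
def Tab.X (t : Tab) (i : ℕ) : ℕ := t.x.getD i 0
def Tab.A (t : Tab) (i : ℕ) : ℕ := t.a.getD i 0
def Tab.D (t : Tab) (i : ℕ) : ℕ := t.d.getD i 0
def Tab.Q (t : Tab) (i : ℕ) : ℕ := t.q.getD i 0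

section vals

variable (M : Model) (i k : ℕ)

def vE : Prop := M.adj i (k / 17) (k % 17)
def vW : Prop := ∃ w, w < 17 ∧ M.adj i (k / 17) w ∧ M.adj i w (k % 17)
def vX : Prop := k % 32 ≤ M.lab i (k / 32)
def vA : Prop := M.lab i (k / 32) = k % 32
def vD : Prop := k % 32 ≤ M.lab i (k / 32 + 1) ∧ ¬ k % 32 ≤ M.lab i (k / 32)
def vQ : Prop := ∀ j, j ≤ i → M.lab j k = M.lab j (k + 1)

end vals

/-- meaning of the tables -/
structure TabOK (M : Model) (B K : ℕ) (τ : ℕ → Prop) (t : Tab) : Prop where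
  e : ∀ i, TOK B K τ (t.E i) (vE M i)
  w : ∀ i, TOK B K τ (t.W i) (vW M i)
  x : ∀ i, TOK B K τ (t.X i) (vX M i)
  a : ∀ i, TOK B K τ (t.A i) (vA M i)
  d : ∀ i, TOK B K τ (t.D i) (vD M i)
  q : ∀ i, TOK B K τ (t.Q i) (vQ M i)

/-- meaning of the infos -/
structure CInfoOK (I : Inst) (M : Model) (i : ℕ) (c : CInfo) : Prop where
  nz : ∀ u, u < 17 → tb c.nz u = true → M.lab i u ≠ 0
  sp : ∀ u, u < 17 → tb c.sp u = true → M.lab i u = 0
  od : ∀ u, u < 17 → tb c.od u = true → M.lab i u % 2 = 1 ∧ M.lab i u ≤ 16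
  ev : ∀ u, u < 17 → tb c.ev u = true → M.lab i u % 2 = 0 ∧ M.lab i u ≠ 0 ∧ M.lab i u ≤ 16
  s1 : ∀ a, tb c.s1 a = true → ∀ u v, u < 17 → v < 17 → u ≠ v → M.lab i u ≠ a ∨ M.lab i v ≠ a
  s2 : ∀ a, tb c.s2 a = true → ∀ u v w, u < 17 → v < 17 → w < 17 → u ≠ v → u ≠ w → v ≠ w →
    M.lab i u ≠ a ∨ M.lab i v ≠ a ∨ M.lab i w ≠ a
  ne : ∀ a, tb c.ne a = true → ∃ u, u < 17 ∧ M.lab i u = a
  top : ∀ m, I.kind i = .lev m → c.top = 2 * m + 2

section fams

variable {I : Inst} {M : Model} {B K : ℕ} {τ : ℕ → Prop}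

theorem TOK.pl {T : ℕ} {val : ℕ → Prop} (h : TOK B K τ T val) {i : ℕ} (hv : val i) :
    MT B K τ (pl B T i) := h.pos hv

theorem TOK.nl {T : ℕ} {val : ℕ → Prop} (h : TOK B K τ T val) {i : ℕ} (hv : ¬ val i) :
    MT B K τ (nl B T i) := h.neg hv

theorem mt_ite {c : Bool} {a b : ℕ} (h1 : c = true → MT B K τ a) (h2 : MT B K τ b) :
    MT B K τ (ite' c a b) := by
  cases c
  · exact h2
  · exact h1 rfl

/-! #### indices of pairs -/

/-- three vertices of a word -/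
theorem tri_idx (w : ℕ) : ∃ a b c, a < 17 ∧ b < 17 ∧ c < 17 ∧
    Nat.mod w 289 = 17 * b + a ∧ Nat.mod (Nat.div w 17) 289 = 17 * c + b ∧
    Nat.add (Nat.mul 17 (Nat.mod (Nat.div w 289) 17)) (Nat.mod w 17) = 17 * c + a := by
  refine ⟨w % 17, w / 17 % 17, w / 289 % 17, Nat.mod_lt _ (by norm_num),
    Nat.mod_lt _ (by norm_num), Nat.mod_lt _ (by norm_num), ?_, ?_, ?_⟩
  · change w % 289 = _
    omega
  · change (w / 17) % 289 = _
    omega
  · rfl

theorem vE_mk {i a b : ℕ} (ha : a < 17) : vE M i (17 * b + a) ↔ M.adj i b a := by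
  unfold vE
  have h1 : (17 * b + a) / 17 = b := by omega
  have h2 : (17 * b + a) % 17 = a := by omega
  rw [h1, h2]

theorem vW_mk {i a b : ℕ} (ha : a < 17) :
    vW M i (17 * b + a) ↔ ∃ w, w < 17 ∧ M.adj i b w ∧ M.adj i w a := by
  unfold vW
  have h1 : (17 * b + a) / 17 = b := by omega
  have h2 : (17 * b + a) % 17 = a := by omega
  rw [h1, h2]

/-- three negative literals -/
def f3 (B T1 T2 T3 w : ℕ) : ℕ :=
  Nat.lor (Nat.lor (nl B T1 (Nat.mod w 289)) (nl B T2 (Nat.mod (Nat.div w 17) 289)))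
    (nl B T3 (Nat.add (Nat.mul 17 (Nat.mod (Nat.div w 289) 17)) (Nat.mod w 17)))

theorem f3_sound {T1 T2 T3 : ℕ} {v1 v2 v3 : ℕ → Prop} (h1 : TOK B K τ T1 v1)
    (h2 : TOK B K τ T2 v2) (h3 : TOK B K τ T3 v3) (w : ℕ)
    (h : ∀ a b c, a < 17 → b < 17 → c < 17 →
      v1 (17 * b + a) → v2 (17 * c + b) → v3 (17 * c + a) → False) :
    MT B K τ (f3 B T1 T2 T3 w) := by
  obtain ⟨a, b, c, ha, hb, hc, e1, e2, e3⟩ := tri_idx w
  unfold f3
  rw [e1, e2, e3]
  by_cases p1 : v1 (17 * b + a)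
  · by_cases p2 : v2 (17 * c + b)
    · exact mt_r (h3.nl (fun p3 => h a b c ha hb hc p1 p2 p3))
    · exact mt_l (mt_r (h2.nl p2))
  · exact mt_l (mt_l (h1.nl p1))

/-- two negative literals of `TE` and the positive one of `TW` in the third place -/
def w2R (B TE TW w : ℕ) : ℕ :=
  Nat.lor (Nat.lor (nl B TE (Nat.mod w 289)) (nl B TE (Nat.mod (Nat.div w 17) 289)))
    (pl B TW (Nat.add (Nat.mul 17 (Nat.mod (Nat.div w 289) 17)) (Nat.mod w 17)))

/-- the same, first place -/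
def w2P (B TE TW w : ℕ) : ℕ :=
  Nat.lor (Nat.lor (pl B TW (Nat.mod w 289)) (nl B TE (Nat.mod (Nat.div w 17) 289)))
    (nl B TE (Nat.add (Nat.mul 17 (Nat.mod (Nat.div w 289) 17)) (Nat.mod w 17)))

/-- the same, second place -/
def w2Q (B TE TW w : ℕ) : ℕ :=
  Nat.lor (Nat.lor (nl B TE (Nat.mod w 289)) (pl B TW (Nat.mod (Nat.div w 17) 289)))
    (nl B TE (Nat.add (Nat.mul 17 (Nat.mod (Nat.div w 289) 17)) (Nat.mod w 17)))

theorem w2_sound (hM : IsModel I M) {TE TW i : ℕ} (hE : TOK B K τ TE (vE M i))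
    (hW : TOK B K τ TW (vW M i)) (w : ℕ) :
    MT B K τ (w2R B TE TW w) ∧ MT B K τ (w2P B TE TW w) ∧ MT B K τ (w2Q B TE TW w) := by
  obtain ⟨a, b, c, ha, hb, hc, e1, e2, e3⟩ := tri_idx w
  unfold w2R w2P w2Q
  rw [e1, e2, e3]
  have s := fun u v => hM.symm i u v
  refine ⟨?_, ?_, ?_⟩
  · by_cases p1 : vE M i (17 * b + a)
    · by_cases p2 : vE M i (17 * c + b)
      · refine mt_r (hW.pl ((vW_mk ha).2 ⟨b, hb, (vE_mk hb).1 p2, (vE_mk ha).1 p1⟩))
      · exact mt_l (mt_r (hE.nl p2))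
    · exact mt_l (mt_l (hE.nl p1))
  · by_cases p1 : vE M i (17 * c + b)
    · by_cases p2 : vE M i (17 * c + a)
      · refine mt_l (mt_l (hW.pl ((vW_mk ha).2 ⟨c, hc, s _ _ ((vE_mk hb).1 p1), (vE_mk ha).1 p2⟩)))
      · exact mt_r (hE.nl p2)
    · exact mt_l (mt_r (hE.nl p1))
  · by_cases p1 : vE M i (17 * b + a)
    · by_cases p2 : vE M i (17 * c + a)
      · refine mt_l (mt_r (hW.pl ((vW_mk hb).2 ⟨a, ha, (vE_mk ha).1 p2, s _ _ ((vE_mk ha).1 p1)⟩)))
      · exact mt_r (hE.nl p2)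
    · exact mt_l (mt_l (hE.nl p1))

/-- triangle -/
theorem tri_sound (hM : IsModel I M) {TE i m : ℕ} (hk : I.kind i = .expl m) (hm : 1 ≤ m)
    (hE : TOK B K τ TE (vE M i)) (w : ℕ) : MT B K τ (f3 B TE TE TE w) :=
  f3_sound hE hE hE w fun a b c ha hb hc p1 p2 p3 =>
    hM.three i m hk hm c b a hc hb ha ((vE_mk hb).1 p2) ((vE_mk ha).1 p1)
      (hM.symm _ _ _ ((vE_mk ha).1 p3))

/-- pentagon clauses: the edge in the first, second, third place -/
theorem w5_sound (hM : IsModel I M) {TE TW i m : ℕ} (hk : I.kind i = .expl m) (hm : 2 ≤ m)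
    (hE : TOK B K τ TE (vE M i)) (hW : TOK B K τ TW (vW M i)) (w : ℕ) :
    MT B K τ (f3 B TE TW TW w) ∧ MT B K τ (f3 B TW TE TW w) ∧ MT B K τ (f3 B TW TW TE w) := by
  have s := fun u v => hM.symm i u v
  refine ⟨f3_sound hE hW hW w ?_, f3_sound hW hE hW w ?_, f3_sound hW hW hE w ?_⟩
  · intro a b c ha hb hc p1 p2 p3
    rw [vE_mk ha] at p1
    rw [vW_mk hb] at p2
    rw [vW_mk ha] at p3
    obtain ⟨x, hx, q1, q2⟩ := p2
    obtain ⟨y, hy, q3, q4⟩ := p3
    exact hM.penta i m hk hm c x b a y hc hx hb ha hy q1 q2 p1 (s _ _ q4) (s _ _ q3)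
  · intro a b c ha hb hc p1 p2 p3
    rw [vW_mk ha] at p1
    rw [vE_mk hb] at p2
    rw [vW_mk ha] at p3
    obtain ⟨x, hx, q1, q2⟩ := p1
    obtain ⟨y, hy, q3, q4⟩ := p3
    exact hM.penta i m hk hm a x b c y ha hx hb hc hy (s _ _ q2) (s _ _ q1) (s _ _ p2) q3 q4
  · intro a b c ha hb hc p1 p2 p3
    rw [vW_mk ha] at p1
    rw [vW_mk hb] at p2
    rw [vE_mk ha] at p3
    obtain ⟨x, hx, q1, q2⟩ := p1
    obtain ⟨y, hy, q3, q4⟩ := p2
    exact hM.penta i m hk hm b x a c y hb hx ha hc hy q1 q2 (s _ _ p3) q3 q4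

/-- an edge is not a walk of length two -/
def w3 (B TE TW w : ℕ) : ℕ := Nat.lor (nl B TE (Nat.mod w 289)) (nl B TW (Nat.mod w 289))

theorem w3_sound (hM : IsModel I M) {TE TW i m : ℕ} (hk : I.kind i = .expl m) (hm : 1 ≤ m)
    (hE : TOK B K τ TE (vE M i)) (hW : TOK B K τ TW (vW M i)) (w : ℕ) :
    MT B K τ (w3 B TE TW w) := by
  obtain ⟨a, b, c, ha, hb, hc, e1, _, _⟩ := tri_idx w
  unfold w3
  rw [e1]
  by_cases p1 : vE M i (17 * b + a)
  · refine mt_r (hW.nl fun p2 => ?_)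
    rw [vE_mk ha] at p1
    rw [vW_mk ha] at p2
    obtain ⟨x, hx, q1, q2⟩ := p2
    exact hM.three i m hk hm b x a hb hx ha q1 q2 (hM.symm _ _ _ p1)
  · exact mt_l (hE.nl p1)

/-- covering of a pair -/
def cov (B T0 T1 T2 T3 w : ℕ) : ℕ :=
  ite' (Nat.beq (Nat.mod w 17) (Nat.mod (Nat.div w 17) 17)) (tm B)
    (Nat.lor (Nat.lor (pl B T0 (Nat.mod w 289)) (pl B T1 (Nat.mod w 289)))
      (Nat.lor (pl B T2 (Nat.mod w 289)) (pl B T3 (Nat.mod w 289))))

theorem cov_sound (hM : IsModel I M) (h0 : Zer B K τ) {T0 T1 T2 T3 : ℕ} (hE0 : TOK B K τ T0 (vE M 0))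
    (hE1 : TOK B K τ T1 (vE M 1)) (hE2 : TOK B K τ T2 (vE M 2)) (hE3 : TOK B K τ T3 (vE M 3))
    (w : ℕ) : MT B K τ (cov B T0 T1 T2 T3 w) := by
  unfold cov
  rcases hb : Nat.beq (Nat.mod w 17) (Nat.mod (Nat.div w 17) 17) with _ | _
  · have hne : w % 17 ≠ w / 17 % 17 := by
      intro he
      change Nat.beq (w % 17) (w / 17 % 17) = false at hb
      rw [he, Nat.beq_refl] at hb
      exact Bool.noConfusion hb
    have e1 : Nat.mod w 289 = 17 * (w / 17 % 17) + w % 17 := by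
      change w % 289 = _
      omega
    have ha : w % 17 < 17 := Nat.mod_lt _ (by norm_num)
    have hb : w / 17 % 17 < 17 := Nat.mod_lt _ (by norm_num)
    have hex : ∃ i, i < 4 ∧ M.adj i (w / 17 % 17) (w % 17) := by
      rcases Nat.lt_or_ge (w % 17) (w / 17 % 17) with h | h
      · obtain ⟨i, hi, h2⟩ := hM.cover _ _ h hb
        exact ⟨i, hi, hM.symm _ _ _ h2⟩
      · exact hM.cover _ _ (by omega) ha
    obtain ⟨i, hi, h2⟩ := hex
    rw [e1]
    change MT B K τ (Nat.lor (Nat.lor _ _) (Nat.lor _ _))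
    have : i = 0 ∨ i = 1 ∨ i = 2 ∨ i = 3 := by omega
    rcases this with rfl | rfl | rfl | rfl
    · exact mt_l (mt_l (hE0.pl ((vE_mk ha).2 h2)))
    · exact mt_l (mt_r (hE1.pl ((vE_mk ha).2 h2)))
    · exact mt_r (mt_l (hE2.pl ((vE_mk ha).2 h2)))
    · exact mt_r (mt_r (hE3.pl ((vE_mk ha).2 h2)))
  · exact mt_tm h0

/-! #### five-sets -/

/-- literals of a pair in two classes -/
def pr (B T1 T2 u v : ℕ) : ℕ :=
  Nat.lor (pl B T1 (Nat.add (Nat.mul 17 v) u)) (pl B T2 (Nat.add (Nat.mul 17 v) u))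

/-- five vertices -/
def fiveM (B T1 T2 a b c d e : ℕ) : ℕ :=
  ite' (Nat.ble e 16)
    (Nat.lor (Nat.lor (Nat.lor (Nat.lor (Nat.lor (Nat.lor (Nat.lor (Nat.lor (Nat.lor
      (pr B T1 T2 a b) (pr B T1 T2 a c)) (pr B T1 T2 a d)) (pr B T1 T2 a e))
      (pr B T1 T2 b c)) (pr B T1 T2 b d)) (pr B T1 T2 b e)) (pr B T1 T2 c d))
      (pr B T1 T2 c e)) (pr B T1 T2 d e))
    (tm B)

/-- the five-set of a word: nibbles are the gaps -/
def five (B T1 T2 w : ℕ) : ℕ :=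
  (fun a => (fun b => (fun c => (fun d => fiveM B T1 T2 a b c d
      (Nat.add (Nat.succ d) (Nat.mod (Nat.shiftRight w 16) 16)))
    (Nat.add (Nat.succ c) (Nat.mod (Nat.shiftRight w 12) 16)))
    (Nat.add (Nat.succ b) (Nat.mod (Nat.shiftRight w 8) 16)))
    (Nat.add (Nat.succ a) (Nat.mod (Nat.shiftRight w 4) 16)))
    (Nat.mod w 16)

theorem fiveM_sound (h0 : Zer B K τ) {T1 T2 i j : ℕ} (hM : IsModel I M) (hij : (i, j) ∈ I.five)
    (h1 : TOK B K τ T1 (vE M i)) (h2 : TOK B K τ T2 (vE M j)) {a b c d e : ℕ}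
    (hab : a < b) (hbc : b < c) (hcd : c < d) (hde : d < e) :
    MT B K τ (fiveM B T1 T2 a b c d e) := by
  refine mt_ite (fun he => ?_) (mt_tm h0)
  have he : e ≤ 16 := Nat.le_of_ble_eq_true he
  obtain ⟨u, hu, v, hv, huv, h⟩ := hM.five i j hij [a, b, c, d, e] (by
      simp only [List.nodup_cons, List.mem_cons, List.not_mem_nil, or_false, not_or,
        List.nodup_nil, and_true, not_false_eq_true]
      omega) rfl (by
      intro u hu
      simp only [List.mem_cons, List.not_mem_nil, or_false] at hu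
      omega)
  have key : MT B K τ (pr B T1 T2 u v) := by
    have hu17 : u < 17 := by
      simp only [List.mem_cons, List.not_mem_nil, or_false] at hu
      omega
    rcases h with h | h
    · exact mt_l (h1.pl ((vE_mk hu17).2 (hM.symm _ _ _ h)))
    · exact mt_r (h2.pl ((vE_mk hu17).2 (hM.symm _ _ _ h)))
  simp only [List.mem_cons, List.not_mem_nil, or_false] at hu hv
  rcases hu with rfl | rfl | rfl | rfl | rfl <;> rcases hv with rfl | rfl | rfl | rfl | rfl <;>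
    first
    | (exfalso; omega)
    | exact mt_r key
    | exact mt_l (mt_r key)
    | exact mt_l (mt_l (mt_r key))
    | exact mt_l (mt_l (mt_l (mt_r key)))
    | exact mt_l (mt_l (mt_l (mt_l (mt_r key))))
    | exact mt_l (mt_l (mt_l (mt_l (mt_l (mt_r key)))))
    | exact mt_l (mt_l (mt_l (mt_l (mt_l (mt_l (mt_r key))))))
    | exact mt_l (mt_l (mt_l (mt_l (mt_l (mt_l (mt_l (mt_r key)))))))
    | exact mt_l (mt_l (mt_l (mt_l (mt_l (mt_l (mt_l (mt_l (mt_r key))))))))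
    | exact mt_l (mt_l (mt_l (mt_l (mt_l (mt_l (mt_l (mt_l (mt_l key))))))))

theorem five_sound (h0 : Zer B K τ) {T1 T2 i j : ℕ} (hM : IsModel I M) (hij : (i, j) ∈ I.five)
    (h1 : TOK B K τ T1 (vE M i)) (h2 : TOK B K τ T2 (vE M j)) (w : ℕ) :
    MT B K τ (five B T1 T2 w) := by
  exact fiveM_sound h0 hM hij h1 h2
    (Nat.lt_of_lt_of_le (Nat.lt_succ_self _) (Nat.le_add_right _ _))
    (Nat.lt_of_lt_of_le (Nat.lt_succ_self _) (Nat.le_add_right _ _))
    (Nat.lt_of_lt_of_le (Nat.lt_succ_self _) (Nat.le_add_right _ _))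
    (Nat.lt_of_lt_of_le (Nat.lt_succ_self _) (Nat.le_add_right _ _))

end fams

end Pool.Agent.Work.MP_92a29d_co_h45
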