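import Pool.Agent.Work.MP_92a29d_co_h45.Words

/-!
Words of the coded classes.
-/

set_option autoImplicit false

namespace Pool.Agent.Work.MP_92a29d_co_h45

section fams

variable {I : Inst} {M : Model} {B K : ℕ} {τ : ℕ → Prop}

theorem vX_mk {i u a : ℕ} (ha : a < 32) : vX M i (32 * u + a) ↔ a ≤ M.lab i u := by
  unfold vX
  have h1 : (32 * u + a) / 32 = u := by omega
  have h2 : (32 * u + a) % 32 = a := by omega
  rw [h1, h2]

theorem vA_mk {i u a : ℕ} (ha : a < 32) : vA M i (32 * u + a) ↔ M.lab i u = a := by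
  unfold vA
  have h1 : (32 * u + a) / 32 = u := by omega
  have h2 : (32 * u + a) % 32 = a := by omega
  rw [h1, h2]

theorem vD_mk {i u a : ℕ} (ha : a < 32) :
    vD M i (32 * u + a) ↔ a ≤ M.lab i (u + 1) ∧ ¬ a ≤ M.lab i u := by
  unfold vD
  have h1 : (32 * u + a) / 32 = u := by omega
  have h2 : (32 * u + a) % 32 = a := by omega
  rw [h1, h2]

/-- index of vertex `u` and label `a` -/
def ix (u a : ℕ) : ℕ := Nat.add (Nat.mul 32 u) a

/-- `label ≥ a + 2` implies `label ≥ a` (`a = w % 16`, vertex `w / 16`) -/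
def ordW (B TX w : ℕ) : ℕ :=
  Nat.lor (nl B TX (ix (Nat.div w 16) (Nat.add (Nat.mod w 16) 2)))
    (pl B TX (ix (Nat.div w 16) (Nat.mod w 16)))

theorem ordW_sound {TX i : ℕ} (hX : TOK B K τ TX (vX M i)) (w : ℕ) :
    MT B K τ (ordW B TX w) := by
  have h1 : w % 16 < 16 := Nat.mod_lt _ (by norm_num)
  by_cases p : vX M i (32 * (w / 16) + (w % 16 + 2))
  · rw [vX_mk (by omega)] at p
    refine mt_r (hX.pl ?_)
    change vX M i (32 * (w / 16) + (w % 16))
    rw [vX_mk (by omega)]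
    omega
  · exact mt_l (hX.nl p)

/-- adjacency: `q` at level `≥ b + 1` implies `p` at level `≥ b`; word `b + 16 (p + 17 q)` -/
def adjA (B TE TX nz w : ℕ) : ℕ :=
  ite' (tb nz (Nat.mod (Nat.div w 16) 17))
    (Nat.lor (Nat.lor
      (nl B TE (Nat.mod (Nat.div w 16) 289))
      (nl B TX (ix (Nat.mod (Nat.div w 272) 17) (Nat.add (Nat.mod w 16) 1))))
      (pl B TX (ix (Nat.mod (Nat.div w 16) 17) (Nat.mod w 16))))
    (tm B)

/-- the same with the other order of the pair -/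
def adjB (B TE TX nz w : ℕ) : ℕ :=
  ite' (tb nz (Nat.mod (Nat.div w 16) 17))
    (Nat.lor (Nat.lor
      (nl B TE (Nat.add (Nat.mul 17 (Nat.mod (Nat.div w 16) 17)) (Nat.mod (Nat.div w 272) 17)))
      (nl B TX (ix (Nat.mod (Nat.div w 272) 17) (Nat.add (Nat.mod w 16) 1))))
      (pl B TX (ix (Nat.mod (Nat.div w 16) 17) (Nat.mod w 16))))
    (tm B)

theorem adj_aux (hM : IsModel I M) {i m p q b : ℕ} (hi : i < I.k) (hk : I.kind i = .lev m)
    (hp : p < 17) (hq : q < 17) (h0 : M.lab i p ≠ 0) (hpq : M.adj i q p)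
    (hb : b + 1 ≤ M.lab i q) : b ≤ M.lab i p := by
  have := hM.coded i q p hi hq hp hpq
  rw [hk] at this
  change ladj m _ _ = true at this
  rw [ladj_iff] at this
  omega

theorem adjAB_sound (hM : IsModel I M) (h0 : Zer B K τ) {c : CInfo} {TE TX i m : ℕ} (hi : i < I.k)
    (hk : I.kind i = .lev m) (hc : CInfoOK I M i c) (hE : TOK B K τ TE (vE M i))
    (hX : TOK B K τ TX (vX M i)) (w : ℕ) :
    MT B K τ (adjA B TE TX c.nz w) ∧ MT B K τ (adjB B TE TX c.nz w) := by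
  have hp : w / 16 % 17 < 17 := Nat.mod_lt _ (by norm_num)
  have hq : w / 272 % 17 < 17 := Nat.mod_lt _ (by norm_num)
  have hb : w % 16 < 16 := Nat.mod_lt _ (by norm_num)
  have e1 : Nat.mod (Nat.div w 16) 289 = 17 * (w / 272 % 17) + w / 16 % 17 := by
    change w / 16 % 289 = _
    omega
  constructor
  · refine mt_ite (fun hnz => ?_) (mt_tm h0)
    rw [e1]
    by_cases p1 : vE M i (17 * (w / 272 % 17) + w / 16 % 17)
    · by_cases p2 : vX M i (32 * (w / 272 % 17) + (w % 16 + 1))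
      · refine mt_r (hX.pl ?_)
        rw [vE_mk hp] at p1
        rw [vX_mk (by omega)] at p2
        change vX M i (32 * (w / 16 % 17) + w % 16)
        rw [vX_mk (by omega)]
        exact adj_aux hM hi hk hp hq (hc.nz _ hp hnz) p1 p2
      · exact mt_l (mt_r (hX.nl p2))
    · exact mt_l (mt_l (hE.nl p1))
  · refine mt_ite (fun hnz => ?_) (mt_tm h0)
    by_cases p1 : vE M i (17 * (w / 16 % 17) + w / 272 % 17)
    · by_cases p2 : vX M i (32 * (w / 272 % 17) + (w % 16 + 1))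
      · refine mt_r (hX.pl ?_)
        rw [vE_mk hq] at p1
        rw [vX_mk (by omega)] at p2
        change vX M i (32 * (w / 16 % 17) + w % 16)
        rw [vX_mk (by omega)]
        exact adj_aux hM hi hk hp hq (hc.nz _ hp hnz) (hM.symm _ _ _ p1) p2
      · exact mt_l (mt_r (hX.nl p2))
    · exact mt_l (mt_l (hE.nl p1))

/-- edge to a vertex with label 0; word `p + 17 q`, `p` has label 0, `q` is odd -/
def zoA (B TE TX sp od w : ℕ) : ℕ :=
  ite' (and (tb sp (Nat.mod w 17)) (tb od (Nat.mod (Nat.div w 17) 17)))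
    (Nat.lor (nl B TE (Nat.mod w 289)) (nl B TX (ix (Nat.mod (Nat.div w 17) 17) 3)))
    (tm B)

def zoB (B TE TX sp od w : ℕ) : ℕ :=
  ite' (and (tb sp (Nat.mod w 17)) (tb od (Nat.mod (Nat.div w 17) 17)))
    (Nat.lor (nl B TE (Nat.add (Nat.mul 17 (Nat.mod w 17)) (Nat.mod (Nat.div w 17) 17)))
      (nl B TX (ix (Nat.mod (Nat.div w 17) 17) 3)))
    (tm B)

/-- the same, `q` is even -/
def zeA (B TE TX sp ev top w : ℕ) : ℕ :=
  ite' (and (tb sp (Nat.mod w 17)) (tb ev (Nat.mod (Nat.div w 17) 17)))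
    (Nat.lor (nl B TE (Nat.mod w 289)) (pl B TX (ix (Nat.mod (Nat.div w 17) 17) top)))
    (tm B)

def zeB (B TE TX sp ev top w : ℕ) : ℕ :=
  ite' (and (tb sp (Nat.mod w 17)) (tb ev (Nat.mod (Nat.div w 17) 17)))
    (Nat.lor (nl B TE (Nat.add (Nat.mul 17 (Nat.mod w 17)) (Nat.mod (Nat.div w 17) 17)))
      (pl B TX (ix (Nat.mod (Nat.div w 17) 17) top)))
    (tm B)

theorem z_aux (hM : IsModel I M) {i m p q : ℕ} (hi : i < I.k) (hk : I.kind i = .lev m)
    (hp : p < 17) (hq : q < 17) (h0 : M.lab i p = 0) (hpq : M.adj i q p) :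
    M.lab i q = 1 ∨ M.lab i q = 2 * m + 2 := by
  have := hM.coded i q p hi hq hp hpq
  rw [hk] at this
  change ladj m _ _ = true at this
  rw [ladj_iff] at this
  omega

theorem z_sound (hM : IsModel I M) (h0 : Zer B K τ) {c : CInfo} {TE TX i m : ℕ} (hi : i < I.k)
    (hk : I.kind i = .lev m) (hm : m ≤ 7) (hc : CInfoOK I M i c) (hE : TOK B K τ TE (vE M i))
    (hX : TOK B K τ TX (vX M i)) (w : ℕ) :
    (MT B K τ (zoA B TE TX c.sp c.od w) ∧ MT B K τ (zoB B TE TX c.sp c.od w)) ∧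
    (MT B K τ (zeA B TE TX c.sp c.ev c.top w) ∧ MT B K τ (zeB B TE TX c.sp c.ev c.top w)) := by
  have hp : w % 17 < 17 := Nat.mod_lt _ (by norm_num)
  have hq : w / 17 % 17 < 17 := Nat.mod_lt _ (by norm_num)
  have e1 : Nat.mod w 289 = 17 * (w / 17 % 17) + w % 17 := by
    change w % 289 = _
    omega
  have htop := hc.top m hk
  refine ⟨⟨?_, ?_⟩, ⟨?_, ?_⟩⟩
  · refine mt_ite (fun hb => ?_) (mt_tm h0)
    rw [Bool.and_eq_true] at hb
    rw [e1]
    by_cases p1 : vE M i (17 * (w / 17 % 17) + w % 17)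
    · refine mt_r (hX.nl ?_)
      rw [vE_mk hp] at p1
      change ¬ vX M i (32 * (w / 17 % 17) + 3)
      rw [vX_mk (by omega)]
      have h1 := z_aux hM hi hk hp hq (hc.sp _ hp hb.1) p1
      have h2 := (hc.od _ hq hb.2).1
      omega
    · exact mt_l (hE.nl p1)
  · refine mt_ite (fun hb => ?_) (mt_tm h0)
    rw [Bool.and_eq_true] at hb
    by_cases p1 : vE M i (17 * (w % 17) + w / 17 % 17)
    · refine mt_r (hX.nl ?_)
      rw [vE_mk hq] at p1
      change ¬ vX M i (32 * (w / 17 % 17) + 3)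
      rw [vX_mk (by omega)]
      have h1 := z_aux hM hi hk hp hq (hc.sp _ hp hb.1) (hM.symm _ _ _ p1)
      have h2 := (hc.od _ hq hb.2).1
      omega
    · exact mt_l (hE.nl p1)
  · refine mt_ite (fun hb => ?_) (mt_tm h0)
    rw [Bool.and_eq_true] at hb
    rw [e1]
    by_cases p1 : vE M i (17 * (w / 17 % 17) + w % 17)
    · refine mt_r (hX.pl ?_)
      rw [vE_mk hp] at p1
      change vX M i (32 * (w / 17 % 17) + c.top)
      rw [vX_mk (by omega)]
      have h1 := z_aux hM hi hk hp hq (hc.sp _ hp hb.1) p1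
      have h2 := (hc.ev _ hq hb.2).1
      omega
    · exact mt_l (hE.nl p1)
  · refine mt_ite (fun hb => ?_) (mt_tm h0)
    rw [Bool.and_eq_true] at hb
    by_cases p1 : vE M i (17 * (w % 17) + w / 17 % 17)
    · refine mt_r (hX.pl ?_)
      rw [vE_mk hq] at p1
      change vX M i (32 * (w / 17 % 17) + c.top)
      rw [vX_mk (by omega)]
      have h1 := z_aux hM hi hk hp hq (hc.sp _ hp hb.1) (hM.symm _ _ _ p1)
      have h2 := (hc.ev _ hq hb.2).1
      omega
    · exact mt_l (hE.nl p1)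

/-- the label of `u` is not `a` (labels with the parity of `a`) -/
def neX (B TX u a : ℕ) : ℕ := Nat.lor (nl B TX (ix u a)) (pl B TX (ix u (Nat.add a 2)))

theorem neX_sound {TX i u a : ℕ} (hX : TOK B K τ TX (vX M i)) (ha : a < 30)
    (hp : M.lab i u % 2 = a % 2) (h : M.lab i u ≠ a) : MT B K τ (neX B TX u a) := by
  by_cases p : a ≤ M.lab i u
  · refine mt_r (hX.pl ?_)
    change vX M i (32 * u + (a + 2))
    rw [vX_mk (by omega)]
    omega
  · refine mt_l (hX.nl ?_)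
    change ¬ vX M i (32 * u + a)
    rw [vX_mk (by omega)]
    exact p

/-- label of a word: `par + 2 (w % 8)` -/
def la (par w : ℕ) : ℕ := Nat.add par (Nat.mul 2 (Nat.mod w 8))

/-- at most one vertex with a label; word `t + 8 (u + 17 v)` -/
def sz1 (B TX par pm s1 w : ℕ) : ℕ :=
  ite' (and (and (tb s1 (la par w)) (not (Nat.beq (Nat.mod (Nat.div w 8) 17)
      (Nat.mod (Nat.div w 136) 17))))
    (and (tb pm (Nat.mod (Nat.div w 8) 17)) (tb pm (Nat.mod (Nat.div w 136) 17))))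
    (Nat.lor (neX B TX (Nat.mod (Nat.div w 8) 17) (la par w))
      (neX B TX (Nat.mod (Nat.div w 136) 17) (la par w)))
    (tm B)

/-- at most two vertices; word `t + 8 (u + 17 (v + 17 z))` -/
def sz2 (B TX par pm s2 w : ℕ) : ℕ :=
  ite' (and (and (and (tb s2 (la par w)) (not (Nat.beq (Nat.mod (Nat.div w 8) 17)
      (Nat.mod (Nat.div w 136) 17)))) (and (not (Nat.beq (Nat.mod (Nat.div w 8) 17)
      (Nat.mod (Nat.div w 2312) 17))) (not (Nat.beq (Nat.mod (Nat.div w 136) 17)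
      (Nat.mod (Nat.div w 2312) 17)))))
    (and (and (tb pm (Nat.mod (Nat.div w 8) 17)) (tb pm (Nat.mod (Nat.div w 136) 17)))
      (tb pm (Nat.mod (Nat.div w 2312) 17))))
    (Nat.lor (Nat.lor (neX B TX (Nat.mod (Nat.div w 8) 17) (la par w))
      (neX B TX (Nat.mod (Nat.div w 136) 17) (la par w)))
      (neX B TX (Nat.mod (Nat.div w 2312) 17) (la par w)))
    (tm B)

theorem not_beq {a b : ℕ} (h : (!Nat.beq a b) = true) : a ≠ b := by
  rintro rfl
  rw [Nat.beq_refl] at h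
  exact Bool.noConfusion h

/-- the parity mask of a class -/
def PM (M : Model) (i par pm : ℕ) : Prop :=
  ∀ u, u < 17 → tb pm u = true → M.lab i u % 2 = par % 2 ∧ M.lab i u ≤ 16 ∧ par ≤ M.lab i u

theorem sz1_sound (h0 : Zer B K τ) {c : CInfo} {TX i par pm : ℕ} (hpar : par ≤ 2)
    (hc : CInfoOK I M i c) (hpm : PM M i par pm)
    (hX : TOK B K τ TX (vX M i)) (w : ℕ) : MT B K τ (sz1 B TX par pm c.s1 w) := by
  refine mt_ite (fun hb => ?_) (mt_tm h0)
  rw [Bool.and_eq_true, Bool.and_eq_true, Bool.and_eq_true] at hb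
  obtain ⟨⟨h1, h2⟩, h3, h4⟩ := hb
  have hu : w / 8 % 17 < 17 := Nat.mod_lt _ (by norm_num)
  have hv : w / 136 % 17 < 17 := Nat.mod_lt _ (by norm_num)
  have ht : w % 8 < 8 := Nat.mod_lt _ (by norm_num)
  have ha : la par w = par + 2 * (w % 8) := rfl
  have hne := not_beq h2
  rcases hc.s1 _ h1 _ _ hu hv hne with h | h
  · exact mt_l (neX_sound hX (by omega) (show M.lab i (w / 8 % 17) % 2 = la par w % 2 by
      have := (hpm _ hu h3).1; omega) h)
  · exact mt_r (neX_sound hX (by omega) (show M.lab i (w / 136 % 17) % 2 = la par w % 2 by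
      have := (hpm _ hv h4).1; omega) h)

theorem sz2_sound (h0 : Zer B K τ) {c : CInfo} {TX i par pm : ℕ} (hpar : par ≤ 2)
    (hc : CInfoOK I M i c) (hpm : PM M i par pm)
    (hX : TOK B K τ TX (vX M i)) (w : ℕ) : MT B K τ (sz2 B TX par pm c.s2 w) := by
  refine mt_ite (fun hb => ?_) (mt_tm h0)
  simp only [Bool.and_eq_true] at hb
  obtain ⟨⟨⟨h1, h2⟩, h2', h2''⟩, ⟨h3, h4⟩, h5⟩ := hb
  have hu : w / 8 % 17 < 17 := Nat.mod_lt _ (by norm_num)
  have hv : w / 136 % 17 < 17 := Nat.mod_lt _ (by norm_num)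
  have hz : w / 2312 % 17 < 17 := Nat.mod_lt _ (by norm_num)
  have ht : w % 8 < 8 := Nat.mod_lt _ (by norm_num)
  have ha : la par w = par + 2 * (w % 8) := rfl
  rcases hc.s2 _ h1 _ _ _ hu hv hz (not_beq h2) (not_beq h2') (not_beq h2'') with h | h | h
  · exact mt_l (mt_l (neX_sound hX (by omega) (show M.lab i (w / 8 % 17) % 2 = la par w % 2 by
      have := (hpm _ hu h3).1; omega) h))
  · exact mt_l (mt_r (neX_sound hX (by omega) (show M.lab i (w / 136 % 17) % 2 = la par w % 2 by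
      have := (hpm _ hv h4).1; omega) h))
  · exact mt_r (neX_sound hX (by omega) (show M.lab i (w / 2312 % 17) % 2 = la par w % 2 by
      have := (hpm _ hz h5).1; omega) h)

/-- the label `w % 32` is taken -/
def neW (B TA ne w : ℕ) : ℕ :=
  (fun a => ite' (tb ne a)
    (Nat.lor (Nat.lor (Nat.lor (Nat.lor (Nat.lor (Nat.lor (Nat.lor (Nat.lor (Nat.lor (Nat.lor
    (Nat.lor (Nat.lor (Nat.lor (Nat.lor (Nat.lor (Nat.lor
      (pl B TA (ix 0 a)) (pl B TA (ix 1 a))) (pl B TA (ix 2 a))) (pl B TA (ix 3 a)))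
      (pl B TA (ix 4 a))) (pl B TA (ix 5 a))) (pl B TA (ix 6 a))) (pl B TA (ix 7 a)))
      (pl B TA (ix 8 a))) (pl B TA (ix 9 a))) (pl B TA (ix 10 a))) (pl B TA (ix 11 a)))
      (pl B TA (ix 12 a))) (pl B TA (ix 13 a))) (pl B TA (ix 14 a))) (pl B TA (ix 15 a)))
      (pl B TA (ix 16 a)))
    (tm B)) (Nat.mod w 32)

theorem neW_sound (h0 : Zer B K τ) {c : CInfo} {TA i : ℕ} (hc : CInfoOK I M i c)
    (hA : TOK B K τ TA (vA M i)) (w : ℕ) : MT B K τ (neW B TA c.ne w) := by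
  refine mt_ite (fun hb => ?_) (mt_tm h0)
  have ha : w % 32 < 32 := Nat.mod_lt _ (by norm_num)
  obtain ⟨u, hu, h⟩ := hc.ne _ hb
  have key : MT B K τ (pl B TA (ix u (w % 32))) := hA.pl ((vA_mk ha).2 h)
  clear h
  interval_cases u
  · exact mt_l (mt_l (mt_l (mt_l (mt_l (mt_l (mt_l (mt_l (mt_l (mt_l (mt_l (mt_l (mt_l (mt_l
      (mt_l (mt_l key)))))))))))))))
  · exact mt_l (mt_l (mt_l (mt_l (mt_l (mt_l (mt_l (mt_l (mt_l (mt_l (mt_l (mt_l (mt_l (mt_l
      (mt_l (mt_r key)))))))))))))))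
  · exact mt_l (mt_l (mt_l (mt_l (mt_l (mt_l (mt_l (mt_l (mt_l (mt_l (mt_l (mt_l (mt_l (mt_l
      (mt_r key))))))))))))))
  · exact mt_l (mt_l (mt_l (mt_l (mt_l (mt_l (mt_l (mt_l (mt_l (mt_l (mt_l (mt_l (mt_l
      (mt_r key)))))))))))))
  · exact mt_l (mt_l (mt_l (mt_l (mt_l (mt_l (mt_l (mt_l (mt_l (mt_l (mt_l (mt_l
      (mt_r key))))))))))))
  · exact mt_l (mt_l (mt_l (mt_l (mt_l (mt_l (mt_l (mt_l (mt_l (mt_l (mt_l (mt_r key)))))))))))
  · exact mt_l (mt_l (mt_l (mt_l (mt_l (mt_l (mt_l (mt_l (mt_l (mt_l (mt_r key))))))))))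
  · exact mt_l (mt_l (mt_l (mt_l (mt_l (mt_l (mt_l (mt_l (mt_l (mt_r key)))))))))
  · exact mt_l (mt_l (mt_l (mt_l (mt_l (mt_l (mt_l (mt_l (mt_r key))))))))
  · exact mt_l (mt_l (mt_l (mt_l (mt_l (mt_l (mt_l (mt_r key)))))))
  · exact mt_l (mt_l (mt_l (mt_l (mt_l (mt_l (mt_r key))))))
  · exact mt_l (mt_l (mt_l (mt_l (mt_l (mt_r key)))))
  · exact mt_l (mt_l (mt_l (mt_l (mt_r key))))
  · exact mt_l (mt_l (mt_l (mt_r key)))
  · exact mt_l (mt_l (mt_r key))
  · exact mt_l (mt_r key)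
  · exact mt_r key

/-- `label = a` implies `label ≥ a` -/
def exd1 (B TA TX w : ℕ) : ℕ := Nat.lor (nl B TA w) (pl B TX w)

theorem exd1_sound {TA TX i : ℕ} (hA : TOK B K τ TA (vA M i)) (hX : TOK B K τ TX (vX M i))
    (w : ℕ) : MT B K τ (exd1 B TA TX w) := by
  by_cases p : vA M i w
  · refine mt_r (hX.pl ?_)
    unfold vA at p
    unfold vX
    omega
  · exact mt_l (hA.nl p)

/-- `label = a` implies `not (label ≥ a + 2)`; word `a + 16 u` -/
def exd2 (B TA TX w : ℕ) : ℕ :=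
  Nat.lor (nl B TA (ix (Nat.div w 16) (Nat.mod w 16)))
    (nl B TX (ix (Nat.div w 16) (Nat.add (Nat.mod w 16) 2)))

theorem exd2_sound {TA TX i : ℕ} (hA : TOK B K τ TA (vA M i)) (hX : TOK B K τ TX (vX M i))
    (w : ℕ) : MT B K τ (exd2 B TA TX w) := by
  have h1 : w % 16 < 16 := Nat.mod_lt _ (by norm_num)
  by_cases p : vA M i (32 * (w / 16) + w % 16)
  · refine mt_r (hX.nl ?_)
    rw [vA_mk (by omega)] at p
    change ¬ vX M i (32 * (w / 16) + (w % 16 + 2))
    rw [vX_mk (by omega)]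
    omega
  · exact mt_l (hA.nl p)

/-! #### lexicographic order of `u` and `u + 1` -/

/-- `lexm`: mask of the `u` such that `u` and `u + 1` are in lexicographic order -/
def LexOK (I : Inst) (lexm : ℕ) : Prop := ∀ u, tb lexm u = true → u < 17 ∧ (u, u + 1) ∈ I.lex

/-- first class -/
def lex0 (B TX lexm w : ℕ) : ℕ :=
  ite' (tb lexm (Nat.div w 32)) (Nat.lor (nl B TX w) (pl B TX (Nat.add w 32))) (tm B)

/-- later classes -/
def lexi (B TQ TX lexm w : ℕ) : ℕ :=
  ite' (tb lexm (Nat.div w 32))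
    (Nat.lor (nl B TQ (Nat.div w 32)) (Nat.lor (nl B TX w) (pl B TX (Nat.add w 32)))) (tm B)

theorem vX_add {i w : ℕ} : vX M i (w + 32) ↔ w % 32 ≤ M.lab i (w / 32 + 1) := by
  unfold vX
  have h1 : (w + 32) % 32 = w % 32 := by omega
  have h2 : (w + 32) / 32 = w / 32 + 1 := by omega
  rw [h1, h2]

theorem lex0_sound (hM : IsModel I M) (h0 : Zer B K τ) {TX lexm : ℕ} (h0k : 0 < I.k)
    (hl : LexOK I lexm) (hX : TOK B K τ TX (vX M 0)) (w : ℕ) :
    MT B K τ (lex0 B TX lexm w) := by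
  refine mt_ite (fun hb => ?_) (mt_tm h0)
  obtain ⟨h1, h2⟩ := hl _ hb
  by_cases p : vX M 0 w
  · refine mt_r (hX.pl ?_)
    change vX M 0 (w + 32)
    rw [vX_add]
    have h3 := hM.lex _ _ h2 0 h0k (fun j hj => absurd hj (Nat.not_lt_zero j))
    unfold vX at p
    change M.lab 0 (w / 32) ≤ M.lab 0 (w / 32 + 1) at h3
    omega
  · exact mt_l (hX.nl p)

theorem lexi_sound (hM : IsModel I M) (h0 : Zer B K τ) {TQ TX lexm i : ℕ} (hi : i + 1 < I.k)
    (hl : LexOK I lexm) (hQ : TOK B K τ TQ (vQ M i)) (hX : TOK B K τ TX (vX M (i + 1)))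
    (w : ℕ) : MT B K τ (lexi B TQ TX lexm w) := by
  refine mt_ite (fun hb => ?_) (mt_tm h0)
  obtain ⟨h1, h2⟩ := hl _ hb
  by_cases pq : vQ M i (w / 32)
  · refine mt_r ?_
    by_cases p : vX M (i + 1) w
    · refine mt_r (hX.pl ?_)
      change vX M (i + 1) (w + 32)
      rw [vX_add]
      have h3 := hM.lex _ _ h2 (i + 1) hi (fun j hj => pq j (by omega))
      unfold vX at p
      change M.lab (i + 1) (w / 32) ≤ M.lab (i + 1) (w / 32 + 1) at h3
      omega
    · exact mt_l (hX.nl p)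
  · exact mt_l (hQ.nl pq)

/-- definition of `D` -/
def lexD1 (B TD TX w : ℕ) : ℕ := Nat.lor (nl B TD w) (pl B TX (Nat.add w 32))
def lexD2 (B TD TX w : ℕ) : ℕ := Nat.lor (nl B TD w) (nl B TX w)

theorem lexD_sound {TD TX i : ℕ} (hD : TOK B K τ TD (vD M i)) (hX : TOK B K τ TX (vX M i))
    (w : ℕ) : MT B K τ (lexD1 B TD TX w) ∧ MT B K τ (lexD2 B TD TX w) := by
  constructor
  · by_cases p : vD M i w
    · refine mt_r (hX.pl ?_)
      change vX M i (w + 32)
      rw [vX_add]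
      exact p.1
    · exact mt_l (hD.nl p)
  · by_cases p : vD M i w
    · exact mt_r (hX.nl p.2)
    · exact mt_l (hD.nl p)

/-- the seven possible larger labels -/
def ds (B TD par u : ℕ) : ℕ :=
  Nat.lor (Nat.lor (Nat.lor (Nat.lor (Nat.lor (Nat.lor
    (pl B TD (ix u (Nat.add par 2))) (pl B TD (ix u (Nat.add par 4))))
    (pl B TD (ix u (Nat.add par 6)))) (pl B TD (ix u (Nat.add par 8))))
    (pl B TD (ix u (Nat.add par 10)))) (pl B TD (ix u (Nat.add par 12))))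
    (pl B TD (ix u (Nat.add par 14)))

theorem ds_sound {TD i par u : ℕ} (hpar : par = 1 ∨ par = 2) (hD : TOK B K τ TD (vD M i))
    (h1 : M.lab i u < M.lab i (u + 1)) (h2 : M.lab i (u + 1) % 2 = par % 2)
    (h3 : M.lab i (u + 1) ≤ 16) (h4 : par ≤ M.lab i u) : MT B K τ (ds B TD par u) := by
  have key : ∀ t, t ≤ 14 → M.lab i (u + 1) = par + t →
      MT B K τ (pl B TD (ix u (Nat.add par t))) := by
    intro t ht h
    refine hD.pl ?_
    change vD M i (32 * u + (par + t))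
    rw [vD_mk (by omega)]
    omega
  have : M.lab i (u + 1) = par + 2 ∨ M.lab i (u + 1) = par + 4 ∨ M.lab i (u + 1) = par + 6 ∨
      M.lab i (u + 1) = par + 8 ∨ M.lab i (u + 1) = par + 10 ∨ M.lab i (u + 1) = par + 12 ∨
      M.lab i (u + 1) = par + 14 := by omega
  unfold ds
  rcases this with h | h | h | h | h | h | h
  · exact mt_l (mt_l (mt_l (mt_l (mt_l (mt_l (key 2 (by norm_num) h))))))
  · exact mt_l (mt_l (mt_l (mt_l (mt_l (mt_r (key 4 (by norm_num) h))))))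
  · exact mt_l (mt_l (mt_l (mt_l (mt_r (key 6 (by norm_num) h)))))
  · exact mt_l (mt_l (mt_l (mt_r (key 8 (by norm_num) h))))
  · exact mt_l (mt_l (mt_r (key 10 (by norm_num) h)))
  · exact mt_l (mt_r (key 12 (by norm_num) h))
  · exact mt_r (key 14 (by norm_num) h)

/-- equal or larger, first class -/
def lexQ0 (B TQ TD par pm lexm w : ℕ) : ℕ :=
  ite' (and (tb lexm (Nat.mod w 16)) (and (tb pm (Nat.mod w 16)) (tb pm (Nat.succ (Nat.mod w 16)))))
    (Nat.lor (pl B TQ (Nat.mod w 16)) (ds B TD par (Nat.mod w 16))) (tm B)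

/-- equal or larger, later classes -/
def lexQi (B TP TQ TD par pm lexm w : ℕ) : ℕ :=
  ite' (and (tb lexm (Nat.mod w 16)) (and (tb pm (Nat.mod w 16)) (tb pm (Nat.succ (Nat.mod w 16)))))
    (Nat.lor (nl B TP (Nat.mod w 16))
      (Nat.lor (pl B TQ (Nat.mod w 16)) (ds B TD par (Nat.mod w 16)))) (tm B)

theorem lexQ_aux (hM : IsModel I M) {TQ TD i par pm lexm u : ℕ} (hi : i < I.k)
    (hpar : par = 1 ∨ par = 2) (hpm : PM M i par pm) (hl : LexOK I lexm)
    (hQ : TOK B K τ TQ (vQ M i)) (hD : TOK B K τ TD (vD M i)) (hu : u < 16)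
    (h1 : tb lexm u = true) (h2 : tb pm u = true) (h3 : tb pm (u + 1) = true)
    (hpre : ∀ j, j < i → M.lab j u = M.lab j (u + 1)) :
    MT B K τ (Nat.lor (pl B TQ u) (ds B TD par u)) := by
  obtain ⟨h4, h5⟩ := hl _ h1
  have h6 := hM.lex _ _ h5 i hi hpre
  by_cases he : M.lab i u = M.lab i (u + 1)
  · refine mt_l (hQ.pl ?_)
    intro j hj
    rcases Nat.lt_or_ge j i with h | h
    · exact hpre j h
    · rw [Nat.le_antisymm hj h]; exact he
  · have h7 := hpm _ (by omega) h2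
    have h8 := hpm _ (by omega) h3
    exact mt_r (ds_sound hpar hD (by omega) h8.1 h8.2.1 h7.2.2)

theorem lexQ0_sound (hM : IsModel I M) (h0 : Zer B K τ) {TQ TD par pm lexm : ℕ} (h0k : 0 < I.k)
    (hpar : par = 1 ∨ par = 2) (hpm : PM M 0 par pm) (hl : LexOK I lexm)
    (hQ : TOK B K τ TQ (vQ M 0)) (hD : TOK B K τ TD (vD M 0)) (w : ℕ) :
    MT B K τ (lexQ0 B TQ TD par pm lexm w) := by
  refine mt_ite (fun hb => ?_) (mt_tm h0)
  simp only [Bool.and_eq_true] at hb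
  exact lexQ_aux hM h0k hpar hpm hl hQ hD (Nat.mod_lt _ (by norm_num)) hb.1 hb.2.1 hb.2.2
    (fun j hj => absurd hj (Nat.not_lt_zero j))

theorem lexQi_sound (hM : IsModel I M) (h0 : Zer B K τ) {TP TQ TD par pm lexm i : ℕ}
    (hi : i + 1 < I.k) (hpar : par = 1 ∨ par = 2) (hpm : PM M (i + 1) par pm)
    (hl : LexOK I lexm) (hP : TOK B K τ TP (vQ M i)) (hQ : TOK B K τ TQ (vQ M (i + 1)))
    (hD : TOK B K τ TD (vD M (i + 1))) (w : ℕ) :
    MT B K τ (lexQi B TP TQ TD par pm lexm w) := by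
  refine mt_ite (fun hb => ?_) (mt_tm h0)
  simp only [Bool.and_eq_true] at hb
  by_cases pq : vQ M i (w % 16)
  · exact mt_r (lexQ_aux hM hi hpar hpm hl hQ hD (Nat.mod_lt _ (by norm_num)) hb.1 hb.2.1 hb.2.2
      (fun j hj => pq j (by omega)))
  · exact mt_l (hP.nl pq)

end fams

end Pool.Agent.Work.MP_92a29d_co_h45
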