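import Pool.Agent.Work.MP_92a29d_co_h45.Words2

/-!
Words of the classes contained in a fixed graph, and the list of all families.
-/

set_option autoImplicit false

namespace Pool.Agent.Work.MP_92a29d_co_h45

section fams

variable {I : Inst} {M : Model} {B K : ℕ} {τ : ℕ → Prop}

/-- a vertex has a label; word `u` -/
def aloT (B TA w : ℕ) : ℕ :=
  (fun u => Nat.lor (Nat.lor (Nat.lor (Nat.lor (Nat.lor (Nat.lor (Nat.lor (Nat.lor (Nat.lor
    (Nat.lor (Nat.lor (Nat.lor (Nat.lor (Nat.lor (Nat.lor (Nat.lor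
      (pl B TA (ix u 0)) (pl B TA (ix u 1))) (pl B TA (ix u 2))) (pl B TA (ix u 3)))
      (pl B TA (ix u 4))) (pl B TA (ix u 5))) (pl B TA (ix u 6))) (pl B TA (ix u 7)))
      (pl B TA (ix u 8))) (pl B TA (ix u 9))) (pl B TA (ix u 10))) (pl B TA (ix u 11)))
      (pl B TA (ix u 12))) (pl B TA (ix u 13))) (pl B TA (ix u 14))) (pl B TA (ix u 15)))
      (pl B TA (ix u 16))) (Nat.mod w 17)

theorem aloT_sound {TA i : ℕ} (hle : ∀ u, u < 17 → M.lab i u ≤ 16)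
    (hA : TOK B K τ TA (vA M i)) (w : ℕ) : MT B K τ (aloT B TA w) := by
  have hu : w % 17 < 17 := Nat.mod_lt _ (by norm_num)
  have key : ∀ a, a ≤ 16 → M.lab i (w % 17) = a → MT B K τ (pl B TA (ix (w % 17) a)) :=
    fun a ha h => hA.pl ((vA_mk (by omega)).2 h)
  have hl := hle _ hu
  unfold aloT
  change MT B K τ (Nat.lor (Nat.lor _ _) _)
  obtain ⟨a, ha, h⟩ : ∃ a, a ≤ 16 ∧ M.lab i (w % 17) = a := ⟨_, hl, rfl⟩
  have key := key a ha h
  clear h
  interval_cases a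
  · exact mt_l (mt_l (mt_l (mt_l (mt_l (mt_l (mt_l (mt_l (mt_l (mt_l (mt_l (mt_l (mt_l (mt_l
      (mt_l (mt_l key)))))))))))))))
  · exact mt_l (mt_l (mt_l (mt_l (mt_l (mt_l (mt_l (mt_l (mt_l (mt_l (mt_l (mt_l (mt_l (mt_l
      (mt_l (mt_r key)))))))))))))))
  · exact mt_l (mt_l (mt_l (mt_l (mt_l (mt_l (mt_l (mt_l (mt_l (mt_l (mt_l (mt_l (mt_l (mt_l
      (mt_r key))))))))))))))
  · exact mt_l (mt_l (mt_l (mt_l (mt_l (mt_l (mt_l (mt_l (mt_l (mt_l (mt_l (mt_l (mt_l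
      (mt_r key)))))))))))))
  · exact mt_l (mt_l (mt_l (mt_l (mt_l (mt_l (mt_l (mt_l (mt_l (mt_l (mt_l (mt_l
      (mt_r key))))))))))))
  · exact mt_l (mt_l (mt_l (mt_l (mt_l (mt_l (mt_l (mt_l (mt_l (mt_l (mt_l (mt_r key)))))))))))
  · exact mt_l (mt_l (mt_l (mt_l (mt_l (mt_l (mt_l (mt_l (mt_l (mt_l (mt_r key))))))))))
  · exact mt_l (mt_l (mt_l (mt_l (mt_l (mt_l (mt_l (mt_l (mt_l (mt_r key)))))))))
  · exact mt_l (mt_l (mt_l (mt_l (mt_l (mt_l (mt_l (mt_l (mt_r key))))))))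
  · exact mt_l (mt_l (mt_l (mt_l (mt_l (mt_l (mt_l (mt_r key)))))))
  · exact mt_l (mt_l (mt_l (mt_l (mt_l (mt_l (mt_r key))))))
  · exact mt_l (mt_l (mt_l (mt_l (mt_l (mt_r key)))))
  · exact mt_l (mt_l (mt_l (mt_l (mt_r key))))
  · exact mt_l (mt_l (mt_l (mt_r key)))
  · exact mt_l (mt_l (mt_r key))
  · exact mt_l (mt_r key)
  · exact mt_r key

/-- at most one label; word `a + 17 (b + 17 u)` -/
def amoT (B TA w : ℕ) : ℕ :=
  ite' (not (Nat.beq (Nat.mod w 17) (Nat.mod (Nat.div w 17) 17)))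
    (Nat.lor (nl B TA (ix (Nat.mod (Nat.div w 289) 17) (Nat.mod w 17)))
      (nl B TA (ix (Nat.mod (Nat.div w 289) 17) (Nat.mod (Nat.div w 17) 17))))
    (tm B)

theorem amoT_sound (h0 : Zer B K τ) {TA i : ℕ} (hA : TOK B K τ TA (vA M i)) (w : ℕ) :
    MT B K τ (amoT B TA w) := by
  refine mt_ite (fun hb => ?_) (mt_tm h0)
  have ha : w % 17 < 17 := Nat.mod_lt _ (by norm_num)
  have hb' : w / 17 % 17 < 17 := Nat.mod_lt _ (by norm_num)
  have hne : w % 17 ≠ w / 17 % 17 := not_beq hb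
  by_cases p : vA M i (32 * (w / 289 % 17) + w % 17)
  · refine mt_r (hA.nl fun q => ?_)
    change vA M i (32 * (w / 289 % 17) + w / 17 % 17) at q
    rw [vA_mk (by omega)] at p q
    omega
  · exact mt_l (hA.nl p)

/-- a label is taken at most once; word `a + 17 (u + 17 v)` -/
def bijT (B TA s1 w : ℕ) : ℕ :=
  ite' (and (tb s1 (Nat.mod w 17))
      (not (Nat.beq (Nat.mod (Nat.div w 17) 17) (Nat.mod (Nat.div w 289) 17))))
    (Nat.lor (nl B TA (ix (Nat.mod (Nat.div w 17) 17) (Nat.mod w 17)))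
      (nl B TA (ix (Nat.mod (Nat.div w 289) 17) (Nat.mod w 17))))
    (tm B)

theorem bijT_sound (h0 : Zer B K τ) {c : CInfo} {TA i : ℕ} (hc : CInfoOK I M i c)
    (hA : TOK B K τ TA (vA M i)) (w : ℕ) : MT B K τ (bijT B TA c.s1 w) := by
  refine mt_ite (fun hb => ?_) (mt_tm h0)
  rw [Bool.and_eq_true] at hb
  have ha : w % 17 < 17 := Nat.mod_lt _ (by norm_num)
  have hu : w / 17 % 17 < 17 := Nat.mod_lt _ (by norm_num)
  have hv : w / 289 % 17 < 17 := Nat.mod_lt _ (by norm_num)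
  rcases hc.s1 _ hb.1 _ _ hu hv (not_beq hb.2) with h | h
  · refine mt_l (hA.nl fun q => h ?_)
    change vA M i (32 * (w / 17 % 17) + w % 17) at q
    rw [vA_mk (by omega)] at q
    exact q
  · refine mt_r (hA.nl fun q => h ?_)
    change vA M i (32 * (w / 289 % 17) + w % 17) at q
    rw [vA_mk (by omega)] at q
    exact q

/-- the `t`-th neighbour of the label `a` -/
def nbr (NB a t : ℕ) : ℕ := Nat.mod (Nat.shiftRight NB (Nat.add (Nat.mul 20 a) (Nat.mul 5 t))) 32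

/-- `NB` lists the (at most four) neighbours of every label -/
def NBOK (k : Kind) (NB : ℕ) : Prop := ∀ a b, a < 17 → b < 17 → kadj k a b = true →
  b = nbr NB a 0 ∨ b = nbr NB a 1 ∨ b = nbr NB a 2 ∨ b = nbr NB a 3

/-- `v` has one of the labels adjacent to `a` -/
def nbs (B TA NB v a : ℕ) : ℕ :=
  Nat.lor (Nat.lor (Nat.lor (pl B TA (ix v (nbr NB a 0))) (pl B TA (ix v (nbr NB a 1))))
    (pl B TA (ix v (nbr NB a 2)))) (pl B TA (ix v (nbr NB a 3)))

theorem nbs_sound {TA i NB v a : ℕ} {k : Kind} (hNB : NBOK k NB) (hA : TOK B K τ TA (vA M i))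
    (ha : a < 17) (hv : M.lab i v < 17) (h : kadj k a (M.lab i v) = true) :
    MT B K τ (nbs B TA NB v a) := by
  have key : ∀ t, M.lab i v = nbr NB a t → MT B K τ (pl B TA (ix v (nbr NB a t))) := by
    intro t ht
    refine hA.pl ((vA_mk ?_).2 ht)
    rw [← ht]
    omega
  rcases hNB a _ ha hv h with h | h | h | h
  · exact mt_l (mt_l (mt_l (key 0 h)))
  · exact mt_l (mt_l (mt_r (key 1 h)))
  · exact mt_l (mt_r (key 2 h))
  · exact mt_r (key 3 h)

/-- an edge of the class; word `u + 17 (v + 17 a)`, the label `a` belongs to `u` -/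
def adjTA (B TE TA NB w : ℕ) : ℕ :=
  Nat.lor (Nat.lor (nl B TE (Nat.mod w 289))
    (nl B TA (ix (Nat.mod w 17) (Nat.mod (Nat.div w 289) 17))))
    (nbs B TA NB (Nat.mod (Nat.div w 17) 17) (Nat.mod (Nat.div w 289) 17))

def adjTB (B TE TA NB w : ℕ) : ℕ :=
  Nat.lor (Nat.lor (nl B TE (Nat.add (Nat.mul 17 (Nat.mod w 17)) (Nat.mod (Nat.div w 17) 17)))
    (nl B TA (ix (Nat.mod w 17) (Nat.mod (Nat.div w 289) 17))))
    (nbs B TA NB (Nat.mod (Nat.div w 17) 17) (Nat.mod (Nat.div w 289) 17))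

theorem adjT_sound (hM : IsModel I M) {TE TA i NB : ℕ} (hi : i < I.k)
    (hle : ∀ u, u < 17 → M.lab i u ≤ 16) (hNB : NBOK (I.kind i) NB)
    (hE : TOK B K τ TE (vE M i)) (hA : TOK B K τ TA (vA M i)) (w : ℕ) :
    MT B K τ (adjTA B TE TA NB w) ∧ MT B K τ (adjTB B TE TA NB w) := by
  have hu : w % 17 < 17 := Nat.mod_lt _ (by norm_num)
  have hv : w / 17 % 17 < 17 := Nat.mod_lt _ (by norm_num)
  have ha : w / 289 % 17 < 17 := Nat.mod_lt _ (by norm_num)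
  have e1 : Nat.mod w 289 = 17 * (w / 17 % 17) + w % 17 := by
    change w % 289 = _
    omega
  have hlv := hle _ hv
  constructor
  · unfold adjTA
    rw [e1]
    by_cases p1 : vE M i (17 * (w / 17 % 17) + w % 17)
    · by_cases p2 : vA M i (32 * (w % 17) + w / 289 % 17)
      · rw [vE_mk hu] at p1
        rw [vA_mk (by omega)] at p2
        refine mt_r (nbs_sound hNB hA ha (Nat.lt_succ_of_le hlv) ?_)
        have := hM.coded i _ _ hi hu hv (hM.symm _ _ _ p1)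
        rw [p2] at this
        exact this
      · exact mt_l (mt_r (hA.nl p2))
    · exact mt_l (mt_l (hE.nl p1))
  · unfold adjTB
    by_cases p1 : vE M i (17 * (w % 17) + w / 17 % 17)
    · by_cases p2 : vA M i (32 * (w % 17) + w / 289 % 17)
      · rw [vE_mk hv] at p1
        rw [vA_mk (by omega)] at p2
        refine mt_r (nbs_sound hNB hA ha (Nat.lt_succ_of_le hlv) ?_)
        have := hM.coded i _ _ hi hu hv p1
        rw [p2] at this
        exact this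
      · exact mt_l (mt_r (hA.nl p2))
    · exact mt_l (mt_l (hE.nl p1))

/-- order of `u` and `u + 1` by the label in class `0`; word `u + 16 (a + 17 b)`, `b < a` -/
def lexT (B TA lexm w : ℕ) : ℕ :=
  ite' (and (tb lexm (Nat.mod w 16))
      (Nat.ble (Nat.succ (Nat.mod (Nat.div w 272) 17)) (Nat.mod (Nat.div w 16) 17)))
    (Nat.lor (nl B TA (ix (Nat.mod w 16) (Nat.mod (Nat.div w 16) 17)))
      (nl B TA (ix (Nat.succ (Nat.mod w 16)) (Nat.mod (Nat.div w 272) 17))))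
    (tm B)

theorem lexT_sound (hM : IsModel I M) (h0 : Zer B K τ) {TA lexm : ℕ} (h0k : 0 < I.k)
    (hl : LexOK I lexm) (hA : TOK B K τ TA (vA M 0)) (w : ℕ) :
    MT B K τ (lexT B TA lexm w) := by
  refine mt_ite (fun hb => ?_) (mt_tm h0)
  rw [Bool.and_eq_true] at hb
  obtain ⟨h1, h2⟩ := hl _ hb.1
  have h3 := hM.lex _ _ h2 0 h0k (fun j hj => absurd hj (Nat.not_lt_zero j))
  have ha : w / 16 % 17 < 17 := Nat.mod_lt _ (by norm_num)
  have hb' : w / 272 % 17 < 17 := Nat.mod_lt _ (by norm_num)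
  have hlt : w / 272 % 17 + 1 ≤ w / 16 % 17 := Nat.le_of_ble_eq_true hb.2
  change M.lab 0 (w % 16) ≤ M.lab 0 (w % 16 + 1) at h3
  by_cases p : vA M 0 (32 * (w % 16) + w / 16 % 17)
  · refine mt_r (hA.nl fun q => ?_)
    change vA M 0 (32 * (w % 16 + 1) + w / 272 % 17) at q
    rw [vA_mk (by omega)] at p q
    omega
  · exact mt_l (hA.nl p)

/-- forbidden label; word `32u + a` -/
def forb (B TX fb w : ℕ) : ℕ := ite' (tb fb w) (Nat.lor (nl B TX w) (pl B TX (Nat.add w 2))) (tm B)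

/-- meaning of the mask of the forbidden labels -/
def FbOK (M : Model) (i fb : ℕ) : Prop := ∀ w, tb fb w = true → w % 32 < 30 ∧
  M.lab i (w / 32) ≠ w % 32 ∧ M.lab i (w / 32) ≠ w % 32 + 1

theorem forb_sound (h0 : Zer B K τ) {TX i fb : ℕ} (hf : FbOK M i fb) (hX : TOK B K τ TX (vX M i))
    (w : ℕ) : MT B K τ (forb B TX fb w) := by
  refine mt_ite (fun hb => ?_) (mt_tm h0)
  obtain ⟨h1, h2, h3⟩ := hf w hb
  by_cases p : vX M i w
  · refine mt_r (hX.pl ?_)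
    have p' : w % 32 ≤ M.lab i (w / 32) := p
    change (w + 2) % 32 ≤ M.lab i ((w + 2) / 32)
    have e1 : (w + 2) % 32 = w % 32 + 2 := by omega
    have e2 : (w + 2) / 32 = w / 32 := by omega
    rw [e1, e2]
    omega
  · exact mt_l (hX.nl p)

end fams

/-! ### all families -/

/-- families of words, with their class indices and parities -/
inductive Fam where
  | tri (i : ℕ)
  | w2R (i : ℕ)
  | w2P (i : ℕ)
  | w2Q (i : ℕ)
  | w5P (i : ℕ)
  | w5Q (i : ℕ)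
  | w5R (i : ℕ)
  | w3 (i : ℕ)
  | cov
  | five (i j : ℕ)
  | ord (i : ℕ)
  | adjA (i : ℕ)
  | adjB (i : ℕ)
  | zoA (i : ℕ)
  | zoB (i : ℕ)
  | zeA (i : ℕ)
  | zeB (i : ℕ)
  | sz1o (i : ℕ)
  | sz1e (i : ℕ)
  | sz2o (i : ℕ)
  | sz2e (i : ℕ)
  | ne (i : ℕ)
  | exd1 (i : ℕ)
  | exd2 (i : ℕ)
  | lex0
  | lexi (i : ℕ)
  | lexD1 (i : ℕ)
  | lexD2 (i : ℕ)
  | lexQ0o
  | lexQ0e
  | lexQio (i : ℕ)
  | lexQie (i : ℕ)
  | aloT (i : ℕ)
  | amoT (i : ℕ)
  | bijT (i : ℕ)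
  | adjTA (i : ℕ)
  | adjTB (i : ℕ)
  | lexT
  | forb (i : ℕ)
deriving DecidableEq, Repr

/-- information on an instance -/
structure Info where
  c : List CInfo
  lexm : ℕ
  nb : List ℕ
  fb : List ℕ

def Info.FB (F : Info) (i : ℕ) : ℕ := F.fb.getD i 0
def Info.C (F : Info) (i : ℕ) : CInfo := F.c.getD i ⟨0, 0, 0, 0, 0, 0, 0, 0⟩
def Info.NB (F : Info) (i : ℕ) : ℕ := F.nb.getD i 0

/-- meaning of the information -/
structure InfoOK (I : Inst) (M : Model) (F : Info) : Prop where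
  c : ∀ i, i < I.k → CInfoOK I M i (F.C i)
  le : ∀ i u, i < I.k → u < 17 → M.lab i u ≤ 16
  lexm : LexOK I F.lexm
  nb : ∀ i, i < I.k → (∃ nb, I.kind i = .tgt nb) → NBOK (I.kind i) (F.NB i)
  fb : ∀ i, FbOK M i (F.FB i)

/-- is the class an explicit one with `m ≥ n`? -/
def Inst.isExpl (I : Inst) (n i : ℕ) : Bool :=
  match I.kind i with
  | .expl m => Nat.ble n m
  | _ => false

/-- is the class a coded level class with `m ≤ 7`? -/
def Inst.isLev (I : Inst) (i : ℕ) : Bool :=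
  match I.kind i with
  | .lev m => Nat.ble m 7 && Nat.blt i I.k
  | _ => false

/-- is the class a coded class contained in a fixed graph? -/
def Inst.isTgt (I : Inst) (i : ℕ) : Bool :=
  match I.kind i with
  | .tgt _ => Nat.blt i I.k
  | _ => false

/-- the family makes sense for the instance -/
def Fam.ok (I : Inst) : Fam → Bool
  | .tri i => I.isExpl 1 i
  | .w2R _ => true
  | .w2P _ => true
  | .w2Q _ => true
  | .w5P i => I.isExpl 2 i
  | .w5Q i => I.isExpl 2 i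
  | .w5R i => I.isExpl 2 i
  | .w3 i => I.isExpl 1 i
  | .cov => true
  | .five i j => I.five.any fun p => Nat.beq p.1 i && Nat.beq p.2 j
  | .ord _ => true
  | .adjA i => I.isLev i
  | .adjB i => I.isLev i
  | .zoA i => I.isLev i
  | .zoB i => I.isLev i
  | .zeA i => I.isLev i
  | .zeB i => I.isLev i
  | .sz1o i => I.isLev i
  | .sz1e i => I.isLev i
  | .sz2o i => I.isLev i
  | .sz2e i => I.isLev i
  | .ne i => Nat.blt i I.k
  | .exd1 _ => true
  | .exd2 _ => true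
  | .lex0 => I.isLev 0
  | .lexi i => I.isLev (i + 1)
  | .lexD1 _ => true
  | .lexD2 _ => true
  | .lexQ0o => I.isLev 0
  | .lexQ0e => I.isLev 0
  | .lexQio i => I.isLev (i + 1)
  | .lexQie i => I.isLev (i + 1)
  | .aloT i => I.isTgt i
  | .amoT _ => true
  | .bijT i => I.isTgt i
  | .adjTA i => I.isTgt i
  | .adjTB i => I.isTgt i
  | .lexT => I.isTgt 0
  | .forb _ => true

/-- mask of a word of a family -/
def Fam.fn (B : ℕ) (t : Tab) (F : Info) : Fam → ℕ → ℕ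
  | .tri i => f3 B (t.E i) (t.E i) (t.E i)
  | .w2R i => Pool.Agent.Work.MP_92a29d_co_h45.w2R B (t.E i) (t.W i)
  | .w2P i => Pool.Agent.Work.MP_92a29d_co_h45.w2P B (t.E i) (t.W i)
  | .w2Q i => Pool.Agent.Work.MP_92a29d_co_h45.w2Q B (t.E i) (t.W i)
  | .w5P i => f3 B (t.E i) (t.W i) (t.W i)
  | .w5Q i => f3 B (t.W i) (t.E i) (t.W i)
  | .w5R i => f3 B (t.W i) (t.W i) (t.E i)
  | .w3 i => Pool.Agent.Work.MP_92a29d_co_h45.w3 B (t.E i) (t.W i)
  | .cov => Pool.Agent.Work.MP_92a29d_co_h45.cov B (t.E 0) (t.E 1) (t.E 2) (t.E 3)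
  | .five i j => Pool.Agent.Work.MP_92a29d_co_h45.five B (t.E i) (t.E j)
  | .ord i => ordW B (t.X i)
  | .adjA i => Pool.Agent.Work.MP_92a29d_co_h45.adjA B (t.E i) (t.X i) (F.C i).nz
  | .adjB i => Pool.Agent.Work.MP_92a29d_co_h45.adjB B (t.E i) (t.X i) (F.C i).nz
  | .zoA i => Pool.Agent.Work.MP_92a29d_co_h45.zoA B (t.E i) (t.X i) (F.C i).sp (F.C i).od
  | .zoB i => Pool.Agent.Work.MP_92a29d_co_h45.zoB B (t.E i) (t.X i) (F.C i).sp (F.C i).od
  | .zeA i => Pool.Agent.Work.MP_92a29d_co_h45.zeA B (t.E i) (t.X i) (F.C i).sp (F.C i).ev (F.C i).top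
  | .zeB i => Pool.Agent.Work.MP_92a29d_co_h45.zeB B (t.E i) (t.X i) (F.C i).sp (F.C i).ev (F.C i).top
  | .sz1o i => sz1 B (t.X i) 1 (F.C i).od (F.C i).s1
  | .sz1e i => sz1 B (t.X i) 2 (F.C i).ev (F.C i).s1
  | .sz2o i => sz2 B (t.X i) 1 (F.C i).od (F.C i).s2
  | .sz2e i => sz2 B (t.X i) 2 (F.C i).ev (F.C i).s2
  | .ne i => neW B (t.A i) (F.C i).ne
  | .exd1 i => Pool.Agent.Work.MP_92a29d_co_h45.exd1 B (t.A i) (t.X i)
  | .exd2 i => Pool.Agent.Work.MP_92a29d_co_h45.exd2 B (t.A i) (t.X i)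
  | .lex0 => Pool.Agent.Work.MP_92a29d_co_h45.lex0 B (t.X 0) F.lexm
  | .lexi i => Pool.Agent.Work.MP_92a29d_co_h45.lexi B (t.Q i) (t.X (i + 1)) F.lexm
  | .lexD1 i => Pool.Agent.Work.MP_92a29d_co_h45.lexD1 B (t.D i) (t.X i)
  | .lexD2 i => Pool.Agent.Work.MP_92a29d_co_h45.lexD2 B (t.D i) (t.X i)
  | .lexQ0o => lexQ0 B (t.Q 0) (t.D 0) 1 (F.C 0).od F.lexm
  | .lexQ0e => lexQ0 B (t.Q 0) (t.D 0) 2 (F.C 0).ev F.lexm
  | .lexQio i => lexQi B (t.Q i) (t.Q (i + 1)) (t.D (i + 1)) 1 (F.C (i + 1)).od F.lexm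
  | .lexQie i => lexQi B (t.Q i) (t.Q (i + 1)) (t.D (i + 1)) 2 (F.C (i + 1)).ev F.lexm
  | .aloT i => Pool.Agent.Work.MP_92a29d_co_h45.aloT B (t.A i)
  | .amoT i => Pool.Agent.Work.MP_92a29d_co_h45.amoT B (t.A i)
  | .bijT i => Pool.Agent.Work.MP_92a29d_co_h45.bijT B (t.A i) (F.C i).s1
  | .adjTA i => Pool.Agent.Work.MP_92a29d_co_h45.adjTA B (t.E i) (t.A i) (F.NB i)
  | .adjTB i => Pool.Agent.Work.MP_92a29d_co_h45.adjTB B (t.E i) (t.A i) (F.NB i)
  | .lexT => Pool.Agent.Work.MP_92a29d_co_h45.lexT B (t.A 0) F.lexm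
  | .forb i => Pool.Agent.Work.MP_92a29d_co_h45.forb B (t.X i) (F.FB i)

section sound

variable {I : Inst} {M : Model} {B K : ℕ} {τ : ℕ → Prop}

theorem isExpl_spec {n i : ℕ} (h : I.isExpl n i = true) : ∃ m, I.kind i = .expl m ∧ n ≤ m := by
  unfold Inst.isExpl at h
  rcases hk : I.kind i with m | nb | m
  · rw [hk] at h; exact absurd h (by simp)
  · rw [hk] at h; exact absurd h (by simp)
  · rw [hk] at h; exact ⟨m, rfl, Nat.le_of_ble_eq_true h⟩

theorem isLev_spec {i : ℕ} (h : I.isLev i = true) : ∃ m, I.kind i = .lev m ∧ m ≤ 7 ∧ i < I.k := by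
  unfold Inst.isLev at h
  rcases hk : I.kind i with m | nb | m
  · rw [hk] at h
    simp only [Bool.and_eq_true] at h
    exact ⟨m, rfl, Nat.le_of_ble_eq_true h.1, Nat.le_of_ble_eq_true h.2⟩
  · rw [hk] at h; exact absurd h (by simp)
  · rw [hk] at h; exact absurd h (by simp)

theorem isTgt_spec {i : ℕ} (h : I.isTgt i = true) : (∃ nb, I.kind i = .tgt nb) ∧ i < I.k := by
  unfold Inst.isTgt at h
  rcases hk : I.kind i with m | nb | m
  · rw [hk] at h; exact absurd h (by simp)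
  · rw [hk] at h
    exact ⟨⟨nb, rfl⟩, Nat.le_of_ble_eq_true h⟩
  · rw [hk] at h; exact absurd h (by simp)

theorem PM_od {c : CInfo} {i : ℕ} (hc : CInfoOK I M i c) : PM M i 1 c.od := fun u hu h => by
  have := hc.od u hu h
  omega

theorem PM_ev {c : CInfo} {i : ℕ} (hc : CInfoOK I M i c) : PM M i 2 c.ev := fun u hu h => by
  have := hc.ev u hu h
  omega

/-- SOUNDNESS of all words. -/
theorem fn_sound (hM : IsModel I M) (h0 : Zer B K τ) {t : Tab} {F : Info} (hF : InfoOK I M F)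
    (ht : TabOK M B K τ t) (f : Fam) (hf : f.ok I = true) (w : ℕ) :
    MT B K τ (f.fn B t F w) := by
  cases f with
  | tri i =>
    obtain ⟨m, hk, hm⟩ := isExpl_spec hf
    exact tri_sound hM hk hm (ht.e i) w
  | w2R i => exact (w2_sound hM (ht.e i) (ht.w i) w).1
  | w2P i => exact (w2_sound hM (ht.e i) (ht.w i) w).2.1
  | w2Q i => exact (w2_sound hM (ht.e i) (ht.w i) w).2.2
  | w5P i =>
    obtain ⟨m, hk, hm⟩ := isExpl_spec hf
    exact (w5_sound hM hk hm (ht.e i) (ht.w i) w).1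
  | w5Q i =>
    obtain ⟨m, hk, hm⟩ := isExpl_spec hf
    exact (w5_sound hM hk hm (ht.e i) (ht.w i) w).2.1
  | w5R i =>
    obtain ⟨m, hk, hm⟩ := isExpl_spec hf
    exact (w5_sound hM hk hm (ht.e i) (ht.w i) w).2.2
  | w3 i =>
    obtain ⟨m, hk, hm⟩ := isExpl_spec hf
    exact w3_sound hM hk hm (ht.e i) (ht.w i) w
  | cov => exact cov_sound hM h0 (ht.e 0) (ht.e 1) (ht.e 2) (ht.e 3) w
  | five i j =>
    have hf : (I.five.any fun p => Nat.beq p.1 i && Nat.beq p.2 j) = true := hf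
    rw [List.any_eq_true] at hf
    obtain ⟨⟨a, b⟩, h1, h2⟩ := hf
    rw [Bool.and_eq_true] at h2
    have e1 := Nat.eq_of_beq_eq_true h2.1
    have e2 := Nat.eq_of_beq_eq_true h2.2
    change a = i at e1
    change b = j at e2
    subst e1
    subst e2
    exact five_sound h0 hM h1 (ht.e _) (ht.e _) w
  | ord i => exact ordW_sound (ht.x i) w
  | adjA i =>
    obtain ⟨m, hk, hm, hi⟩ := isLev_spec hf
    exact (adjAB_sound hM h0 hi hk (hF.c i hi) (ht.e i) (ht.x i) w).1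
  | adjB i =>
    obtain ⟨m, hk, hm, hi⟩ := isLev_spec hf
    exact (adjAB_sound hM h0 hi hk (hF.c i hi) (ht.e i) (ht.x i) w).2
  | zoA i =>
    obtain ⟨m, hk, hm, hi⟩ := isLev_spec hf
    exact (z_sound hM h0 hi hk hm (hF.c i hi) (ht.e i) (ht.x i) w).1.1
  | zoB i =>
    obtain ⟨m, hk, hm, hi⟩ := isLev_spec hf
    exact (z_sound hM h0 hi hk hm (hF.c i hi) (ht.e i) (ht.x i) w).1.2
  | zeA i =>
    obtain ⟨m, hk, hm, hi⟩ := isLev_spec hf
    exact (z_sound hM h0 hi hk hm (hF.c i hi) (ht.e i) (ht.x i) w).2.1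
  | zeB i =>
    obtain ⟨m, hk, hm, hi⟩ := isLev_spec hf
    exact (z_sound hM h0 hi hk hm (hF.c i hi) (ht.e i) (ht.x i) w).2.2
  | sz1o i =>
    obtain ⟨m, hk, hm, hi⟩ := isLev_spec hf
    exact sz1_sound h0 (by norm_num) (hF.c i hi) (PM_od (hF.c i hi)) (ht.x i) w
  | sz1e i =>
    obtain ⟨m, hk, hm, hi⟩ := isLev_spec hf
    exact sz1_sound h0 le_rfl (hF.c i hi) (PM_ev (hF.c i hi)) (ht.x i) w
  | sz2o i =>
    obtain ⟨m, hk, hm, hi⟩ := isLev_spec hf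
    exact sz2_sound h0 (by norm_num) (hF.c i hi) (PM_od (hF.c i hi)) (ht.x i) w
  | sz2e i =>
    obtain ⟨m, hk, hm, hi⟩ := isLev_spec hf
    exact sz2_sound h0 le_rfl (hF.c i hi) (PM_ev (hF.c i hi)) (ht.x i) w
  | ne i => exact neW_sound h0 (hF.c i (Nat.le_of_ble_eq_true hf)) (ht.a i) w
  | exd1 i => exact exd1_sound (ht.a i) (ht.x i) w
  | exd2 i => exact exd2_sound (ht.a i) (ht.x i) w
  | lex0 =>
    obtain ⟨m, hk, hm, hi⟩ := isLev_spec hf
    exact lex0_sound hM h0 hi hF.lexm (ht.x 0) w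
  | lexi i =>
    obtain ⟨m, hk, hm, hi⟩ := isLev_spec hf
    exact lexi_sound hM h0 hi hF.lexm (ht.q i) (ht.x (i + 1)) w
  | lexD1 i => exact (lexD_sound (ht.d i) (ht.x i) w).1
  | lexD2 i => exact (lexD_sound (ht.d i) (ht.x i) w).2
  | lexQ0o =>
    obtain ⟨m, hk, hm, hi⟩ := isLev_spec hf
    exact lexQ0_sound hM h0 hi (Or.inl rfl) (PM_od (hF.c 0 hi)) hF.lexm (ht.q 0) (ht.d 0) w
  | lexQ0e =>
    obtain ⟨m, hk, hm, hi⟩ := isLev_spec hf
    exact lexQ0_sound hM h0 hi (Or.inr rfl) (PM_ev (hF.c 0 hi)) hF.lexm (ht.q 0) (ht.d 0) w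
  | lexQio i =>
    obtain ⟨m, hk, hm, hi⟩ := isLev_spec hf
    exact lexQi_sound hM h0 hi (Or.inl rfl) (PM_od (hF.c _ hi)) hF.lexm (ht.q i) (ht.q (i + 1))
      (ht.d (i + 1)) w
  | lexQie i =>
    obtain ⟨m, hk, hm, hi⟩ := isLev_spec hf
    exact lexQi_sound hM h0 hi (Or.inr rfl) (PM_ev (hF.c _ hi)) hF.lexm (ht.q i) (ht.q (i + 1))
      (ht.d (i + 1)) w
  | aloT i =>
    obtain ⟨hk, hi⟩ := isTgt_spec hf
    exact aloT_sound (fun u hu => hF.le i u hi hu) (ht.a i) w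
  | amoT i => exact amoT_sound h0 (ht.a i) w
  | bijT i =>
    obtain ⟨hk, hi⟩ := isTgt_spec hf
    exact bijT_sound h0 (hF.c i hi) (ht.a i) w
  | adjTA i =>
    obtain ⟨hk, hi⟩ := isTgt_spec hf
    exact (adjT_sound hM hi (fun u hu => hF.le i u hi hu) (hF.nb i hi hk) (ht.e i) (ht.a i) w).1
  | adjTB i =>
    obtain ⟨hk, hi⟩ := isTgt_spec hf
    exact (adjT_sound hM hi (fun u hu => hF.le i u hi hu) (hF.nb i hi hk) (ht.e i) (ht.a i) w).2
  | lexT =>
    obtain ⟨hk, hi⟩ := isTgt_spec hf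
    exact lexT_sound hM h0 hi hF.lexm (ht.a 0) w
  | forb i => exact forb_sound h0 (hF.fb i) (ht.x i) w

end sound

end Pool.Agent.Work.MP_92a29d_co_h45
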