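import Pool.Agent.Work.MP_92a29d_co_h45.SemX

/-!
The words of the extended instances: walks of length three and extra clauses.
-/

set_option autoImplicit false

namespace Pool.Agent.Work.MP_92a29d_co_h45

section fams

variable {I : Inst} {M : Model} {B K : ℕ} {τ : ℕ → Prop}

/-- two negative literals and a positive one in the third place -/
def x3R (B T1 T2 T3 w : ℕ) : ℕ :=
  Nat.lor (Nat.lor (nl B T1 (Nat.mod w 289)) (nl B T2 (Nat.mod (Nat.div w 17) 289)))
    (pl B T3 (Nat.add (Nat.mul 17 (Nat.mod (Nat.div w 289) 17)) (Nat.mod w 17)))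

/-- the same, first place -/
def x3P (B T1 T2 T3 w : ℕ) : ℕ :=
  Nat.lor (Nat.lor (pl B T1 (Nat.mod w 289)) (nl B T2 (Nat.mod (Nat.div w 17) 289)))
    (nl B T3 (Nat.add (Nat.mul 17 (Nat.mod (Nat.div w 289) 17)) (Nat.mod w 17)))

/-- the same, second place -/
def x3Q (B T1 T2 T3 w : ℕ) : ℕ :=
  Nat.lor (Nat.lor (nl B T1 (Nat.mod w 289)) (pl B T2 (Nat.mod (Nat.div w 17) 289)))
    (nl B T3 (Nat.add (Nat.mul 17 (Nat.mod (Nat.div w 289) 17)) (Nat.mod w 17)))

/-- two negative literals of the same pair -/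
def nn2 (B T1 T2 w : ℕ) : ℕ := Nat.lor (nl B T1 (Nat.mod w 289)) (nl B T2 (Nat.mod w 289))

/-- a negative and a positive literal of the same pair -/
def np2 (B T1 T2 w : ℕ) : ℕ := Nat.lor (nl B T1 (Nat.mod w 289)) (pl B T2 (Nat.mod w 289))

section masks

variable {T1 T2 T3 : ℕ} {v1 v2 v3 : ℕ → Prop}

theorem x3R_sound (h1 : TOK B K τ T1 v1) (h2 : TOK B K τ T2 v2) (h3 : TOK B K τ T3 v3) (w : ℕ)
    (h : ∀ a b c, a < 17 → b < 17 → c < 17 →
      v1 (17 * b + a) → v2 (17 * c + b) → v3 (17 * c + a)) : MT B K τ (x3R B T1 T2 T3 w) := by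
  obtain ⟨a, b, c, ha, hb, hc, e1, e2, e3⟩ := tri_idx w
  unfold x3R
  rw [e1, e2, e3]
  by_cases p1 : v1 (17 * b + a)
  · by_cases p2 : v2 (17 * c + b)
    · exact mt_r (h3.pl (h a b c ha hb hc p1 p2))
    · exact mt_l (mt_r (h2.nl p2))
  · exact mt_l (mt_l (h1.nl p1))

theorem x3P_sound (h1 : TOK B K τ T1 v1) (h2 : TOK B K τ T2 v2) (h3 : TOK B K τ T3 v3) (w : ℕ)
    (h : ∀ a b c, a < 17 → b < 17 → c < 17 →
      v2 (17 * c + b) → v3 (17 * c + a) → v1 (17 * b + a)) : MT B K τ (x3P B T1 T2 T3 w) := by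
  obtain ⟨a, b, c, ha, hb, hc, e1, e2, e3⟩ := tri_idx w
  unfold x3P
  rw [e1, e2, e3]
  by_cases p1 : v2 (17 * c + b)
  · by_cases p2 : v3 (17 * c + a)
    · exact mt_l (mt_l (h1.pl (h a b c ha hb hc p1 p2)))
    · exact mt_r (h3.nl p2)
  · exact mt_l (mt_r (h2.nl p1))

theorem x3Q_sound (h1 : TOK B K τ T1 v1) (h2 : TOK B K τ T2 v2) (h3 : TOK B K τ T3 v3) (w : ℕ)
    (h : ∀ a b c, a < 17 → b < 17 → c < 17 →
      v1 (17 * b + a) → v3 (17 * c + a) → v2 (17 * c + b)) : MT B K τ (x3Q B T1 T2 T3 w) := by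
  obtain ⟨a, b, c, ha, hb, hc, e1, e2, e3⟩ := tri_idx w
  unfold x3Q
  rw [e1, e2, e3]
  by_cases p1 : v1 (17 * b + a)
  · by_cases p2 : v3 (17 * c + a)
    · exact mt_l (mt_r (h2.pl (h a b c ha hb hc p1 p2)))
    · exact mt_r (h3.nl p2)
  · exact mt_l (mt_l (h1.nl p1))

theorem nn2_sound (h1 : TOK B K τ T1 v1) (h2 : TOK B K τ T2 v2) (w : ℕ)
    (h : ∀ a b, a < 17 → b < 17 → v1 (17 * b + a) → v2 (17 * b + a) → False) :
    MT B K τ (nn2 B T1 T2 w) := by
  obtain ⟨a, b, c, ha, hb, hc, e1, e2, e3⟩ := tri_idx w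
  unfold nn2
  rw [e1]
  by_cases p1 : v1 (17 * b + a)
  · exact mt_r (h2.nl (h a b ha hb p1))
  · exact mt_l (h1.nl p1)

theorem np2_sound (h1 : TOK B K τ T1 v1) (h2 : TOK B K τ T2 v2) (w : ℕ)
    (h : ∀ a b, a < 17 → b < 17 → v1 (17 * b + a) → v2 (17 * b + a)) :
    MT B K τ (np2 B T1 T2 w) := by
  obtain ⟨a, b, c, ha, hb, hc, e1, e2, e3⟩ := tri_idx w
  unfold np2
  rw [e1]
  by_cases p1 : v1 (17 * b + a)
  · exact mt_r (h2.pl (h a b ha hb p1))
  · exact mt_l (h1.nl p1)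

end masks

/-! #### extra clauses -/

/-- mask of a literal -/
def litM (B : ℕ) (t : Tab) (l : Bool × Var) : ℕ :=
  match litOK l.2 with
  | false => tm B
  | true => match l.2 with
    | .X i _ _ => ite' l.1 (pl B (t.X i) (vidx l.2)) (nl B (t.X i) (vidx l.2))
    | .E i _ _ => ite' l.1 (pl B (t.E i) (vidx l.2)) (nl B (t.E i) (vidx l.2))
    | .W i _ _ => ite' l.1 (pl B (t.W i) (vidx l.2)) (nl B (t.W i) (vidx l.2))
    | .A i _ _ => ite' l.1 (pl B (t.A i) (vidx l.2)) (nl B (t.A i) (vidx l.2))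
    | .D i _ _ _ => ite' l.1 (pl B (t.D i) (vidx l.2)) (nl B (t.D i) (vidx l.2))
    | .Q i _ _ => ite' l.1 (pl B (t.Q i) (vidx l.2)) (nl B (t.Q i) (vidx l.2))

/-- mask of a clause -/
def clM (B : ℕ) (t : Tab) : List (Bool × Var) → ℕ
  | [] => 0
  | l :: c => Nat.lor (litM B t l) (clM B t c)

theorem mt_lit {T k : ℕ} {val : ℕ → Prop} (h : TOK B K τ T val) {b : Bool}
    (hv : if b then val k else ¬ val k) : MT B K τ (ite' b (pl B T k) (nl B T k)) := by
  cases b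
  · exact h.nl (by simpa using hv)
  · exact h.pl (by simpa using hv)

theorem litM_sound (hM : IsModel I M) (h0 : Zer B K τ) {t : Tab} (ht : TabOK M B K τ t)
    {l : Bool × Var} (hl : LHolds M l) : MT B K τ (litM B t l) := by
  obtain ⟨b, v⟩ := l
  have hl' : if b then v.Val M else ¬ v.Val M := by
    cases b
    · simpa [LHolds, XLit.Holds] using hl
    · simpa [LHolds, XLit.Holds] using hl
  unfold litM
  rcases hok : litOK v with _ | _
  · exact mt_tm h0
  · cases v with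
    | X i u a =>
      have ha : a < 32 := Nat.le_of_ble_eq_true hok
      have : vX M i (32 * u + a) ↔ a ≤ M.lab i u := vX_mk ha
      refine mt_lit (ht.x i) ?_
      change if b then vX M i (32 * u + a) else ¬ vX M i (32 * u + a)
      rw [this]
      exact hl'
    | E i u v =>
      have hok : (Nat.blt u 17 && Nat.blt v 17) = true := hok
      rw [Bool.and_eq_true] at hok
      have hu : u < 17 := Nat.le_of_ble_eq_true hok.1
      have : vE M i (17 * v + u) ↔ M.adj i u v :=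
        (vE_mk hu).trans ⟨hM.symm _ _ _, hM.symm _ _ _⟩
      refine mt_lit (ht.e i) ?_
      change if b then vE M i (17 * v + u) else ¬ vE M i (17 * v + u)
      rw [this]
      exact hl'
    | W i u v =>
      have hok : (Nat.blt u 17 && Nat.blt v 17) = true := hok
      rw [Bool.and_eq_true] at hok
      have hu : u < 17 := Nat.le_of_ble_eq_true hok.1
      have : vW M i (17 * v + u) ↔ ∃ w, w < 17 ∧ M.adj i u w ∧ M.adj i w v := by
        rw [vW_mk hu]
        constructor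
        · rintro ⟨w, hw, h1, h2⟩
          exact ⟨w, hw, hM.symm _ _ _ h2, hM.symm _ _ _ h1⟩
        · rintro ⟨w, hw, h1, h2⟩
          exact ⟨w, hw, hM.symm _ _ _ h2, hM.symm _ _ _ h1⟩
      refine mt_lit (ht.w i) ?_
      change if b then vW M i (17 * v + u) else ¬ vW M i (17 * v + u)
      rw [this]
      exact hl'
    | A i u a =>
      have ha : a < 32 := Nat.le_of_ble_eq_true hok
      have : vA M i (32 * u + a) ↔ M.lab i u = a := vA_mk ha
      refine mt_lit (ht.a i) ?_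
      change if b then vA M i (32 * u + a) else ¬ vA M i (32 * u + a)
      rw [this]
      exact hl'
    | D i u v a =>
      have hok : (Nat.blt a 32 && Nat.beq v (Nat.succ u)) = true := hok
      rw [Bool.and_eq_true] at hok
      have ha : a < 32 := Nat.le_of_ble_eq_true hok.1
      have hv : v = u + 1 := Nat.eq_of_beq_eq_true hok.2
      subst hv
      have : vD M i (32 * u + a) ↔ a ≤ M.lab i (u + 1) ∧ ¬ a ≤ M.lab i u := vD_mk ha
      refine mt_lit (ht.d i) ?_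
      change if b then vD M i (32 * u + a) else ¬ vD M i (32 * u + a)
      rw [this]
      exact hl'
    | Q i u v =>
      have hv : v = u + 1 := Nat.eq_of_beq_eq_true hok
      subst hv
      exact mt_lit (ht.q i) hl'

theorem clM_sound (hM : IsModel I M) (h0 : Zer B K τ) {t : Tab} (ht : TabOK M B K τ t) :
    ∀ {c : List (Bool × Var)}, (∃ l ∈ c, LHolds M l) → MT B K τ (clM B t c)
  | [], h => by obtain ⟨l, hl, _⟩ := h; simp at hl
  | l :: c, h => by
    obtain ⟨x, hx, hx2⟩ := h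
    rw [List.mem_cons] at hx
    rcases hx with rfl | hx
    · exact mt_l (litM_sound hM h0 ht hx2)
    · exact mt_r (clM_sound hM h0 ht ⟨x, hx, hx2⟩)

end fams

/-- families of the extended instances; the explicit class is `i`, its walks of length three are
the class `i + 4` -/
inductive FamX where
  | b (f : Fam)
  /-- walk of length two and edge give a walk of length three -/
  | vRa (i : ℕ)
  | vRb (i : ℕ)
  | vPa (i : ℕ)
  | vPb (i : ℕ)
  | vQa (i : ℕ)
  | vQb (i : ℕ)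
  /-- an edge is a walk of length three -/
  | ve (i : ℕ)
  /-- no closed walk of length five -/
  | v5 (i : ℕ)
  /-- no closed walk of length seven, `3 + 3 + 1` -/
  | vvP (i : ℕ)
  | vvQ (i : ℕ)
  | vvR (i : ℕ)
  /-- no closed walk of length seven, `3 + 2 + 2` -/
  | wwP (i : ℕ)
  | wwQ (i : ℕ)
  | wwR (i : ℕ)
  /-- extra clause -/
  | ex
deriving DecidableEq, Repr

/-- the family makes sense -/
def FamX.ok (I : Inst) : FamX → Bool
  | .b f => f.ok I
  | .vRa i => Nat.blt i 4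
  | .vRb i => Nat.blt i 4
  | .vPa i => Nat.blt i 4
  | .vPb i => Nat.blt i 4
  | .vQa i => Nat.blt i 4
  | .vQb i => Nat.blt i 4
  | .ve i => Nat.blt i 4
  | .v5 i => Nat.blt i 4 && I.isExpl 2 i
  | .vvP i => Nat.blt i 4 && I.isExpl 3 i
  | .vvQ i => Nat.blt i 4 && I.isExpl 3 i
  | .vvR i => Nat.blt i 4 && I.isExpl 3 i
  | .wwP i => Nat.blt i 4 && I.isExpl 3 i
  | .wwQ i => Nat.blt i 4 && I.isExpl 3 i
  | .wwR i => Nat.blt i 4 && I.isExpl 3 i
  | .ex => true

/-- mask of a word; `ms` = masks of the extra clauses -/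
def FamX.fn (B : ℕ) (t : Tab) (F : Info) (ms : List ℕ) : FamX → ℕ → ℕ
  | .b f => f.fn B t F
  | .vRa i => x3R B (t.W i) (t.E i) (t.E (i + 4))
  | .vRb i => x3R B (t.E i) (t.W i) (t.E (i + 4))
  | .vPa i => x3P B (t.E (i + 4)) (t.W i) (t.E i)
  | .vPb i => x3P B (t.E (i + 4)) (t.E i) (t.W i)
  | .vQa i => x3Q B (t.W i) (t.E (i + 4)) (t.E i)
  | .vQb i => x3Q B (t.E i) (t.E (i + 4)) (t.W i)
  | .ve i => np2 B (t.E i) (t.E (i + 4))
  | .v5 i => nn2 B (t.W i) (t.E (i + 4))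
  | .vvP i => f3 B (t.E i) (t.E (i + 4)) (t.E (i + 4))
  | .vvQ i => f3 B (t.E (i + 4)) (t.E i) (t.E (i + 4))
  | .vvR i => f3 B (t.E (i + 4)) (t.E (i + 4)) (t.E i)
  | .wwP i => f3 B (t.E (i + 4)) (t.W i) (t.W i)
  | .wwQ i => f3 B (t.W i) (t.E (i + 4)) (t.W i)
  | .wwR i => f3 B (t.W i) (t.W i) (t.E (i + 4))
  | .ex => fun c => ms.getD c (tm B)

section sound

variable {J : InstX} {M : Model} {B K : ℕ} {τ : ℕ → Prop}

theorem vV_mk (h : IsModelX J M) {i a b : ℕ} (hi : i < 4) (ha : a < 17) :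
    vE M (i + 4) (17 * b + a) ↔ walk3 (M.adj i) b a := (vE_mk ha).trans (h.v i hi b a)

theorem vW_mk' {i a b : ℕ} (ha : a < 17) : vW M i (17 * b + a) ↔ walk2 (M.adj i) b a :=
  vW_mk ha

/-- soundness of the walks -/
theorem walks_sound (h : IsModelX J M) {t : Tab} (ht : TabOK M B K τ t) {i : ℕ} (hi : i < 4)
    (w : ℕ) :
    MT B K τ (x3R B (t.W i) (t.E i) (t.E (i + 4)) w) ∧
    MT B K τ (x3R B (t.E i) (t.W i) (t.E (i + 4)) w) ∧
    MT B K τ (x3P B (t.E (i + 4)) (t.W i) (t.E i) w) ∧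
    MT B K τ (x3P B (t.E (i + 4)) (t.E i) (t.W i) w) ∧
    MT B K τ (x3Q B (t.W i) (t.E (i + 4)) (t.E i) w) ∧
    MT B K τ (x3Q B (t.E i) (t.E (i + 4)) (t.W i) w) ∧
    MT B K τ (np2 B (t.E i) (t.E (i + 4)) w) := by
  have s := fun u v => h.base.symm i u v
  refine ⟨x3R_sound (ht.w i) (ht.e i) (ht.e (i + 4)) w ?_,
    x3R_sound (ht.e i) (ht.w i) (ht.e (i + 4)) w ?_,
    x3P_sound (ht.e (i + 4)) (ht.w i) (ht.e i) w ?_,
    x3P_sound (ht.e (i + 4)) (ht.e i) (ht.w i) w ?_,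
    x3Q_sound (ht.w i) (ht.e (i + 4)) (ht.e i) w ?_,
    x3Q_sound (ht.e i) (ht.e (i + 4)) (ht.w i) w ?_,
    np2_sound (ht.e i) (ht.e (i + 4)) w ?_⟩
  · intro a b c ha hb hc p1 p2
    rw [vW_mk' ha] at p1
    rw [vE_mk hb] at p2
    rw [vV_mk h hi ha]
    obtain ⟨x, hx, q1, q2⟩ := p1
    exact ⟨b, x, hb, hx, p2, q1, q2⟩
  · intro a b c ha hb hc p1 p2
    rw [vE_mk ha] at p1
    rw [vW_mk' hb] at p2
    rw [vV_mk h hi ha]
    obtain ⟨x, hx, q1, q2⟩ := p2
    exact ⟨x, b, hx, hb, q1, q2, p1⟩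
  · intro a b c ha hb hc p1 p2
    rw [vW_mk' hb] at p1
    rw [vE_mk ha] at p2
    rw [vV_mk h hi ha]
    obtain ⟨x, hx, q1, q2⟩ := p1
    exact ⟨x, c, hx, hc, s _ _ q2, s _ _ q1, p2⟩
  · intro a b c ha hb hc p1 p2
    rw [vE_mk hb] at p1
    rw [vW_mk' ha] at p2
    rw [vV_mk h hi ha]
    obtain ⟨x, hx, q1, q2⟩ := p2
    exact ⟨c, x, hc, hx, s _ _ p1, q1, q2⟩
  · intro a b c ha hb hc p1 p2
    rw [vW_mk' ha] at p1
    rw [vE_mk ha] at p2
    rw [vV_mk h hi hb]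
    obtain ⟨x, hx, q1, q2⟩ := p1
    exact ⟨a, x, ha, hx, p2, s _ _ q2, s _ _ q1⟩
  · intro a b c ha hb hc p1 p2
    rw [vE_mk ha] at p1
    rw [vW_mk' ha] at p2
    rw [vV_mk h hi hb]
    obtain ⟨x, hx, q1, q2⟩ := p2
    exact ⟨x, a, hx, ha, q1, q2, s _ _ p1⟩
  · intro a b ha hb p1
    rw [vE_mk ha] at p1
    rw [vV_mk h hi ha]
    exact ⟨a, b, ha, hb, p1, s _ _ p1, p1⟩

/-- no closed walk of length five -/
theorem v5_sound (h : IsModelX J M) {t : Tab} (ht : TabOK M B K τ t) {i m : ℕ} (hi : i < 4)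
    (hk : J.inst.kind i = .expl m) (hm : 2 ≤ m) (w : ℕ) :
    MT B K τ (nn2 B (t.W i) (t.E (i + 4)) w) := by
  refine nn2_sound (ht.w i) (ht.e (i + 4)) w ?_
  intro a b ha hb p1 p2
  rw [vW_mk' ha] at p1
  rw [vV_mk h hi ha] at p2
  obtain ⟨x, hx, q1, q2⟩ := p1
  obtain ⟨y, z, hy, hz, q3, q4, q5⟩ := p2
  have s := fun u v => h.base.symm i u v
  exact h.base.penta i m hk hm b x a z y hb hx ha hz hy q1 q2 (s _ _ q5) (s _ _ q4) (s _ _ q3)

/-- no closed walk of length seven -/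
theorem v7_sound (h : IsModelX J M) {t : Tab} (ht : TabOK M B K τ t) {i m : ℕ} (hi : i < 4)
    (hk : J.inst.kind i = .expl m) (hm : 3 ≤ m) (w : ℕ) :
    MT B K τ (f3 B (t.E i) (t.E (i + 4)) (t.E (i + 4)) w) ∧
    MT B K τ (f3 B (t.E (i + 4)) (t.E i) (t.E (i + 4)) w) ∧
    MT B K τ (f3 B (t.E (i + 4)) (t.E (i + 4)) (t.E i) w) ∧
    MT B K τ (f3 B (t.E (i + 4)) (t.W i) (t.W i) w) ∧
    MT B K τ (f3 B (t.W i) (t.E (i + 4)) (t.W i) w) ∧
    MT B K τ (f3 B (t.W i) (t.W i) (t.E (i + 4)) w) := by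
  have s := fun u v => h.base.symm i u v
  have H := h.hepta i m hk hm
  refine ⟨f3_sound (ht.e i) (ht.e (i + 4)) (ht.e (i + 4)) w ?_,
    f3_sound (ht.e (i + 4)) (ht.e i) (ht.e (i + 4)) w ?_,
    f3_sound (ht.e (i + 4)) (ht.e (i + 4)) (ht.e i) w ?_,
    f3_sound (ht.e (i + 4)) (ht.w i) (ht.w i) w ?_,
    f3_sound (ht.w i) (ht.e (i + 4)) (ht.w i) w ?_,
    f3_sound (ht.w i) (ht.w i) (ht.e (i + 4)) w ?_⟩
  · intro a b c ha hb hc p1 p2 p3
    rw [vE_mk ha] at p1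
    rw [vV_mk h hi hb] at p2
    rw [vV_mk h hi ha] at p3
    exact no331 H ha hc hb (walk3_symm s p3) p2 p1
  · intro a b c ha hb hc p1 p2 p3
    rw [vV_mk h hi ha] at p1
    rw [vE_mk hb] at p2
    rw [vV_mk h hi ha] at p3
    exact no331 H hb ha hc p1 (walk3_symm s p3) p2
  · intro a b c ha hb hc p1 p2 p3
    rw [vV_mk h hi ha] at p1
    rw [vV_mk h hi hb] at p2
    rw [vE_mk ha] at p3
    exact no331 H hc hb ha p2 p1 (s _ _ p3)
  · intro a b c ha hb hc p1 p2 p3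
    rw [vV_mk h hi ha] at p1
    rw [vW_mk' hb] at p2
    rw [vW_mk' ha] at p3
    exact no322 H hb ha hc p1 (walk2_symm s p3) p2
  · intro a b c ha hb hc p1 p2 p3
    rw [vW_mk' ha] at p1
    rw [vV_mk h hi hb] at p2
    rw [vW_mk' ha] at p3
    exact no322 H hc hb ha p2 p1 (walk2_symm s p3)
  · intro a b c ha hb hc p1 p2 p3
    rw [vW_mk' ha] at p1
    rw [vW_mk' hb] at p2
    rw [vV_mk h hi ha] at p3
    exact no322 H ha hc hb (walk3_symm s p3) p2 p1

theorem getD_masks (h : IsModelX J M) (h0 : Zer B K τ) {t : Tab} (ht : TabOK M B K τ t)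
    (c : ℕ) : MT B K τ ((J.ex.map (clM B t)).getD c (tm B)) := by
  rw [List.getD_eq_getElem?_getD, List.getElem?_map]
  rcases hc : J.ex[c]? with _ | cl
  · exact mt_tm h0
  · exact clM_sound h.base h0 ht (h.ex cl (List.mem_of_getElem? hc))

/-- SOUNDNESS of all words of the extended instances -/
theorem fnX_sound (h : IsModelX J M) (h0 : Zer B K τ) {t : Tab} {F : Info}
    (hF : InfoOK J.inst M F) (ht : TabOK M B K τ t) {ms : List ℕ}
    (hms : ms = J.ex.map (clM B t)) (f : FamX) (hf : f.ok J.inst = true) (w : ℕ) :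
    MT B K τ (f.fn B t F ms w) := by
  have i4 : ∀ {i : ℕ}, Nat.blt i 4 = true → i < 4 := fun h => Nat.le_of_ble_eq_true h
  have e4 : ∀ {i n : ℕ}, (Nat.blt i 4 && J.inst.isExpl n i) = true →
      i < 4 ∧ ∃ m, J.inst.kind i = .expl m ∧ n ≤ m := by
    intro i n h
    rw [Bool.and_eq_true] at h
    exact ⟨i4 h.1, isExpl_spec h.2⟩
  cases f with
  | b f => exact fn_sound h.base h0 hF ht f hf w
  | vRa i => exact (walks_sound h ht (i4 hf) w).1
  | vRb i => exact (walks_sound h ht (i4 hf) w).2.1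
  | vPa i => exact (walks_sound h ht (i4 hf) w).2.2.1
  | vPb i => exact (walks_sound h ht (i4 hf) w).2.2.2.1
  | vQa i => exact (walks_sound h ht (i4 hf) w).2.2.2.2.1
  | vQb i => exact (walks_sound h ht (i4 hf) w).2.2.2.2.2.1
  | ve i => exact (walks_sound h ht (i4 hf) w).2.2.2.2.2.2
  | v5 i =>
    obtain ⟨hi, m, hk, hm⟩ := e4 hf
    exact v5_sound h ht hi hk hm w
  | vvP i =>
    obtain ⟨hi, m, hk, hm⟩ := e4 hf
    exact (v7_sound h ht hi hk hm w).1
  | vvQ i =>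
    obtain ⟨hi, m, hk, hm⟩ := e4 hf
    exact (v7_sound h ht hi hk hm w).2.1
  | vvR i =>
    obtain ⟨hi, m, hk, hm⟩ := e4 hf
    exact (v7_sound h ht hi hk hm w).2.2.1
  | wwP i =>
    obtain ⟨hi, m, hk, hm⟩ := e4 hf
    exact (v7_sound h ht hi hk hm w).2.2.2.1
  | wwQ i =>
    obtain ⟨hi, m, hk, hm⟩ := e4 hf
    exact (v7_sound h ht hi hk hm w).2.2.2.2.1
  | wwR i =>
    obtain ⟨hi, m, hk, hm⟩ := e4 hf
    exact (v7_sound h ht hi hk hm w).2.2.2.2.2
  | ex =>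
    subst hms
    exact getD_masks h h0 ht w

end sound

/-! ### decision trees -/

/-- decision tree from codes to families -/
inductive FTX where
  | leaf (lo : ℕ) (f : FamX)
  | node (m : ℕ) (l r : FTX)

/-- all families make sense -/
def FTX.ok (I : Inst) : FTX → Bool
  | .leaf _ f => f.ok I
  | .node _ l r => l.ok I && r.ok I

/-- mask of a code -/
def FTX.eval (B : ℕ) (t : Tab) (F : Info) (ms : List ℕ) : FTX → ℕ → ℕ
  | .leaf lo f, c => f.fn B t F ms (Nat.sub c lo)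
  | .node m l r, c => Bool.rec (motive := fun _ => ℕ) (l.eval B t F ms c) (r.eval B t F ms c)
      (Nat.ble m c)

theorem FTX.sound {J : InstX} {M : Model} {B K : ℕ} {τ : ℕ → Prop} (h : IsModelX J M)
    (h0 : Zer B K τ) {t : Tab} {F : Info} (hF : InfoOK J.inst M F) (ht : TabOK M B K τ t)
    {ms : List ℕ} (hms : ms = J.ex.map (clM B t)) : ∀ (T : FTX), T.ok J.inst = true → ∀ c,
      MT B K τ (T.eval B t F ms c)
  | .leaf lo f, hf, c => fnX_sound h h0 hF ht hms f hf _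
  | .node m l r, hf, c => by
    have hf : (l.ok J.inst && r.ok J.inst) = true := hf
    rw [Bool.and_eq_true] at hf
    change MT B K τ (Bool.rec (l.eval B t F ms c) (r.eval B t F ms c) (Nat.ble m c))
    rcases Nat.ble m c with _ | _
    · exact FTX.sound h h0 hF ht hms l hf.1 c
    · exact FTX.sound h h0 hF ht hms r hf.2 c

/-- SOUNDNESS of the masks of an extended instance -/
theorem omX_sound_of {J : InstX} {M : Model} {B K : ℕ} (hM : IsModelX J M) {D : Data}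
    (hD : chkData J.inst B D = true) {L : Locs} {t : Tab}
    (h : withTab B K D.base L D.al J.un (fun t' => tabEq t' t) = true) {ms : List ℕ}
    (hms : leq ms (J.ex.map (clM B t)) = true) {T : FTX}
    (hT : T.ok J.inst = true) {OM : ℕ → ℕ} (hOM : ∀ c, OM c = T.eval B t D.info ms c) :
    ∃ τ : ℕ → Prop, Zer B K τ ∧ ∀ c, MT B K τ (OM c) := by
  unfold chkData at hD
  rw [Bool.and_eq_true, Bool.and_eq_true] at hD
  obtain ⟨⟨h1, h2⟩, h3⟩ := hD
  obtain ⟨τ, t', h0, ht, hk⟩ := withTab_sound hM.base (chkBase_sound hM.base h1) (fun i p hp => by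
    have := chkAls_sound hM.base D.al 0 h3 i p hp
    rw [Nat.zero_add] at this
    exact this) hM.un h
  rw [tabEq_spec hk] at ht
  refine ⟨τ, h0, fun c => ?_⟩
  rw [hOM c]
  exact FTX.sound hM h0 (chkInfo_sound hM.base h2) ht (leq_spec hms) T hT c

end Pool.Agent.Work.MP_92a29d_co_h45
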